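import Mathlib

/-!
# Liouville actions and amenability: the definitions
-/

set_option autoImplicit false

namespace Pool.Agent.Helper14.Liouville

/-- `μ` is non-degenerate: its support generates `G` as a semigroup. -/
def NonDegenerate {G : Type*} [Group G] (μ : PMF G) : Prop :=
  Subsemigroup.closure μ.support = ⊤

/-- The transition probabilities `p_μ(y, z) = ∑_{g : g y = z} μ(g)`. -/
noncomputable def transition {G Y : Type*} [Group G] [MulAction G Y] (μ : PMF G) (y z : Y) : ℝ :=
  ∑' g : {g : G // g • y = z}, (μ g).toReal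

/-- `f` is `μ`-harmonic: `f(y) = ∑_z f(z) p_μ(y, z)` for all `y`. -/
def Harmonic {G Y : Type*} [Group G] [MulAction G Y] (μ : PMF G) (f : Y → ℝ) : Prop :=
  ∀ y, f y = ∑' z, f z * transition μ y z

/-- The action of `G` on `Y` is `μ`-Liouville: bounded `μ`-harmonic functions are constant. -/
def MuLiouville (G Y : Type*) [Group G] [MulAction G Y] (μ : PMF G) : Prop :=
  ∀ f : Y → ℝ, (∃ C : ℝ, ∀ y, |f y| ≤ C) → Harmonic μ f → ∃ c : ℝ, ∀ y, f y = c

open Classical in
/-- The induced action of `G` on the set `𝒫_n(X)` of `n`-element subsets of `X` is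
`μ`-Liouville. -/
def LiouvilleOnSubsets (G X : Type*) [Group G] [MulAction G X] (μ : PMF G) (n : ℕ) : Prop :=
  MuLiouville G (Set.powersetCard X n) μ

/-- Amenability of a discrete group: there is a left-invariant finitely additive probability
measure defined on all subsets. -/
def Amenable (G : Type*) [Group G] : Prop :=
  ∃ m : Set G → ℝ, m Set.univ = 1 ∧ (∀ A, 0 ≤ m A) ∧
    (∀ A B : Set G, Disjoint A B → m (A ∪ B) = m A + m B) ∧
    ∀ (g : G) (A : Set G), m ((fun x => g * x) '' A) = m A


end Pool.Agent.Helper14.Liouville
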