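import Pool.Agent.Helper14.LiouvilleDefs

/-!
# A non-amenable group with a faithful action that is `n`-Liouville for every `n`

Let `G` be the group of permutations of the free group `F₂` generated by the left translations and
the finitely supported permutations (it is generated by two translations and two transpositions).
It is finitely generated and not amenable, it acts faithfully on `F₂`, and there is one symmetric
probability measure `μ` on `G`, charging every element of `G`, for which all bounded harmonic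
functions on the set of `n`-subsets of `F₂` are constant, for every `n`.

The measure is a mixture `∑ 2^{-(m+1)} μ_m` where `μ_m` is, up to a small error `2^{-(m+1)}` used
to charge the `m`-th element of `G`, the uniform measure on the permutations supported in a finite
set `S_m`, and the `S_m` grow fast.
-/

set_option autoImplicit false
set_option linter.unusedSectionVars false

namespace Pool.Agent.Helper14.Liouville

/-! ### Expectations under a `PMF` -/

/-- Expectation of a real function under a `PMF`. -/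
noncomputable def expect {α : Type*} (p : PMF α) (F : α → ℝ) : ℝ := ∑' a, (p a).toReal * F a

lemma summable_toReal {α : Type*} (p : PMF α) : Summable (fun a => (p a).toReal) :=
  ENNReal.summable_toReal (by rw [p.tsum_coe]; exact ENNReal.one_ne_top)

lemma tsum_toReal {α : Type*} (p : PMF α) : ∑' a, (p a).toReal = 1 := by
  rw [← ENNReal.tsum_toReal_eq (fun a => p.apply_ne_top a), p.tsum_coe, ENNReal.toReal_one]

lemma expect_pure {α : Type*} (a : α) (F : α → ℝ) : expect (PMF.pure a) F = F a := by
  classical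
  unfold expect
  rw [tsum_eq_single a]
  · simp [PMF.pure_apply]
  · intro b hb
    simp [PMF.pure_apply, hb]

lemma expect_uniform {α : Type*} [Fintype α] [Nonempty α] (F : α → ℝ) :
    expect (PMF.uniformOfFintype α) F = (∑ a, F a) / Fintype.card α := by
  unfold expect
  rw [tsum_fintype, Finset.sum_div]
  refine Finset.sum_congr rfl fun a _ => ?_
  rw [PMF.uniformOfFintype_apply, ENNReal.toReal_inv, ENNReal.toReal_natCast]
  rw [div_eq_inv_mul]

lemma expect_bind {α β : Type*} (p : PMF α) (q : α → PMF β) {F : β → ℝ} {C : ℝ}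
    (hF : ∀ b, |F b| ≤ C) :
    expect (p.bind q) F = expect p (fun a => expect (q a) F) := by
  unfold expect
  have h1 : ∀ b, ((p.bind q) b).toReal = ∑' a, (p a).toReal * (q a b).toReal := by
    intro b
    rw [PMF.bind_apply, ENNReal.tsum_toReal_eq]
    · simp [ENNReal.toReal_mul]
    · intro a
      exact ENNReal.mul_ne_top (p.apply_ne_top a) ((q a).apply_ne_top b)
  simp only [h1]
  have hsum : Summable (fun x : β × α => (p x.2).toReal * (q x.2 x.1).toReal) := by
    have : Summable (fun x : β × α => (p x.2 * q x.2 x.1).toReal) := by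
      apply ENNReal.summable_toReal
      rw [ENNReal.tsum_prod', ENNReal.tsum_comm]
      simp_rw [ENNReal.tsum_mul_left, PMF.tsum_coe, mul_one]
      rw [PMF.tsum_coe]
      exact ENNReal.one_ne_top
    simpa [ENNReal.toReal_mul] using this
  have hsum2 : Summable (fun x : β × α => (p x.2).toReal * (q x.2 x.1).toReal * F x.1) := by
    refine Summable.of_norm_bounded (hsum.mul_right C) (fun x => ?_)
    rw [Real.norm_eq_abs, abs_mul,
      abs_of_nonneg (mul_nonneg ENNReal.toReal_nonneg ENNReal.toReal_nonneg)]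
    exact mul_le_mul_of_nonneg_left (hF _) (mul_nonneg ENNReal.toReal_nonneg ENNReal.toReal_nonneg)
  calc ∑' b, (∑' a, (p a).toReal * (q a b).toReal) * F b
      = ∑' b, ∑' a, (p a).toReal * (q a b).toReal * F b := by
        refine tsum_congr fun b => ?_
        rw [tsum_mul_right]
    _ = ∑' a, ∑' b, (p a).toReal * (q a b).toReal * F b := by
        exact Summable.tsum_comm hsum2.prod_symm
    _ = _ := by
        refine tsum_congr fun a => ?_
        rw [← tsum_mul_left]
        refine tsum_congr fun b => ?_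
        ring

lemma expect_map {α β : Type*} (p : PMF α) (φ : α → β) {F : β → ℝ} {C : ℝ}
    (hF : ∀ b, |F b| ≤ C) :
    expect (p.map φ) F = expect p (fun a => F (φ a)) := by
  rw [PMF.map, expect_bind p _ hF]
  congr 1
  funext a
  exact expect_pure _ _

lemma abs_expect_le {α : Type*} (p : PMF α) {F : α → ℝ} {C : ℝ} (hF : ∀ a, |F a| ≤ C) :
    |expect p F| ≤ C := by
  unfold expect
  have h1 : ‖∑' a, (p a).toReal * F a‖ ≤ ∑' a, (p a).toReal * C := by
    refine tsum_of_norm_bounded ((summable_toReal p).mul_right C).hasSum (fun a => ?_)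
    rw [Real.norm_eq_abs, abs_mul, abs_of_nonneg ENNReal.toReal_nonneg]
    exact mul_le_mul_of_nonneg_left (hF a) ENNReal.toReal_nonneg
  rwa [tsum_mul_right, tsum_toReal, one_mul, Real.norm_eq_abs] at h1

lemma transition_eq {G Y : Type*} [Group G] [MulAction G Y] (μ : PMF G) (y z : Y) :
    transition μ y z = ((μ.map (fun g => g • y)) z).toReal := by
  classical
  rw [PMF.map_apply, ENNReal.tsum_toReal_eq]
  · unfold transition
    refine (tsum_subtype {g : G | g • y = z} (fun g => (μ g).toReal)).trans ?_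
    refine tsum_congr fun g => ?_
    by_cases h : g • y = z
    · rw [Set.indicator_of_mem (by exact h), if_pos h.symm]
    · rw [Set.indicator_of_notMem (by exact h), if_neg (Ne.symm h), ENNReal.toReal_zero]
  · intro g
    split_ifs
    · exact μ.apply_ne_top g
    · exact ENNReal.zero_ne_top

lemma tsum_transition {G Y : Type*} [Group G] [MulAction G Y] (μ : PMF G) {f : Y → ℝ} {C : ℝ}
    (hf : ∀ y, |f y| ≤ C) (y : Y) :
    ∑' z, f z * transition μ y z = expect μ (fun g => f (g • y)) := by
  rw [← expect_map μ (fun g => g • y) hf]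
  unfold expect
  refine tsum_congr fun z => ?_
  rw [transition_eq, mul_comm]

/-! ### The weights -/

/-- A `PMF` from real weights. -/
noncomputable def pmfOfReal {α : Type*} (w : α → ℝ) (h0 : ∀ a, 0 ≤ w a) (h1 : HasSum w 1) :
    PMF α :=
  ⟨fun a => ENNReal.ofReal (w a), by
    have := ENNReal.ofReal_tsum_of_nonneg h0 h1.summable
    rw [h1.tsum_eq, ENNReal.ofReal_one] at this
    rw [this]
    exact ENNReal.summable.hasSum⟩

lemma pmfOfReal_toReal {α : Type*} (w : α → ℝ) (h0 : ∀ a, 0 ≤ w a) (h1 : HasSum w 1) (a : α) :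
    (pmfOfReal w h0 h1 a).toReal = w a := ENNReal.toReal_ofReal (h0 a)

lemma pmfOfReal_ne_zero {α : Type*} (w : α → ℝ) (h0 : ∀ a, 0 ≤ w a) (h1 : HasSum w 1) (a : α)
    (ha : 0 < w a) : pmfOfReal w h0 h1 a ≠ 0 := by
  change ENNReal.ofReal (w a) ≠ 0
  simpa using ha

lemma hasSum_geo : HasSum (fun n : ℕ => ((1 : ℝ) / 2) ^ (n + 1)) 1 := by
  have := hasSum_geometric_two.mul_left (1 / 2 : ℝ)
  simpa [pow_succ, mul_comm] using this

/-- The weights `2^{-(n+1)}` on `ℕ`. -/
noncomputable def geo : PMF ℕ :=
  pmfOfReal (fun n => ((1 : ℝ) / 2) ^ (n + 1)) (fun n => by positivity) hasSum_geo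

lemma geo_toReal (n : ℕ) : (geo n).toReal = ((1 : ℝ) / 2) ^ (n + 1) := pmfOfReal_toReal _ _ _ _

/-- The weights of a biased coin: `true` has probability `2^{-(n+1)}`. -/
noncomputable def coin (n : ℕ) : PMF Bool :=
  pmfOfReal (fun b => cond b (((1 : ℝ) / 2) ^ (n + 1)) (1 - ((1 : ℝ) / 2) ^ (n + 1)))
    (fun b => by
      cases b
      · simp only [cond_false, sub_nonneg]
        exact pow_le_one₀ (by norm_num) (by norm_num)
      · simp only [cond_true]; positivity)
    (by
      have := hasSum_fintype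
        (fun b : Bool => cond b (((1 : ℝ) / 2) ^ (n + 1)) (1 - ((1 : ℝ) / 2) ^ (n + 1)))
      simpa using this)

lemma expect_coin (n : ℕ) (F : Bool → ℝ) :
    expect (coin n) F =
      ((1 : ℝ) / 2) ^ (n + 1) * F true + (1 - ((1 : ℝ) / 2) ^ (n + 1)) * F false := by
  unfold expect
  rw [tsum_fintype]
  simp [coin, pmfOfReal_toReal]

/-! ### The growing finite sets -/

section general

variable {G X : Type*} [Group G] [MulAction G X] [DecidableEq X]

open scoped Pointwise

/-- One growth step. -/
def grow (e : ℕ → G) (M : ℕ) (T B : Finset X) : Finset X :=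
  B ∪ T ∪ (Finset.range M).biUnion (fun i => e i • B ∪ (e i)⁻¹ • B)

lemma subset_grow (e : ℕ → G) (M : ℕ) (T B : Finset X) : B ⊆ grow e M T B := by
  intro a ha
  simp [grow, ha]

lemma subset_grow' (e : ℕ → G) (M : ℕ) (T B : Finset X) : T ⊆ grow e M T B := by
  intro a ha
  simp [grow, ha]

lemma smul_subset_grow (e : ℕ → G) (M : ℕ) (T B : Finset X) {i : ℕ} (hi : i < M) :
    e i • B ⊆ grow e M T B := by
  intro a ha
  simp only [grow, Finset.mem_union, Finset.mem_biUnion, Finset.mem_range]
  exact Or.inr ⟨i, hi, Or.inl ha⟩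

lemma inv_smul_subset_grow (e : ℕ → G) (M : ℕ) (T B : Finset X) {i : ℕ} (hi : i < M) :
    (e i)⁻¹ • B ⊆ grow e M T B := by
  intro a ha
  simp only [grow, Finset.mem_union, Finset.mem_biUnion, Finset.mem_range]
  exact Or.inr ⟨i, hi, Or.inr ha⟩

lemma subset_iterate_grow (e : ℕ → G) (M : ℕ) (T B : Finset X) {j k : ℕ} (h : j ≤ k) :
    (grow e M T)^[j] B ⊆ (grow e M T)^[k] B := by
  induction k, h using Nat.le_induction with
  | base => exact subset_rfl
  | succ k hk ih =>
    rw [Function.iterate_succ_apply']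
    exact ih.trans (subset_grow _ _ _ _)

/-- The growing finite sets. -/
def T (e : ℕ → G) (x : ℕ → X) (N : ℕ → ℕ) : ℕ → Finset X
  | 0 => ∅
  | M + 1 => T e x N M ∪ (grow e M (T e x N M))^[N M] ((Finset.range M).image x)

lemma T_mono (e : ℕ → G) (x : ℕ → X) (N : ℕ → ℕ) : Monotone (T e x N) := by
  refine monotone_nat_of_le_succ (fun n => ?_)
  exact Finset.subset_union_left

lemma iterate_subset_T (e : ℕ → G) (x : ℕ → X) (N : ℕ → ℕ) {M j : ℕ} (hj : j ≤ N M) :
    (grow e M (T e x N M))^[j] ((Finset.range M).image x) ⊆ T e x N (M + 1) :=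
  (subset_iterate_grow _ _ _ _ hj).trans Finset.subset_union_right

end general

/-! ### The measure -/

section measure

variable {G X : Type*} [Group G]

/-- The measure on one level: with probability `2^{-(m+1)}` the element `e m` or its inverse,
otherwise a uniformly random lift of a permutation of `S m`. -/
noncomputable def level [DecidableEq X] (e : ℕ → G) (S : ℕ → Finset X)
    (l : (m : ℕ) → Equiv.Perm (S m) → G) (m : ℕ) : PMF G :=
  (coin m).bind (fun b => cond b
    ((PMF.uniformOfFintype Bool).map (fun c => cond c (e m) (e m)⁻¹))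
    ((PMF.uniformOfFintype (Equiv.Perm (S m))).map (l m)))

/-- The mixture of all the levels. -/
noncomputable def mixture [DecidableEq X] (e : ℕ → G) (S : ℕ → Finset X)
    (l : (m : ℕ) → Equiv.Perm (S m) → G) : PMF G :=
  geo.bind (level e S l)

lemma expect_level [DecidableEq X] (e : ℕ → G) (S : ℕ → Finset X)
    (l : (m : ℕ) → Equiv.Perm (S m) → G) (m : ℕ) {F : G → ℝ} {C : ℝ} (hF : ∀ g, |F g| ≤ C) :
    expect (level e S l m) F = ((1 : ℝ) / 2) ^ (m + 1) * ((F (e m) + F (e m)⁻¹) / 2) +
      (1 - ((1 : ℝ) / 2) ^ (m + 1)) *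
        ((∑ σ : Equiv.Perm (S m), F (l m σ)) / Fintype.card (Equiv.Perm (S m))) := by
  rw [level, expect_bind _ _ hF, expect_coin]
  simp only [cond_true, cond_false]
  rw [expect_map _ _ hF, expect_uniform, expect_map _ _ hF, expect_uniform]
  simp

lemma expect_mixture [DecidableEq X] (e : ℕ → G) (S : ℕ → Finset X)
    (l : (m : ℕ) → Equiv.Perm (S m) → G) {F : G → ℝ} {C : ℝ} (hF : ∀ g, |F g| ≤ C) :
    expect (mixture e S l) F = ∑' m : ℕ, ((1 : ℝ) / 2) ^ (m + 1) * expect (level e S l m) F := by
  rw [mixture, expect_bind _ _ hF]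
  unfold expect
  simp only [geo_toReal]

lemma mixture_ne_zero [DecidableEq X] (e : ℕ → G) (he : Function.Surjective e) (S : ℕ → Finset X)
    (l : (m : ℕ) → Equiv.Perm (S m) → G) (g : G) : mixture e S l g ≠ 0 := by
  obtain ⟨m, rfl⟩ := he g
  rw [← PMF.mem_support_iff, mixture, PMF.mem_support_bind_iff]
  refine ⟨m, ?_, ?_⟩
  · rw [PMF.mem_support_iff]
    exact pmfOfReal_ne_zero _ _ _ _ (by positivity)
  · rw [level, PMF.mem_support_bind_iff]
    refine ⟨true, ?_, ?_⟩
    · rw [PMF.mem_support_iff]
      exact pmfOfReal_ne_zero _ _ _ _ (by simp)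
    · simp only [cond_true, PMF.mem_support_map_iff]
      exact ⟨true, by simp, rfl⟩

lemma map_equiv_uniform {α : Type*} [Fintype α] [Nonempty α] (τ : α ≃ α) :
    (PMF.uniformOfFintype α).map τ = PMF.uniformOfFintype α := by
  classical
  ext h
  rw [PMF.map_apply, PMF.uniformOfFintype_apply, tsum_eq_single (τ.symm h)]
  · simp
  · intro b hb
    rw [if_neg]
    rintro rfl
    exact hb (τ.symm_apply_apply b).symm

lemma map_inv_level [DecidableEq X] (e : ℕ → G) (S : ℕ → Finset X)
    (l : (m : ℕ) → Equiv.Perm (S m) → G) (hl : ∀ m σ, l m σ⁻¹ = (l m σ)⁻¹) (m : ℕ) :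
    (level e S l m).map (fun g => g⁻¹) = level e S l m := by
  unfold level
  rw [PMF.map_bind]
  congr 1
  funext b
  cases b
  · simp only [cond_false, PMF.map_comp]
    have h : (fun g : G => g⁻¹) ∘ (l m) = (l m) ∘ (Equiv.inv (Equiv.Perm (S m))) := by
      funext σ
      exact (hl m σ).symm
    rw [h, ← PMF.map_comp, map_equiv_uniform]
  · simp only [cond_true, PMF.map_comp]
    have h : (fun g : G => g⁻¹) ∘ (fun c => cond c (e m) (e m)⁻¹) =
        (fun c => cond c (e m) (e m)⁻¹) ∘ Equiv.boolNot := by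
      funext c
      cases c <;> simp [Equiv.boolNot]
    rw [h, ← PMF.map_comp, map_equiv_uniform]

lemma mixture_inv [DecidableEq X] (e : ℕ → G) (S : ℕ → Finset X)
    (l : (m : ℕ) → Equiv.Perm (S m) → G) (hl : ∀ m σ, l m σ⁻¹ = (l m σ)⁻¹) (g : G) :
    mixture e S l g⁻¹ = mixture e S l g := by
  classical
  have h1 : (mixture e S l).map (fun g => g⁻¹) = mixture e S l := by
    unfold mixture
    rw [PMF.map_bind]
    congr 1
    funext m
    exact map_inv_level e S l hl m
  conv_rhs => rw [← h1, PMF.map_apply]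
  rw [tsum_eq_single g⁻¹]
  · simp
  · intro b hb
    rw [if_neg]
    rintro rfl
    exact hb (inv_inv b).symm

end measure

section contraction

/-- Splitting of a geometric series. -/
lemma hasSum_split (M : ℕ) (D c : ℝ) :
    HasSum (fun m : ℕ => ((1 : ℝ) / 2) ^ (m + 1) * (if m < M then D else c))
      ((1 - (1 / 2) ^ M) * D + (1 / 2) ^ M * c) := by
  have h1 : HasSum (fun m : ℕ => ((1 : ℝ) / 2) ^ (m + M + 1) *
      (if m + M < M then D else c)) ((1 / 2) ^ M * c) := by
    have h := (hasSum_geo.mul_left (((1 : ℝ) / 2) ^ M)).mul_right c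
    rw [mul_one] at h
    have h' : (fun m : ℕ => ((1 : ℝ) / 2) ^ (m + M + 1) * (if m + M < M then D else c)) =
        fun m : ℕ => (1 / 2) ^ M * (1 / 2) ^ (m + 1) * c := by
      funext m
      rw [if_neg (by omega)]
      ring
    rw [h']
    exact h
  have h2 := (hasSum_nat_add_iff (f := fun m : ℕ => ((1 : ℝ) / 2) ^ (m + 1) *
    (if m < M then D else c)) M (g := (1 / 2) ^ M * c)).mp h1
  have h3 : ∀ i ∈ Finset.range M, ((1 : ℝ) / 2) ^ (i + 1) * (if i < M then D else c) =
      ((1 : ℝ) / 2) ^ (i + 1) * D := by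
    intro i hi
    rw [if_pos (Finset.mem_range.mp hi)]
  have h4 : ∑ i ∈ Finset.range M, ((1 : ℝ) / 2) ^ (i + 1) = 1 - (1 / 2) ^ M := by
    clear h1 h2 h3
    induction M with
    | zero => simp
    | succ M ih => rw [Finset.sum_range_succ, ih]; ring
  rw [Finset.sum_congr rfl h3, ← Finset.sum_mul, h4, add_comm] at h2
  exact h2

end contraction

/-! ### The main estimate -/

section main

open scoped Pointwise

variable {G X : Type*} [Group G] [MulAction G X] [DecidableEq X]

lemma smul_map_subtype (S : Finset X) (σ : Equiv.Perm S) (g : G)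
    (hg : ∀ x, g • x = Equiv.Perm.ofSubtype σ x) (A : Finset S) :
    g • (A.map (Function.Embedding.subtype _)) =
      (σ • A).map (Function.Embedding.subtype _) := by
  ext x
  simp only [Finset.mem_smul_finset, Finset.mem_map, Function.Embedding.subtype_apply]
  constructor
  · rintro ⟨_, ⟨a, ha, rfl⟩, rfl⟩
    refine ⟨σ a, ⟨a, ha, rfl⟩, ?_⟩
    rw [hg, Equiv.Perm.ofSubtype_apply_coe]
  · rintro ⟨_, ⟨a, ha, rfl⟩, rfl⟩
    refine ⟨a, ⟨a, ha, rfl⟩, ?_⟩
    rw [hg, Equiv.Perm.ofSubtype_apply_coe]
    rfl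

lemma sum_lift_eq {n : ℕ} (S : Finset X) (l : Equiv.Perm S → G)
    (hl : ∀ σ x, l σ • x = Equiv.Perm.ofSubtype σ x)
    (f : Set.powersetCard X n → ℝ) (y z : Set.powersetCard X n)
    (hy : (y : Finset X) ⊆ S) (hz : (z : Finset X) ⊆ S) :
    ∑ σ, f (l σ • y) = ∑ σ, f (l σ • z) := by
  -- restrict to subsets of `S`
  have hmap : ∀ w : Set.powersetCard X n, (w : Finset X) ⊆ S →
      ∃ w' : Set.powersetCard S n,
        (w' : Finset S).map (Function.Embedding.subtype _) = (w : Finset X) := by
    intro w hw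
    refine ⟨⟨(w : Finset X).subtype (· ∈ S), ?_⟩, ?_⟩
    · change ((w : Finset X).subtype (· ∈ S)).card = n
      rw [Finset.card_subtype, Finset.filter_true_of_mem (fun x hx => hw hx)]
      exact w.2
    · change ((w : Finset X).subtype (· ∈ S)).map (Function.Embedding.subtype _) = (w : Finset X)
      rw [Finset.subtype_map, Finset.filter_true_of_mem (fun x hx => hw hx)]
  obtain ⟨y', hy'⟩ := hmap y hy
  obtain ⟨z', hz'⟩ := hmap z hz
  obtain ⟨τ, hτ⟩ := (Set.powersetCard.isPretransitive (α := S) (n := n)).exists_smul_eq y' z'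
  refine (Fintype.sum_equiv (Equiv.mulRight τ) _ _ (fun σ => ?_)).symm
  congr 1
  apply Subtype.ext
  rw [Set.powersetCard.coe_smul, Set.powersetCard.coe_smul, ← hy', ← hz',
    smul_map_subtype S σ (l σ) (hl σ), Equiv.coe_mulRight,
    smul_map_subtype S (σ * τ) (l (σ * τ)) (hl _), mul_smul, ← hτ, Set.powersetCard.coe_smul]

lemma contraction {n : ℕ} (e : ℕ → G) (S : ℕ → Finset X) (hS : Monotone S)
    (l : (m : ℕ) → Equiv.Perm (S m) → G)
    (hl : ∀ m σ x, l m σ • x = Equiv.Perm.ofSubtype σ x)
    {f : Set.powersetCard X n → ℝ} {C : ℝ} (hf : ∀ y, |f y| ≤ C)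
    (hharm : ∀ y, f y = expect (mixture e S l) (fun g => f (g • y)))
    (M : ℕ) {D : ℝ} (y z : Set.powersetCard X n)
    (hy : (y : Finset X) ⊆ S M) (hz : (z : Finset X) ⊆ S M)
    (h1 : ∀ i < M, |f (e i • y) - f (e i • z)| ≤ D)
    (h1' : ∀ i < M, |f ((e i)⁻¹ • y) - f ((e i)⁻¹ • z)| ≤ D)
    (h2 : ∀ i < M, ∀ σ, |f (l i σ • y) - f (l i σ • z)| ≤ D) :
    |f y - f z| ≤ (1 - (1 / 2) ^ M) * D + (1 / 2) ^ M * (2 * C * (1 / 2) ^ (M + 1)) := by
  have hs : ∀ w : Set.powersetCard X n,
      Summable (fun m : ℕ => ((1 : ℝ) / 2) ^ (m + 1) *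
        expect (level e S l m) (fun g => f (g • w))) := by
    intro w
    refine Summable.of_norm_bounded (hasSum_geo.summable.mul_right C) (fun m => ?_)
    rw [Real.norm_eq_abs, abs_mul, abs_of_nonneg (by positivity)]
    exact mul_le_mul_of_nonneg_left (abs_expect_le _ (fun g => hf _)) (by positivity)
  rw [hharm y, hharm z, expect_mixture e S l (fun g => hf _), expect_mixture e S l (fun g => hf _),
    ← (hs y).tsum_sub (hs z), ← Real.norm_eq_abs]
  refine tsum_of_norm_bounded (hasSum_split M D (2 * C * (1 / 2) ^ (M + 1))) (fun m => ?_)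
  rw [← mul_sub, Real.norm_eq_abs, abs_mul, abs_of_nonneg (by positivity)]
  refine mul_le_mul_of_nonneg_left ?_ (by positivity)
  rw [expect_level e S l m (fun g => hf _), expect_level e S l m (fun g => hf _)]
  have hδ0 : (0 : ℝ) ≤ (1 / 2) ^ (m + 1) := by positivity
  have hδ1 : (0 : ℝ) ≤ 1 - (1 / 2) ^ (m + 1) :=
    sub_nonneg.mpr (pow_le_one₀ (by norm_num) (by norm_num))
  have hcard : (0 : ℝ) < Fintype.card (Equiv.Perm (S m)) := by
    exact_mod_cast Fintype.card_pos
  split_ifs with hm
  · have h3 : |(∑ σ, f (l m σ • y)) / (Fintype.card (Equiv.Perm (S m)) : ℝ) -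
        (∑ σ, f (l m σ • z)) / (Fintype.card (Equiv.Perm (S m)) : ℝ)| ≤ D := by
      rw [← sub_div, ← Finset.sum_sub_distrib, abs_div, abs_of_pos hcard, div_le_iff₀ hcard]
      refine (Finset.abs_sum_le_sum_abs _ _).trans ?_
      refine (Finset.sum_le_sum (fun σ _ => h2 m hm σ)).trans ?_
      rw [Finset.sum_const, Finset.card_univ, nsmul_eq_mul, mul_comm]
    have h4 := h1 m hm
    have h5 := h1' m hm
    rw [abs_le] at h3 h4 h5 ⊢
    constructor <;> nlinarith
  · have h3 := sum_lift_eq (S m) (l m) (hl m) f y z (hy.trans (hS (not_lt.mp hm)))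
      (hz.trans (hS (not_lt.mp hm)))
    rw [h3]
    have h4 : |(f (e m • y) + f ((e m)⁻¹ • y)) / 2 -
        (f (e m • z) + f ((e m)⁻¹ • z)) / 2| ≤ 2 * C := by
      have h5 := hf (e m • y)
      have h6 := hf (e m • z)
      have h5' := hf ((e m)⁻¹ • y)
      have h6' := hf ((e m)⁻¹ • z)
      rw [abs_le] at *
      constructor <;> linarith
    have h7 : ((1 : ℝ) / 2) ^ (m + 1) ≤ (1 / 2) ^ (M + 1) :=
      pow_le_pow_of_le_one (by norm_num) (by norm_num) (by omega)
    have hC : 0 ≤ 2 * C := (abs_nonneg _).trans h4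
    calc |_| = |((1 : ℝ) / 2) ^ (m + 1) * ((f (e m • y) + f ((e m)⁻¹ • y)) / 2 -
            (f (e m • z) + f ((e m)⁻¹ • z)) / 2)| := by
          congr 1
          ring
      _ = (1 / 2) ^ (m + 1) * |(f (e m • y) + f ((e m)⁻¹ • y)) / 2 -
            (f (e m • z) + f ((e m)⁻¹ • z)) / 2| := by
          rw [abs_mul, abs_of_nonneg hδ0]
      _ ≤ (1 / 2) ^ (M + 1) * (2 * C) := mul_le_mul h7 h4 (abs_nonneg _) (by positivity)
      _ = _ := by ring

lemma smul_lift_subset (S : Finset X) (σ : Equiv.Perm S) (g : G)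
    (hg : ∀ x, g • x = Equiv.Perm.ofSubtype σ x) (A : Finset X) : g • A ⊆ A ∪ S := by
  intro x hx
  obtain ⟨a, ha, rfl⟩ := Finset.mem_smul_finset.mp hx
  rw [hg, Finset.mem_union]
  by_cases h : a ∈ S
  · right
    rw [Equiv.Perm.ofSubtype_apply_of_mem σ h]
    exact (σ ⟨a, h⟩).2
  · left
    rwa [Equiv.Perm.ofSubtype_apply_of_not_mem σ h]

/-- If a countable group `G` acting faithfully on a countable set `X` realises all the finitely
supported permutations of `X`, then one symmetric measure of full support is Liouville for the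
actions on `n`-subsets, for all `n` at once. -/
theorem exists_uniform_liouville [Countable G] [Countable X] [Nonempty X] [FaithfulSMul G X]
    (hfs : ∀ π : Equiv.Perm X, {x | π x ≠ x}.Finite → ∃ g : G, ∀ x, g • x = π x) :
    ∃ μ : PMF G, (∀ g, μ g ≠ 0) ∧ (∀ g, μ g⁻¹ = μ g) ∧
      ∀ n, MuLiouville G (Set.powersetCard X n) μ := by
  obtain ⟨e, he⟩ := exists_surjective_nat G
  obtain ⟨x, hx⟩ := exists_surjective_nat X
  -- number of steps
  have hN : ∀ M : ℕ, ∃ N : ℕ, (1 - ((1 : ℝ) / 2) ^ M) ^ N < (1 / 2) ^ M := by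
    intro M
    refine exists_pow_lt_of_lt_one (by positivity) ?_
    have : (0 : ℝ) < (1 / 2) ^ M := by positivity
    linarith
  choose N hN using hN
  -- lifts
  have hlift : ∀ (m : ℕ) (σ : Equiv.Perm (T e x N (m + 1))),
      ∃ g : G, ∀ x, g • x = Equiv.Perm.ofSubtype σ x := by
    intro m σ
    refine hfs _ ((Finset.finite_toSet (T e x N (m + 1))).subset (fun a ha => ?_))
    by_contra h
    exact ha (Equiv.Perm.ofSubtype_apply_of_not_mem σ h)
  choose l hl using hlift
  have hlinv : ∀ m σ, l m σ⁻¹ = (l m σ)⁻¹ := by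
    intro m σ
    refine FaithfulSMul.eq_of_smul_eq_smul (α := X) (fun a => ?_)
    rw [hl, map_inv, Equiv.Perm.inv_eq_iff_eq, eq_comm, ← hl m σ, smul_inv_smul]
  refine ⟨mixture e (fun m => T e x N (m + 1)) l, fun g => mixture_ne_zero e he _ l g,
    fun g => mixture_inv e _ l hlinv g, ?_⟩
  intro n f ⟨C, hf⟩ hharm'
  have hharm : ∀ y, f y = expect (mixture e (fun m => T e x N (m + 1)) l) (fun g => f (g • y)) :=
    fun y => (hharm' y).trans (tsum_transition _ hf y)
  have hSmono : Monotone (fun m => T e x N (m + 1)) :=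
    fun a b hab => T_mono e x N (Nat.succ_le_succ hab)
  -- the estimate
  have key : ∀ M j : ℕ, j ≤ N M → ∀ y z : Set.powersetCard X n,
      (y : Finset X) ⊆ (grow e M (T e x N M))^[N M - j] ((Finset.range M).image x) →
      (z : Finset X) ⊆ (grow e M (T e x N M))^[N M - j] ((Finset.range M).image x) →
      |f y - f z| ≤ 2 * C * ((1 - (1 / 2) ^ M) ^ j + (1 / 2) ^ (M + 1)) := by
    intro M j
    have hp : (0 : ℝ) < (1 / 2) ^ M := by positivity
    have hs0 : (0 : ℝ) ≤ 1 - (1 / 2) ^ M :=
      sub_nonneg.mpr (pow_le_one₀ (by norm_num) (by norm_num))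
    induction j with
    | zero =>
      intro _ y z _ _
      have h5 := hf y
      have h6 := hf z
      have hC : 0 ≤ C := (abs_nonneg _).trans h5
      have h7 : |f y - f z| ≤ 2 * C := by
        rw [abs_le] at *
        constructor <;> linarith
      refine h7.trans ?_
      rw [pow_zero]
      have : (0 : ℝ) ≤ 2 * C * (1 / 2) ^ (M + 1) := by positivity
      linarith
    | succ j ih =>
      intro hj y z hy hz
      have ih' := ih (by omega)
      have hstep : N M - j = (N M - (j + 1)) + 1 := by omega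
      rw [hstep, Function.iterate_succ_apply'] at ih'
      set B := (grow e M (T e x N M))^[N M - (j + 1)] ((Finset.range M).image x) with hB
      have hBS : B ⊆ T e x N (M + 1) := iterate_subset_T e x N (by omega)
      have h1 : ∀ i < M, |f (e i • y) - f (e i • z)| ≤
          2 * C * ((1 - (1 / 2) ^ M) ^ j + (1 / 2) ^ (M + 1)) := by
        intro i hi
        refine ih' _ _ ?_ ?_
        · rw [Set.powersetCard.coe_smul]
          exact (Finset.smul_finset_subset_smul_finset hy).trans (smul_subset_grow _ _ _ _ hi)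
        · rw [Set.powersetCard.coe_smul]
          exact (Finset.smul_finset_subset_smul_finset hz).trans (smul_subset_grow _ _ _ _ hi)
      have h1' : ∀ i < M, |f ((e i)⁻¹ • y) - f ((e i)⁻¹ • z)| ≤
          2 * C * ((1 - (1 / 2) ^ M) ^ j + (1 / 2) ^ (M + 1)) := by
        intro i hi
        refine ih' _ _ ?_ ?_
        · rw [Set.powersetCard.coe_smul]
          exact (Finset.smul_finset_subset_smul_finset hy).trans
            (inv_smul_subset_grow _ _ _ _ hi)
        · rw [Set.powersetCard.coe_smul]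
          exact (Finset.smul_finset_subset_smul_finset hz).trans
            (inv_smul_subset_grow _ _ _ _ hi)
      have h2 : ∀ i < M, ∀ σ, |f (l i σ • y) - f (l i σ • z)| ≤
          2 * C * ((1 - (1 / 2) ^ M) ^ j + (1 / 2) ^ (M + 1)) := by
        intro i hi σ
        have hT : T e x N (i + 1) ⊆ T e x N M := T_mono e x N hi
        have h3 : ∀ w : Set.powersetCard X n, (w : Finset X) ⊆ B →
            ((l i σ • w : Set.powersetCard X n) : Finset X) ⊆ grow e M (T e x N M) B := by
          intro w hw
          rw [Set.powersetCard.coe_smul]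
          refine (smul_lift_subset _ σ _ (hl i σ) _).trans ?_
          exact Finset.union_subset (hw.trans (subset_grow _ _ _ _))
            (hT.trans (subset_grow' _ _ _ _))
        exact ih' _ _ (h3 y hy) (h3 z hz)
      refine (contraction e (fun m => T e x N (m + 1)) hSmono l hl hf hharm M y z
        (hy.trans hBS) (hz.trans hBS) h1 h1' h2).trans (le_of_eq ?_)
      rw [pow_succ (1 - (1 / 2 : ℝ) ^ M) j]
      ring
  -- conclusion
  have hconst : ∀ y z : Set.powersetCard X n, f y = f z := by
    intro y z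
    have hlim : ∃ M₀ : ℕ, ∀ M, M₀ ≤ M → |f y - f z| ≤ 2 * C * (2 * (1 / 2) ^ M) := by
      -- all points of `y` and `z` are eventually listed
      have hfin : ∃ M₀ : ℕ, (y : Finset X) ∪ (z : Finset X) ⊆ (Finset.range M₀).image x := by
        choose k hk using hx
        refine ⟨((y : Finset X) ∪ (z : Finset X)).sup k + 1, fun a ha => ?_⟩
        rw [Finset.mem_image]
        exact ⟨k a, Finset.mem_range.mpr (Nat.lt_succ_of_le (Finset.le_sup ha)), hk a⟩
      obtain ⟨M₀, hM₀⟩ := hfin
      refine ⟨M₀, fun M hM => ?_⟩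
      have hsub : (y : Finset X) ∪ (z : Finset X) ⊆ (Finset.range M).image x :=
        hM₀.trans (Finset.image_subset_image (Finset.range_subset_range.mpr hM))
      have h := key M (N M) le_rfl y z
        (by rw [Nat.sub_self]; exact Finset.subset_union_left.trans hsub)
        (by rw [Nat.sub_self]; exact Finset.subset_union_right.trans hsub)
      have hC : 0 ≤ C := (abs_nonneg _).trans (hf y)
      refine h.trans (mul_le_mul_of_nonneg_left ?_ (by positivity))
      have h8 := (hN M).le
      have h9 : ((1 : ℝ) / 2) ^ (M + 1) ≤ (1 / 2) ^ M :=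
        pow_le_pow_of_le_one (by norm_num) (by norm_num) (Nat.le_succ M)
      linarith
    obtain ⟨M₀, hM₀⟩ := hlim
    have htend : Filter.Tendsto (fun M : ℕ => 2 * C * (2 * ((1 : ℝ) / 2) ^ M)) Filter.atTop
        (nhds (2 * C * (2 * 0))) :=
      ((tendsto_pow_atTop_nhds_zero_of_lt_one (by norm_num) (by norm_num)).const_mul 2).const_mul _
    have hle : |f y - f z| ≤ 2 * C * (2 * 0) :=
      ge_of_tendsto htend (Filter.eventually_atTop.mpr ⟨M₀, hM₀⟩)
    rw [mul_zero, mul_zero] at hle
    exact sub_eq_zero.mp (abs_nonpos_iff.mp hle)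
  by_cases hne : Nonempty (Set.powersetCard X n)
  · obtain ⟨y₀⟩ := hne
    exact ⟨f y₀, fun y => hconst y y₀⟩
  · exact ⟨0, fun y => (hne ⟨y⟩).elim⟩

end main

/-! ### The group -/

section group

/-- The four generators: the left translations by the two free generators of `F₂`, and the two
transpositions exchanging `1` with a free generator, as permutations of `F₂`. -/
def gens : Set (Equiv.Perm (FreeGroup Bool)) :=
  Set.range (fun b : Bool => Equiv.mulLeft (FreeGroup.of b)) ∪
    Set.range (fun b : Bool => Equiv.swap 1 (FreeGroup.of b))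

instance gens_finite : Finite gens := by
  unfold gens
  infer_instance

/-- The group generated by the four generators. -/
def Grp : Subgroup (Equiv.Perm (FreeGroup Bool)) := Subgroup.closure gens

lemma mulLeft_mem (h : FreeGroup Bool) : Equiv.mulLeft h ∈ Grp := by
  induction h using FreeGroup.induction_on with
  | C1 =>
    have : Equiv.mulLeft (1 : FreeGroup Bool) = 1 := by ext x; simp
    rw [this]
    exact one_mem _
  | of b => exact Subgroup.subset_closure (Or.inl ⟨b, rfl⟩)
  | inv_of b ih =>
    have : Equiv.mulLeft (FreeGroup.of b)⁻¹ = (Equiv.mulLeft (FreeGroup.of b))⁻¹ := by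
      rw [Equiv.Perm.inv_def, Equiv.mulLeft_symm]
    rw [this]
    exact inv_mem ih
  | mul g h hg hh =>
    have : Equiv.mulLeft (g * h) = Equiv.mulLeft g * Equiv.mulLeft h := by
      ext x
      simp
    rw [this]
    exact mul_mem hg hh

lemma swap_mem_aux (h : FreeGroup Bool) : ∀ g : FreeGroup Bool, Equiv.swap g (g * h) ∈ Grp := by
  induction h using FreeGroup.induction_on with
  | C1 =>
    intro g
    rw [mul_one, Equiv.swap_self]
    exact one_mem _
  | of b =>
    intro g
    have h1 : Equiv.mulLeft g * Equiv.swap 1 (FreeGroup.of b) * (Equiv.mulLeft g)⁻¹ ∈ Grp :=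
      mul_mem (mul_mem (mulLeft_mem g) (Subgroup.subset_closure (Or.inr ⟨b, rfl⟩)))
        (inv_mem (mulLeft_mem g))
    rw [Equiv.mul_swap_eq_swap_mul, mul_assoc, mul_inv_cancel, mul_one] at h1
    simpa using h1
  | inv_of b ih =>
    intro g
    have h1 := ih (g * (FreeGroup.of b)⁻¹)
    rw [inv_mul_cancel_right, Equiv.swap_comm] at h1
    exact h1
  | mul h₁ h₂ ih₁ ih₂ =>
    intro g
    have h1 := ih₂ (g * h₁)
    rw [mul_assoc] at h1
    exact SubmonoidClass.swap_mem_trans Grp (ih₁ g) h1

lemma finitary_mem (π : Equiv.Perm (FreeGroup Bool)) (hπ : {x | π x ≠ x}.Finite) : π ∈ Grp := by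
  have h1 : π ∈ Subgroup.closure {σ : Equiv.Perm (FreeGroup Bool) | σ.IsSwap} := by
    rw [mem_closure_isSwap']
    exact hπ
  refine (Subgroup.closure_le Grp).mpr ?_ h1
  rintro σ ⟨x, y, -, rfl⟩
  have := swap_mem_aux (x⁻¹ * y) x
  rwa [mul_inv_cancel_left] at this

instance countable_Grp : Countable Grp := by
  have h1 : (FreeGroup.lift (Subtype.val : gens → Equiv.Perm (FreeGroup Bool))).range = Grp := by
    rw [FreeGroup.range_lift_eq_closure, Subtype.range_coe]
    rfl
  rw [← h1]
  exact (MonoidHom.rangeRestrict_surjective _).countable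

instance fg_Grp : Group.FG Grp := Group.closure_finite_fg gens

lemma not_amenable : ¬ Amenable Grp := by
  rintro ⟨m, h1, h0, hadd, hinv⟩
  have hmono : ∀ A B : Set Grp, A ⊆ B → m A ≤ m B := by
    intro A B hAB
    have := hadd A (B \ A) Set.disjoint_sdiff_right
    rw [Set.union_sdiff_cancel hAB] at this
    linarith [h0 (B \ A)]
  -- sets of group elements sorted by the first letter of the image of `1`
  set W : Bool × Bool → Set Grp :=
    fun w => {g | (g : Equiv.Perm (FreeGroup Bool)) 1 ∈ FreeGroup.startsWith w} with hW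
  have hdisj : ∀ w w', w ≠ w' → Disjoint (W w) (W w') := by
    intro w w' hww
    have h2 := FreeGroup.startsWith.disjoint_iff_ne.mpr hww
    rw [Set.disjoint_left] at h2 ⊢
    intro g hg hg'
    exact h2 hg hg'
  have hone : ∀ b : Bool, 1 ≤ m (W (b, true)) + m (W (b, false)) := by
    intro b
    have h2 : m ((W (b, false))ᶜ) ≤ m (W (b, true)) := by
      have h3 : (fun x => (⟨Equiv.mulLeft (FreeGroup.of b), mulLeft_mem _⟩ : Grp) * x) ''
          (W (b, false))ᶜ ⊆ W (b, true) := by
        rintro _ ⟨g, hg, rfl⟩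
        exact FreeGroup.startsWith_mk_mul (w := (b, true)) _ hg
      rw [← hinv ⟨Equiv.mulLeft (FreeGroup.of b), mulLeft_mem _⟩ ((W (b, false))ᶜ)]
      exact hmono _ _ h3
    have h4 := hadd (W (b, false)) ((W (b, false))ᶜ) disjoint_compl_right
    rw [Set.union_compl_self, h1] at h4
    linarith
  have hsum : m (W (true, true)) + m (W (true, false)) +
      (m (W (false, true)) + m (W (false, false))) ≤ 1 := by
    rw [← hadd _ _ (hdisj _ _ (by simp)), ← hadd _ _ (hdisj _ _ (by simp)), ← hadd, ← h1]
    · exact hmono _ _ (Set.subset_univ _)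
    · rw [Set.disjoint_union_left, Set.disjoint_union_right, Set.disjoint_union_right]
      exact ⟨⟨hdisj _ _ (by simp), hdisj _ _ (by simp)⟩, hdisj _ _ (by simp), hdisj _ _ (by simp)⟩
  linarith [hone true, hone false]

end group

/-- There is a finitely generated non-amenable group with a faithful action on a set `X` and a
symmetric non-degenerate measure for which the induced action on `n`-subsets is Liouville for
every `n`. -/
theorem main :
    ∃ (G : Type) (_ : Group G) (X : Type) (_ : MulAction G X),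
      Countable G ∧ Group.FG G ∧ FaithfulSMul G X ∧
      (∃ μ : PMF G, NonDegenerate μ ∧ (∀ g, μ g⁻¹ = μ g) ∧
        ∀ n : ℕ, 1 ≤ n → LiouvilleOnSubsets G X μ n) ∧
      ¬ Amenable G := by
  classical
  refine ⟨Grp, inferInstance, FreeGroup Bool, inferInstance, inferInstance, inferInstance,
    inferInstance, ?_, not_amenable⟩
  obtain ⟨μ, hμ, hsymm, hL⟩ := @exists_uniform_liouville Grp (FreeGroup Bool) _ _
    (fun a b => Classical.propDecidable (a = b)) _ _ _ _
    (fun π hπ => ⟨⟨π, finitary_mem π hπ⟩, fun x => rfl⟩)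
  refine ⟨μ, ?_, hsymm, fun n _ => hL n⟩
  rw [NonDegenerate, eq_top_iff]
  intro g _
  exact Subsemigroup.subset_closure ((PMF.mem_support_iff μ g).mpr (hμ g))

end Pool.Agent.Helper14.Liouville
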