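import Pool.Agent.Helper14.NegEnd

/-! The end of the argument, counting version: from hard distributions to the number of cliques. -/

set_option autoImplicit false

namespace Pool.Agent.Helper14.NegCount

open Finset Pool.Agent.Helper71.Neg Pool.Agent.Helper14.NegEnd

open Classical in
theorem cnt_mono {Ω : Type} [Fintype Ω] (P Q : Ω → Prop) (h : ∀ ω, P ω → Q ω) : cnt P ≤ cnt Q := by
  unfold cnt
  exact card_le_card fun ω hω => mem_filter.mpr ⟨mem_univ _, h ω (mem_filter.mp hω).2⟩

open Classical in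
theorem cnt_none {Ω : Type} [Fintype Ω] (P : Ω → Prop) (h : ∀ ω, ¬ P ω) : cnt P = 0 := by
  unfold cnt
  rw [card_eq_zero, filter_eq_empty_iff]
  exact fun ω _ => h ω

open Classical in
theorem card_le_cnt {Ω : Type} [Fintype Ω] (A : Finset Ω) (P : Ω → Prop) (h : ∀ ω ∈ A, P ω) :
    A.card ≤ cnt P := by
  unfold cnt
  exact card_le_card fun ω hω => mem_filter.mpr ⟨mem_univ _, h ω hω⟩

open Classical in
theorem cnt_le_card {Ω : Type} [Fintype Ω] (A : Finset Ω) (P : Ω → Prop) (h : ∀ ω, P ω → ω ∈ A) :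
    cnt P ≤ A.card := by
  unfold cnt
  exact card_le_card fun ω hω => h ω (mem_filter.mp hω).2

/-- The number of cliques of all sizes (the empty one included). -/
noncomputable def numCliques {n : ℕ} (G : SimpleGraph (Fin n)) : ℕ :=
  cnt (fun X : Finset (Fin n) => G.IsClique X)

theorem numCliques_le {n : ℕ} (G : SimpleGraph (Fin n)) : numCliques G ≤ 2 ^ n := by
  classical
  unfold numCliques cnt
  refine (card_le_univ _).trans (le_of_eq ?_)
  rw [Fintype.card_finset, Fintype.card_fin]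

theorem ge_iff_bits {n : ℕ} (G : SimpleGraph (Fin n)) (s : ℕ) :
    2 ^ s ≤ numCliques G ↔ ∃ b, b ≤ n ∧ s ≤ b ∧ (numCliques G).testBit b = true := by
  constructor
  · intro h
    obtain ⟨i, hi, hb⟩ := Nat.exists_ge_and_testBit_of_ge_two_pow h
    refine ⟨i, ?_, hi, hb⟩
    have h1 := Nat.ge_two_pow_of_testBit hb
    exact (Nat.pow_le_pow_iff_right (by norm_num : 1 < 2)).mp (h1.trans (numCliques_le G))
  · rintro ⟨b, -, hs, hb⟩
    exact (Nat.pow_le_pow_right (by norm_num) hs).trans (Nat.ge_two_pow_of_testBit hb)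

theorem many_cliques {s n : ℕ} {U : Type} [DecidableEq U] (φ : (Fin s × U) ⊕ Fin 0 ↪ Fin n)
    (G : Finset (Pr s U)) (h : ∃ y : Fin s → U, ∀ (a b : Fin s) (h : a < b),
      (⟨((a, y a), (b, y b)), h⟩ : Pr s U) ∈ G) :
    2 ^ s ≤ numCliques ((gr 0 G).map φ) := by
  classical
  obtain ⟨y, hy⟩ := h
  have hinj : Function.Injective (fun a : Fin s => φ (.inl (a, y a))) := by
    intro a b hab
    exact congrArg Prod.fst (Sum.inl_injective (φ.injective hab))
  have hI : Function.Injective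
      (fun A : Finset (Fin s) => A.image (fun a : Fin s => φ (.inl (a, y a)))) :=
    Finset.image_injective hinj
  have hc : ((univ : Finset (Finset (Fin s))).image
      (fun A : Finset (Fin s) => A.image (fun a : Fin s => φ (.inl (a, y a))))).card = 2 ^ s := by
    rw [card_image_of_injective _ hI, card_univ, Fintype.card_finset, Fintype.card_fin]
  rw [← hc]
  unfold numCliques
  apply card_le_cnt
  intro X hX
  obtain ⟨A, -, rfl⟩ := mem_image.mp hX
  intro u hu v hv huv
  rw [mem_coe, mem_image] at hu hv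
  obtain ⟨a, -, rfl⟩ := hu
  obtain ⟨b, -, rfl⟩ := hv
  rw [SimpleGraph.map_adj_apply]
  have hab : a ≠ b := fun h => huv (by rw [h])
  rcases lt_or_gt_of_ne hab with h | h
  · exact Or.inl ⟨h, hy a b h⟩
  · exact Or.inr ⟨h, hy b a h⟩

theorem few_cliques {n s w : ℕ} (hn : 2 ≤ n) (hs : n ^ w + 1 ≤ 2 ^ s) (G : SimpleGraph (Fin n))
    (h : 2 ^ s ≤ numCliques G) : ¬ G.CliqueFree w := by
  classical
  intro hfree
  have h1 : numCliques G ≤ ∑ i ∈ range w, n ^ i := by
    unfold numCliques
    refine (cnt_le_card ((range w).biUnion (fun i => powersetCard i (univ : Finset (Fin n)))) _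
      ?_).trans (card_biUnion_le.trans (sum_le_sum fun i _ => ?_))
    · intro X hX
      rw [mem_biUnion]
      refine ⟨X.card, ?_, mem_powersetCard.mpr ⟨subset_univ _, rfl⟩⟩
      rw [mem_range]
      by_contra hlt
      push Not at hlt
      exact hfree.mono hlt X ⟨hX, rfl⟩
    · rw [card_powersetCard, card_univ, Fintype.card_fin]
      exact Nat.choose_le_pow n i
  have h2 : ∑ i ∈ range w, n ^ i < n ^ w := Nat.geomSum_lt hn (fun k hk => mem_range.mp hk)
  omega

theorem clique_part {s n w : ℕ} {U : Type} [DecidableEq U] [Nonempty (Fin s × U)]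
    (φ : (Fin s × U) ⊕ Fin 0 ↪ Fin n)
    (G : Finset (Pr s U)) (h : ¬ ((gr 0 G).map φ).CliqueFree w) :
    ∃ z : Fin w → Fin s × U, ∀ (a b : Fin w), a < b → ∃ h' : (z a).1 < (z b).1,
      (⟨(z a, z b), h'⟩ : Pr s U) ∈ G := by
  classical
  obtain ⟨v₀⟩ := (inferInstance : Nonempty (Fin s × U))
  have : Nonempty ((Fin s × U) ⊕ Fin 0) := ⟨.inl v₀⟩
  rw [SimpleGraph.cliqueFree_map_iff] at h
  unfold SimpleGraph.CliqueFree at h
  push Not at h
  obtain ⟨t, ht⟩ := h
  rw [SimpleGraph.isNClique_iff] at ht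
  obtain ⟨hcl, hcard⟩ := ht
  have h2 : t.toRight.card ≤ 0 := by
    have := card_le_univ t.toRight
    simpa using this
  have h1 : t.toLeft.card = w := by
    have := Finset.card_toLeft_add_card_toRight (u := t)
    omega
  have hinj : Set.InjOn (fun p : Fin s × U => p.1) (t.toLeft : Set (Fin s × U)) := by
    intro p hp q hq hpq
    by_contra hne
    rw [mem_coe, mem_toLeft] at hp hq
    have hadj : (gr 0 G).Adj (.inl p) (.inl q) := hcl (mem_coe.mpr hp) (mem_coe.mpr hq)
      (fun h => hne (Sum.inl_injective h))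
    simp only at hpq
    rcases hadj with ⟨h, -⟩ | ⟨h, -⟩
    · exact absurd hpq (ne_of_lt h)
    · exact absurd hpq.symm (ne_of_lt h)
  have hJ : (t.toLeft.image (fun p => p.1)).card = w := by
    rw [card_image_of_injOn hinj, h1]
  have hex : ∀ j : Fin w, ∃ p : Fin s × U, Sum.inl p ∈ t ∧
      p.1 = (t.toLeft.image (fun p => p.1)).orderEmbOfFin hJ j := by
    intro j
    have hm := Finset.orderEmbOfFin_mem (t.toLeft.image (fun p => p.1)) hJ j
    obtain ⟨p, hp, hpe⟩ := mem_image.mp hm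
    exact ⟨p, mem_toLeft.mp hp, hpe⟩
  choose z hz1 hz2 using hex
  refine ⟨z, fun a b hab => ?_⟩
  have hlt : (z a).1 < (z b).1 := by
    rw [hz2, hz2]
    exact (Finset.orderEmbOfFin _ hJ).strictMono hab
  refine ⟨hlt, ?_⟩
  have hadj : (gr 0 G).Adj (.inl (z a)) (.inl (z b)) :=
    hcl (mem_coe.mpr (hz1 a)) (mem_coe.mpr (hz1 b)) (fun h => by
      have := Sum.inl_injective h
      exact absurd (congrArg Prod.fst this) (ne_of_lt hlt))
  rcases hadj with ⟨h, hG⟩ | ⟨h, -⟩
  · exact hG
  · exact absurd h (not_lt.mpr hlt.le)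

theorem card_lt_pairs (w : ℕ) :
    Fintype.card {p : Fin w × Fin w // p.1 < p.2} = w * (w - 1) / 2 := by
  classical
  have h1 : Fintype.card {p : Fin w × Fin w // p.1 < p.2} = ∑ i ∈ range w, i := by
    rw [Fintype.card_subtype, Finset.card_filter, Fintype.sum_prod_type_right, Finset.sum_range]
    apply sum_congr rfl
    intro b _
    rw [← Finset.card_filter]
    have h2 : univ.filter (fun a : Fin w => a < b) = Finset.Iio b := by
      ext a; simp
    simp only [h2, Fin.card_Iio]
  rw [h1, Finset.sum_range_id]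

theorem ng_small {s k t S : ℕ} {r : ℕ → ℕ} {err : ℝ} {U Ω : Type} [Fintype U] [DecidableEq U]
    [Fintype Ω] {ng ps : Ω → Finset (Pr s U)} (hk : 1 ≤ k)
    (D : HardDist s k t S r err U Ω ng ps) (w : ℕ) :
    (cnt (fun ω => ∃ z : Fin w → Fin s × U, ∀ (a b : Fin w), a < b → ∃ h' : (z a).1 < (z b).1,
      (⟨(z a, z b), h'⟩ : Pr s U) ∈ ng ω) : ℝ) ≤
    ((s * Fintype.card U : ℕ) : ℝ) ^ w * (1 - 1 / (k : ℝ)) ^ (w * (w - 1) / 2) *
      Fintype.card Ω := by
  classical
  have hkpos : (0 : ℝ) < k := by exact_mod_cast hk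
  have h1 := cnt_exists_le (fun (z : Fin w → Fin s × U) (ω : Ω) =>
    ∀ (a b : Fin w), a < b → ∃ h' : (z a).1 < (z b).1, (⟨(z a, z b), h'⟩ : Pr s U) ∈ ng ω)
  have h2 : (cnt (fun ω => ∃ z : Fin w → Fin s × U, ∀ (a b : Fin w), a < b →
      ∃ h' : (z a).1 < (z b).1, (⟨(z a, z b), h'⟩ : Pr s U) ∈ ng ω) : ℝ) ≤
      ∑ z : Fin w → Fin s × U, (cnt (fun ω : Ω => ∀ (a b : Fin w), a < b →
        ∃ h' : (z a).1 < (z b).1, (⟨(z a, z b), h'⟩ : Pr s U) ∈ ng ω) : ℝ) := by
    exact_mod_cast h1
  refine h2.trans ?_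
  have hk0 : 0 ≤ 1 - 1 / (k : ℝ) := by
    have : 1 / (k : ℝ) ≤ 1 := by
      rw [div_le_one hkpos]; exact_mod_cast hk
    linarith
  have h4 : ∀ z : Fin w → Fin s × U, (cnt (fun ω : Ω => ∀ (a b : Fin w), a < b →
        ∃ h' : (z a).1 < (z b).1, (⟨(z a, z b), h'⟩ : Pr s U) ∈ ng ω) : ℝ) ≤
      (1 - 1 / (k : ℝ)) ^ (w * (w - 1) / 2) * Fintype.card Ω := by
    intro z
    by_cases hz : ∀ a b : Fin w, a < b → (z a).1 < (z b).1
    · set F : Finset (Pr s U) := (univ : Finset {p : Fin w × Fin w // p.1 < p.2}).image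
        (fun p => ⟨(z p.1.1, z p.1.2), hz _ _ p.2⟩) with hF
      have hzinj : Function.Injective z := by
        intro a b hab
        by_contra hne
        rcases lt_or_gt_of_ne hne with h | h
        · have := hz a b h; rw [hab] at this; exact lt_irrefl _ this
        · have := hz b a h; rw [hab] at this; exact lt_irrefl _ this
      have hcF : F.card = w * (w - 1) / 2 := by
        rw [hF, card_image_of_injective, card_univ, card_lt_pairs]
        intro p q h
        have h1 := congrArg (fun e : Pr s U => e.1) h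
        simp only [Prod.mk.injEq] at h1
        exact Subtype.ext (Prod.ext (hzinj h1.1) (hzinj h1.2))
      have h5 := D.spread F
      rw [hcF] at h5
      have h7 : cnt (fun ω : Ω => ∀ (a b : Fin w), a < b →
        ∃ h' : (z a).1 < (z b).1, (⟨(z a, z b), h'⟩ : Pr s U) ∈ ng ω) ≤
        cnt (fun ω => F ⊆ ng ω) := by
        apply cnt_mono
        intro ω hω e he
        obtain ⟨p, -, rfl⟩ := mem_image.mp he
        obtain ⟨h', hm⟩ := hω p.1.1 p.1.2 p.2
        exact hm
      have h7' : (cnt (fun ω : Ω => ∀ (a b : Fin w), a < b →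
        ∃ h' : (z a).1 < (z b).1, (⟨(z a, z b), h'⟩ : Pr s U) ∈ ng ω) : ℝ) ≤
        cnt (fun ω => F ⊆ ng ω) := by exact_mod_cast h7
      refine h7'.trans ?_
      have h6 : (1 - 1 / (k : ℝ)) = ((k : ℝ) - 1) / k := by field_simp
      rw [h6, div_pow, div_mul_eq_mul_div, le_div_iff₀ (pow_pos hkpos _), mul_comm]
      exact h5
    · have h0 : cnt (fun ω : Ω => ∀ (a b : Fin w), a < b →
        ∃ h' : (z a).1 < (z b).1, (⟨(z a, z b), h'⟩ : Pr s U) ∈ ng ω) = 0 := by
        apply cnt_none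
        intro ω h
        exact hz (fun a b hab => (h a b hab).1)
      rw [h0]
      push_cast
      exact mul_nonneg (pow_nonneg hk0 _) (Nat.cast_nonneg _)
  refine (sum_le_sum (fun z _ => h4 z)).trans ?_
  rw [sum_const, card_univ, Fintype.card_fun, Fintype.card_prod, Fintype.card_fin, Fintype.card_fin,
    nsmul_eq_mul]
  push_cast
  rw [mul_assoc]

/-! ### The OR of the high bits -/

/-- The gates of the extended circuit. -/
def ext {Γ : Type} (S s n : ℕ) (f : ℕ → Γ → Prop) (out : ℕ → ℕ) (i : ℕ) (G : Γ) : Prop :=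
  if i < S then f i G else ∃ b, b + S < i ∧ b ≤ n ∧ s ≤ b ∧ f (out b) G

theorem ext_circ {Γ ι : Type} {x : ι → Γ → Prop} {S s n t : ℕ} {f : ℕ → Γ → Prop} {lev : ℕ → ℕ}
    {A : Finset ℕ} {inp : ℕ → Finset ℕ} (hC : Circ x S f lev A inp) (hlev : ∀ i < S, lev i ≤ t)
    (out : ℕ → ℕ) (hout : ∀ b, b ≤ n → out b < S) :
    Circ x (S + n + 2) (ext S s n f out) (fun i => if i < S then lev i else t)
      (A.filter (fun i => i < S)) inp := by
  classical
  refine ⟨fun i hi hneg => ?_, fun i hi hneg => ?_⟩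
  · by_cases hiS : i < S
    · have hneg' : i ∉ A := fun h => hneg (mem_filter.mpr ⟨h, hiS⟩)
      have hext : ∀ G, ext S s n f out i G ↔ f i G := fun G => by unfold ext; rw [if_pos hiS]
      rcases hC.gate i hiS hneg' with ⟨b, hb⟩ | ⟨e, he⟩ | ⟨j, hj, k, hk, hlj, hlk, h⟩
      · exact Or.inl ⟨b, fun G => (hext G).trans (hb G)⟩
      · exact Or.inr (Or.inl ⟨e, fun G => (hext G).trans (he G)⟩)
      · refine Or.inr (Or.inr ⟨j, hj, k, hk, ?_, ?_, ?_⟩)
        · simp only [if_pos hiS, if_pos (hj.trans hiS)]; exact hlj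
        · simp only [if_pos hiS, if_pos (hk.trans hiS)]; exact hlk
        · have hj' : ∀ G, ext S s n f out j G ↔ f j G := fun G => by
            unfold ext; rw [if_pos (hj.trans hiS)]
          have hk' : ∀ G, ext S s n f out k G ↔ f k G := fun G => by
            unfold ext; rw [if_pos (hk.trans hiS)]
          simp only [hext, hj', hk']
          exact h
    · push Not at hiS
      have hext : ∀ G, ext S s n f out i G ↔ ∃ b, b + S < i ∧ b ≤ n ∧ s ≤ b ∧ f (out b) G :=
        fun G => by unfold ext; rw [if_neg (by omega)]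
      rcases Nat.eq_or_lt_of_le hiS with h0 | h0
      · refine Or.inl ⟨False, fun G => ?_⟩
        rw [hext, iff_false]
        rintro ⟨b, hb, -⟩
        omega
      · right; right
        obtain ⟨j, rfl⟩ : ∃ j, i = S + j + 1 := ⟨i - S - 1, by omega⟩
        have hprev : ∀ G, ext S s n f out (S + j) G ↔
            ∃ b, b + S < S + j ∧ b ≤ n ∧ s ≤ b ∧ f (out b) G :=
          fun G => by unfold ext; rw [if_neg (by omega)]
        by_cases hj : j ≤ n ∧ s ≤ j
        · have hoj := hout j hj.1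
          refine ⟨S + j, by omega, out j, by omega, ?_, ?_, Or.inr fun G => ?_⟩
          · simp only [if_neg (show ¬ S + j < S by omega), if_neg (show ¬ S + j + 1 < S by omega)]
            exact le_refl _
          · simp only [if_pos hoj, if_neg (show ¬ S + j + 1 < S by omega)]
            exact hlev _ hoj
          · have ho : ext S s n f out (out j) G ↔ f (out j) G := by
              unfold ext; rw [if_pos hoj]
            rw [hext, hprev, ho]
            constructor
            · rintro ⟨b, hb, hbn, hsb, hf⟩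
              rcases Nat.lt_or_ge b j with h | h
              · exact Or.inl ⟨b, by omega, hbn, hsb, hf⟩
              · have : b = j := by omega
                rw [this] at hf
                exact Or.inr hf
            · rintro (⟨b, hb, hbn, hsb, hf⟩ | hf)
              · exact ⟨b, by omega, hbn, hsb, hf⟩
              · exact ⟨j, by omega, hj.1, hj.2, hf⟩
        · refine ⟨S + j, by omega, S + j, by omega, ?_, ?_, Or.inr fun G => ?_⟩
          · simp only [if_neg (show ¬ S + j < S by omega), if_neg (show ¬ S + j + 1 < S by omega)]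
            exact le_refl _
          · simp only [if_neg (show ¬ S + j < S by omega), if_neg (show ¬ S + j + 1 < S by omega)]
            exact le_refl _
          · rw [or_self, hext, hprev]
            constructor
            · rintro ⟨b, hb, hbn, hsb, hf⟩
              refine ⟨b, ?_, hbn, hsb, hf⟩
              by_contra hlt
              have : b = j := by omega
              subst this
              exact hj ⟨hbn, hsb⟩
            · rintro ⟨b, hb, hbn, hsb, hf⟩
              exact ⟨b, by omega, hbn, hsb, hf⟩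
  · obtain ⟨hn, hiS⟩ := mem_filter.mp hneg
    obtain ⟨h1, h2⟩ := hC.any i hiS hn
    refine ⟨fun j hj => ⟨(h1 j hj).1, ?_⟩, fun G G' hG => ?_⟩
    · simp only [if_pos hiS, if_pos ((h1 j hj).1.trans hiS)]
      exact (h1 j hj).2
    · unfold ext
      rw [if_pos hiS, if_pos hiS]
      apply h2
      intro j hj
      have h3 := hG j hj
      unfold ext at h3
      rw [if_pos ((h1 j hj).1.trans hiS), if_pos ((h1 j hj).1.trans hiS)] at h3
      exact h3

/-- From hard distributions to the number of cliques: the gates `out ω b`, `b ≤ n`, give the binary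
digits of the number of cliques. -/
theorem end_count {s k t S : ℕ} {r : ℕ → ℕ} {err : ℝ} {U Ω : Type} [Fintype U] [DecidableEq U]
    [Fintype Ω] [Nonempty Ω] {ng ps : Ω → Finset (Pr s U)} (hk : 1 ≤ k)
    (n : ℕ) (hn2 : 2 ≤ n) (D : HardDist s k t (S + n + 2) r err U Ω ng ps)
    (w₀ : ℕ) (hs : n ^ w₀ + 1 ≤ 2 ^ s) (hn : s * Fintype.card U ≤ n) (δ : ℝ)
    (Ω' : Type) [Fintype Ω'] (w : Ω' → ℝ) (f : Ω' → ℕ → SimpleGraph (Fin n) → Prop)
    (lev : Ω' → ℕ → ℕ) (A : Ω' → Finset ℕ) (inp : Ω' → ℕ → Finset ℕ) (out : Ω' → ℕ → ℕ)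
    (hw : ∀ ω, 0 ≤ w ω) (hw1 : ∑ ω, w ω = 1)
    (hC : ∀ ω, Circ (fun (e : Fin n × Fin n) (G : SimpleGraph (Fin n)) => G.Adj e.1 e.2) S
      (f ω) (lev ω) (A ω) (inp ω))
    (hlev : ∀ ω, ∀ i < S, lev ω i ≤ t)
    (hr : ∀ ω m, 1 ≤ m → (reads (lev ω) (A ω) (inp ω) m).card ≤ r m)
    (hout : ∀ ω b, b ≤ n → out ω b < S)
    (hsucc : ∀ G : SimpleGraph (Fin n), 1 / 2 + δ ≤
      ∑ ω, w ω * @ite ℝ (∀ b ≤ n, (f ω (out ω b) G ↔ (numCliques G).testBit b = true))
        (Classical.dec _) 1 0) :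
    2 * δ ≤ err + ((n : ℝ)) ^ w₀ * (1 - 1 / (k : ℝ)) ^ (w₀ * (w₀ - 1) / 2) := by
  classical
  obtain ⟨ω₀⟩ := (inferInstance : Nonempty Ω)
  obtain ⟨y₀, -⟩ := D.clique ω₀
  have hspos : 0 < s := by
    rcases Nat.eq_zero_or_pos s with h | h
    · rw [h, pow_zero] at hs
      have : 0 < n ^ w₀ := pow_pos (by omega) _
      omega
    · exact h
  have hcard : Fintype.card ((Fin s × U) ⊕ Fin 0) ≤ Fintype.card (Fin n) := by
    rw [Fintype.card_sum, Fintype.card_prod, Fintype.card_fin, Fintype.card_fin, Fintype.card_fin]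
    exact hn
  obtain ⟨φ⟩ := Function.Embedding.nonempty_of_card_le hcard
  have : Nonempty (Fin s × U) := ⟨(⟨0, hspos⟩, y₀ ⟨0, hspos⟩)⟩
  let H : Finset (Pr s U) → SimpleGraph (Fin n) := fun G => (gr 0 G).map φ
  have hN : (0 : ℝ) < Fintype.card Ω := by exact_mod_cast Fintype.card_pos
  set N : ℝ := (Fintype.card Ω : ℝ) with hNdef
  set Q : Ω → Prop := fun ω => ∃ z : Fin w₀ → Fin s × U, ∀ (a b : Fin w₀), a < b →
    ∃ h' : (z a).1 < (z b).1, (⟨(z a, z b), h'⟩ : Pr s U) ∈ ng ω with hQ
  set c0 : ℝ := (cnt Q : ℝ) with hc0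
  have hbig : ∀ (ω' : Ω') (G : SimpleGraph (Fin n)),
      (∀ b ≤ n, (f ω' (out ω' b) G ↔ (numCliques G).testBit b = true)) →
      (ext S s n (f ω') (out ω') (S + n + 1) G ↔ 2 ^ s ≤ numCliques G) := by
    intro ω' G h
    rw [ge_iff_bits]
    unfold ext
    rw [if_neg (by omega)]
    constructor
    · rintro ⟨b, -, hbn, hsb, hf⟩
      exact ⟨b, hbn, hsb, (h b hbn).mp hf⟩
    · rintro ⟨b, hbn, hsb, hf⟩
      exact ⟨b, by omega, hbn, hsb, (h b hbn).mpr hf⟩
  have hcirc : ∀ ω' : Ω', (∑ ω : Ω, (@ite ℝ (∀ b ≤ n, (f ω' (out ω' b) (H (ng ω)) ↔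
        (numCliques (H (ng ω))).testBit b = true)) (Classical.dec _) 1 0 +
      @ite ℝ (∀ b ≤ n, (f ω' (out ω' b) (H (ps ω)) ↔
        (numCliques (H (ps ω))).testBit b = true)) (Classical.dec _) 1 0)) ≤
      (1 + err) * N + c0 := by
    intro ω'
    have hCe := ext_circ (s := s) (n := n) (hC ω') (hlev ω') (out ω') (hout ω')
    have hh := D.hard (fun i G => ext S s n (f ω') (out ω') i (H G))
      (fun i => if i < S then lev ω' i else t) ((A ω').filter (fun i => i < S)) (inp ω') (S + n + 1)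
      (comp_circ φ hCe)
      (fun i _ => by
        by_cases hi : i < S
        · simp only [if_pos hi]; exact hlev ω' i hi
        · simp only [if_neg hi]; exact le_refl _)
      (fun m hm => by
        refine le_trans (card_le_card ?_) (hr ω' m hm)
        unfold reads
        apply biUnion_subset_biUnion_of_subset_left
        intro i hi
        rw [mem_filter, mem_filter] at hi
        obtain ⟨⟨hi1, hi2⟩, hi3⟩ := hi
        simp only [if_pos hi2] at hi3
        exact mem_filter.mpr ⟨hi1, hi3⟩)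
      (by omega)
    have e1 : (cnt (fun ω => ext S s n (f ω') (out ω') (S + n + 1) (H (ng ω))) : ℝ) +
        (cnt (fun ω => ¬ ext S s n (f ω') (out ω') (S + n + 1) (H (ng ω))) : ℝ) = N := by
      rw [hNdef]
      exact_mod_cast cnt_add_not (fun ω => ext S s n (f ω') (out ω') (S + n + 1) (H (ng ω)))
    have e2 : (cnt (fun ω => ext S s n (f ω') (out ω') (S + n + 1) (H (ps ω))) : ℝ) +
        (cnt (fun ω => ¬ ext S s n (f ω') (out ω') (S + n + 1) (H (ps ω))) : ℝ) = N := by
      rw [hNdef]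
      exact_mod_cast cnt_add_not (fun ω => ext S s n (f ω') (out ω') (S + n + 1) (H (ps ω)))
    have e3 : (∑ ω : Ω, (@ite ℝ (∀ b ≤ n, (f ω' (out ω' b) (H (ng ω)) ↔
        (numCliques (H (ng ω))).testBit b = true)) (Classical.dec _) 1 0)) ≤
        (cnt (fun ω => ¬ ext S s n (f ω') (out ω') (S + n + 1) (H (ng ω))) : ℝ) + c0 := by
      rw [hc0]
      unfold cnt
      rw [Finset.card_filter, Finset.card_filter]
      push_cast
      rw [← sum_add_distrib]
      apply sum_le_sum
      intro ω _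
      by_cases h1 : ext S s n (f ω') (out ω') (S + n + 1) (H (ng ω))
      · rw [if_neg (not_not.mpr h1)]
        by_cases h2 : Q ω
        · rw [if_pos h2]; split_ifs <;> norm_num
        · rw [if_neg h2, if_neg]
          · norm_num
          · intro hcor
            exact h2 (clique_part φ _ (few_cliques hn2 hs _ ((hbig ω' _ hcor).mp h1)))
      · rw [if_pos h1]
        split_ifs <;> norm_num
    have e4 : (∑ ω : Ω, (@ite ℝ (∀ b ≤ n, (f ω' (out ω' b) (H (ps ω)) ↔
        (numCliques (H (ps ω))).testBit b = true)) (Classical.dec _) 1 0)) ≤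
        (cnt (fun ω => ext S s n (f ω') (out ω') (S + n + 1) (H (ps ω))) : ℝ) := by
      unfold cnt
      rw [Finset.card_filter]
      push_cast
      apply sum_le_sum
      intro ω _
      by_cases h1 : ext S s n (f ω') (out ω') (S + n + 1) (H (ps ω))
      · rw [if_pos h1]; split_ifs <;> norm_num
      · rw [if_neg h1, if_neg]
        intro hcor
        exact h1 ((hbig ω' _ hcor).mpr (many_cliques φ _ (D.clique ω)))
    rw [sum_add_distrib]
    linarith
  have hG : ∀ ω : Ω, 1 + 2 * δ ≤ ∑ ω' : Ω', w ω' *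
      (@ite ℝ (∀ b ≤ n, (f ω' (out ω' b) (H (ng ω)) ↔
        (numCliques (H (ng ω))).testBit b = true)) (Classical.dec _) 1 0 +
      @ite ℝ (∀ b ≤ n, (f ω' (out ω' b) (H (ps ω)) ↔
        (numCliques (H (ps ω))).testBit b = true)) (Classical.dec _) 1 0) := by
    intro ω
    have a1 := hsucc (H (ng ω))
    have a2 := hsucc (H (ps ω))
    simp only [mul_add]
    rw [sum_add_distrib]
    linarith
  have htot : (1 + 2 * δ) * N ≤ (1 + err) * N + c0 := by
    have b1 : (1 + 2 * δ) * N = ∑ ω : Ω, (1 + 2 * δ) := by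
      rw [sum_const, card_univ, nsmul_eq_mul, mul_comm]
    rw [b1]
    refine (sum_le_sum (fun ω _ => hG ω)).trans ?_
    rw [sum_comm]
    have b2 : ∀ ω' : Ω', ∑ ω : Ω, w ω' *
        (@ite ℝ (∀ b ≤ n, (f ω' (out ω' b) (H (ng ω)) ↔
          (numCliques (H (ng ω))).testBit b = true)) (Classical.dec _) 1 0 +
        @ite ℝ (∀ b ≤ n, (f ω' (out ω' b) (H (ps ω)) ↔
          (numCliques (H (ps ω))).testBit b = true)) (Classical.dec _) 1 0) ≤
        w ω' * ((1 + err) * N + c0) := by
      intro ω'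
      rw [← mul_sum]
      exact mul_le_mul_of_nonneg_left (hcirc ω') (hw ω')
    refine (sum_le_sum (fun ω' _ => b2 ω')).trans (le_of_eq ?_)
    rw [← sum_mul, hw1, one_mul]
  have hc := ng_small hk D w₀
  rw [← hNdef] at hc
  have hkpos : (0 : ℝ) < k := by exact_mod_cast hk
  have hk0 : 0 ≤ 1 - 1 / (k : ℝ) := by
    have : 1 / (k : ℝ) ≤ 1 := by
      rw [div_le_one hkpos]; exact_mod_cast hk
    linarith
  have hc' : c0 ≤ (n : ℝ) ^ w₀ * (1 - 1 / (k : ℝ)) ^ (w₀ * (w₀ - 1) / 2) * N := by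
    refine hc.trans ?_
    apply mul_le_mul_of_nonneg_right _ hN.le
    apply mul_le_mul_of_nonneg_right _ (pow_nonneg hk0 _)
    apply pow_le_pow_left₀ (Nat.cast_nonneg _)
    exact_mod_cast hn
  have hfin : (2 * δ) * N ≤
      (err + (n : ℝ) ^ w₀ * (1 - 1 / (k : ℝ)) ^ (w₀ * (w₀ - 1) / 2)) * N := by
    nlinarith
  exact le_of_mul_le_mul_right hfin hN

end Pool.Agent.Helper14.NegCount
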