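import Pool.Agent.Helper71.Neg.Defs

/-! The end of the argument: from hard distributions to the clique function. -/

set_option autoImplicit false

namespace Pool.Agent.Helper14.NegEnd

open Finset Pool.Agent.Helper71.Neg

/-! ### The graph of a set of pairs, with `c` additional universal vertices -/

/-- Adjacency. -/
def R {s c : ℕ} {U : Type} (G : Finset (Pr s U)) : (Fin s × U) ⊕ Fin c → (Fin s × U) ⊕ Fin c → Prop
  | .inl p, .inl q => (∃ h : p.1 < q.1, (⟨(p, q), h⟩ : Pr s U) ∈ G) ∨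
      ∃ h : q.1 < p.1, (⟨(q, p), h⟩ : Pr s U) ∈ G
  | .inl _, .inr _ => True
  | .inr _, .inl _ => True
  | .inr i, .inr j => i ≠ j

/-- The graph. -/
def gr {s : ℕ} (c : ℕ) {U : Type} (G : Finset (Pr s U)) : SimpleGraph ((Fin s × U) ⊕ Fin c) where
  Adj := R G
  symm := ⟨by
    rintro (p | i) (q | j) h
    · exact h.symm
    · trivial
    · trivial
    · exact fun e => h e.symm⟩
  loopless := ⟨by
    rintro (p | i) h
    · rcases h with ⟨h, -⟩ | ⟨h, -⟩ <;> exact lt_irrefl _ h
    · exact h rfl⟩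

theorem clique_iff {s c : ℕ} {U : Type} [DecidableEq U] (G : Finset (Pr s U)) :
    ¬ (gr c G).CliqueFree (s + c) ↔
      ∃ y : Fin s → U, ∀ (a b : Fin s) (h : a < b), (⟨((a, y a), (b, y b)), h⟩ : Pr s U) ∈ G := by
  classical
  constructor
  · intro h
    unfold SimpleGraph.CliqueFree at h
    push Not at h
    obtain ⟨t, ht⟩ := h
    rw [SimpleGraph.isNClique_iff] at ht
    obtain ⟨hcl, hcard⟩ := ht
    have h1 : t.toLeft.card + t.toRight.card = s + c := by
      rw [← hcard]; exact Finset.card_toLeft_add_card_toRight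
    have h2 : t.toRight.card ≤ c := by
      have := card_le_univ t.toRight
      simpa using this
    have h3 : s ≤ t.toLeft.card := by omega
    have hinj : Set.InjOn (fun p : Fin s × U => p.1) (t.toLeft : Set (Fin s × U)) := by
      intro p hp q hq hpq
      by_contra hne
      rw [mem_coe, mem_toLeft] at hp hq
      have hadj : (gr c G).Adj (.inl p) (.inl q) := hcl (mem_coe.mpr hp) (mem_coe.mpr hq)
        (fun h => hne (Sum.inl_injective h))
      simp only at hpq
      rcases hadj with ⟨h, -⟩ | ⟨h, -⟩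
      · exact absurd hpq (ne_of_lt h)
      · exact absurd hpq.symm (ne_of_lt h)
    have himg : t.toLeft.image (fun p => p.1) = univ := by
      apply eq_univ_of_card
      rw [card_image_of_injOn hinj, Fintype.card_fin]
      apply le_antisymm _ h3
      have := card_le_univ (t.toLeft.image (fun p => p.1))
      rw [card_image_of_injOn hinj] at this
      simpa using this
    have hex : ∀ a : Fin s, ∃ u : U, Sum.inl (a, u) ∈ t := by
      intro a
      have : a ∈ t.toLeft.image (fun p => p.1) := by rw [himg]; exact mem_univ a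
      obtain ⟨p, hp, rfl⟩ := mem_image.mp this
      exact ⟨p.2, mem_toLeft.mp hp⟩
    choose y hy using hex
    refine ⟨y, fun a b hab => ?_⟩
    have hadj : (gr c G).Adj (.inl (a, y a)) (.inl (b, y b)) :=
      hcl (mem_coe.mpr (hy a)) (mem_coe.mpr (hy b)) (fun h => by
        have := Sum.inl_injective h
        exact absurd (congrArg Prod.fst this) (ne_of_lt hab))
    rcases hadj with ⟨h, hG⟩ | ⟨h, -⟩
    · exact hG
    · exact absurd h (not_lt.mpr hab.le)
  · rintro ⟨y, hy⟩ hfree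
    let ψ : Fin s ⊕ Fin c → (Fin s × U) ⊕ Fin c := Sum.map (fun a => (a, y a)) id
    have hψ : Function.Injective ψ :=
      Function.Injective.sumMap (fun a b h => congrArg Prod.fst h) Function.injective_id
    apply hfree (univ.image ψ)
    rw [SimpleGraph.isNClique_iff]
    constructor
    · intro u hu v hv huv
      rw [mem_coe, mem_image] at hu hv
      obtain ⟨a, -, rfl⟩ := hu
      obtain ⟨b, -, rfl⟩ := hv
      rcases a with a | a <;> rcases b with b | b
      · have hab : a ≠ b := fun h => huv (by rw [h])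
        rcases lt_or_gt_of_ne hab with h | h
        · exact Or.inl ⟨h, hy a b h⟩
        · exact Or.inr ⟨h, hy b a h⟩
      · trivial
      · trivial
      · intro h
        have h' : a = b := h
        exact huv (by rw [h'])
    · rw [card_image_of_injective _ hψ, card_univ, Fintype.card_sum, Fintype.card_fin,
        Fintype.card_fin]

/-! ### Composition of circuits -/

theorem comp_circ {s n c S : ℕ} {U : Type} [Fintype U] [DecidableEq U]
    (φ : (Fin s × U) ⊕ Fin c ↪ Fin n) {f : ℕ → SimpleGraph (Fin n) → Prop} {lev : ℕ → ℕ}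
    {A : Finset ℕ} {inp : ℕ → Finset ℕ}
    (hC : Circ (fun (e : Fin n × Fin n) (G : SimpleGraph (Fin n)) => G.Adj e.1 e.2) S f lev A inp) :
    Circ (mem (E := Pr s U)) S (fun i G => f i ((gr c G).map φ)) lev A inp := by
  classical
  refine ⟨fun i hi hneg => ?_, fun i hi hneg => ?_⟩
  · rcases hC.gate i hi hneg with ⟨b, hb⟩ | ⟨e, he⟩ | ⟨j, hj, k, hk, hlj, hlk, h⟩
    · exact Or.inl ⟨b, fun G => hb _⟩
    · -- an input
      have key : ∀ u v : Fin n, (∃ b : Prop, ∀ G : Finset (Pr s U), ((gr c G).map φ).Adj u v ↔ b) ∨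
          ∃ p : Pr s U, ∀ G : Finset (Pr s U), ((gr c G).map φ).Adj u v ↔ p ∈ G := by
        intro u v
        by_cases hu : ∃ a, φ a = u
        swap
        · left
          refine ⟨False, fun G => ?_⟩
          rw [SimpleGraph.map_adj, iff_false]
          rintro ⟨a, b, -, ha, -⟩
          exact hu ⟨a, ha⟩
        by_cases hv : ∃ a, φ a = v
        swap
        · left
          refine ⟨False, fun G => ?_⟩
          rw [SimpleGraph.map_adj, iff_false]
          rintro ⟨a, b, -, -, hb⟩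
          exact hv ⟨b, hb⟩
        obtain ⟨a, rfl⟩ := hu
        obtain ⟨b, rfl⟩ := hv
        have hadj : ∀ G : Finset (Pr s U), ((gr c G).map φ).Adj (φ a) (φ b) ↔ R G a b := by
          intro G
          rw [SimpleGraph.map_adj_apply]
          rfl
        simp only [hadj]
        rcases a with p | i <;> rcases b with q | j
        · rcases lt_trichotomy p.1 q.1 with h | h | h
          · right
            refine ⟨⟨(p, q), h⟩, fun G => ?_⟩
            constructor
            · rintro (⟨_, hG⟩ | ⟨h', -⟩)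
              · exact hG
              · exact absurd h' (not_lt.mpr h.le)
            · intro hG; exact Or.inl ⟨h, hG⟩
          · left
            refine ⟨False, fun G => ?_⟩
            rw [iff_false]
            rintro (⟨h', -⟩ | ⟨h', -⟩)
            · exact absurd h (ne_of_lt h')
            · exact absurd h.symm (ne_of_lt h')
          · right
            refine ⟨⟨(q, p), h⟩, fun G => ?_⟩
            constructor
            · rintro (⟨h', -⟩ | ⟨_, hG⟩)
              · exact absurd h' (not_lt.mpr h.le)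
              · exact hG
            · intro hG; exact Or.inr ⟨h, hG⟩
        · left; exact ⟨True, fun G => Iff.rfl⟩
        · left; exact ⟨True, fun G => Iff.rfl⟩
        · left; exact ⟨i ≠ j, fun G => Iff.rfl⟩
      rcases key e.1 e.2 with ⟨b, hb⟩ | ⟨p, hp⟩
      · exact Or.inl ⟨b, fun G => (he _).trans (hb G)⟩
      · exact Or.inr (Or.inl ⟨p, fun G => (he _).trans (hp G)⟩)
    · refine Or.inr (Or.inr ⟨j, hj, k, hk, hlj, hlk, ?_⟩)
      rcases h with h | h
      · exact Or.inl (fun G => h _)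
      · exact Or.inr (fun G => h _)
  · obtain ⟨h1, h2⟩ := hC.any i hi hneg
    exact ⟨h1, fun G G' hG => h2 _ _ hG⟩

/-! ### Counting -/

open Classical in
theorem cnt_add_not {Ω : Type} [Fintype Ω] (P : Ω → Prop) :
    cnt P + cnt (fun ω => ¬ P ω) = Fintype.card Ω := by
  unfold cnt
  rw [← Finset.card_univ]
  convert Finset.card_filter_add_card_filter_not (s := (univ : Finset Ω)) P

open Classical in
theorem cnt_le_sum {Ω Y : Type} [Fintype Ω] [Fintype Y] (P : Y → Ω → Prop) (Q : Ω → Prop)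
    (hQ : ∀ ω, Q ω → ∃ y, P y ω) : cnt Q ≤ ∑ y, cnt (P y) := by
  unfold cnt
  refine le_trans (card_le_card ?_)
    (card_biUnion_le (s := (univ : Finset Y)) (t := fun y => univ.filter (P y)))
  intro ω hω
  obtain ⟨y, hy⟩ := hQ ω (mem_filter.mp hω).2
  exact mem_biUnion.mpr ⟨y, mem_univ _, mem_filter.mpr ⟨mem_univ _, hy⟩⟩

theorem cnt_exists_le {Ω Y : Type} [Fintype Ω] [Fintype Y] (P : Y → Ω → Prop) :
    cnt (fun ω => ∃ y, P y ω) ≤ ∑ y, cnt (P y) :=
  cnt_le_sum P _ (fun _ h => h)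

/-- The pairs of a transversal. -/
def tr {s : ℕ} {U : Type} [DecidableEq U] (y : Fin s → U) : Finset (Pr s U) :=
  (univ : Finset {p : Fin s × Fin s // p.1 < p.2}).image
    (fun p => ⟨((p.1.1, y p.1.1), (p.1.2, y p.1.2)), p.2⟩)

theorem card_tr {s : ℕ} {U : Type} [DecidableEq U] (y : Fin s → U) :
    (tr y).card = s * (s - 1) / 2 := by
  classical
  unfold tr
  rw [card_image_of_injective, card_univ]
  · have h1 : Fintype.card {p : Fin s × Fin s // p.1 < p.2} = ∑ i ∈ range s, i := by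
      rw [Fintype.card_subtype, Finset.card_filter, Fintype.sum_prod_type_right, Finset.sum_range]
      apply sum_congr rfl
      intro b _
      rw [← Finset.card_filter]
      have h2 : univ.filter (fun a : Fin s => a < b) = Finset.Iio b := by
        ext a; simp
      simp only [h2, Fin.card_Iio]
    rw [h1, Finset.sum_range_id]
  · intro p q h
    have h1 := congrArg (fun e : Pr s U => (e.1.1.1, e.1.2.1)) h
    exact Subtype.ext h1

theorem ng_clique {s k t S : ℕ} {r : ℕ → ℕ} {err : ℝ} {U Ω : Type} [Fintype U] [DecidableEq U]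
    [Fintype Ω] {ng ps : Ω → Finset (Pr s U)} (hk : 1 ≤ k)
    (D : HardDist s k t S r err U Ω ng ps) :
    (cnt (fun ω => ∃ y : Fin s → U, ∀ (a b : Fin s) (h : a < b),
      (⟨((a, y a), (b, y b)), h⟩ : Pr s U) ∈ ng ω) : ℝ) ≤
    (Fintype.card U : ℝ) ^ s * (1 - 1 / (k : ℝ)) ^ (s * (s - 1) / 2) * Fintype.card Ω := by
  classical
  have hkpos : (0 : ℝ) < k := by exact_mod_cast hk
  have h1 : (cnt (fun ω => ∃ y : Fin s → U, ∀ (a b : Fin s) (h : a < b),
      (⟨((a, y a), (b, y b)), h⟩ : Pr s U) ∈ ng ω) : ℝ) ≤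
      ∑ y : Fin s → U, (cnt (fun ω => tr y ⊆ ng ω) : ℝ) := by
    have h2 := cnt_exists_le (fun (y : Fin s → U) (ω : Ω) => tr y ⊆ ng ω)
    have h3 : (fun ω => ∃ y : Fin s → U, ∀ (a b : Fin s) (h : a < b),
        (⟨((a, y a), (b, y b)), h⟩ : Pr s U) ∈ ng ω) = (fun ω => ∃ y, tr y ⊆ ng ω) := by
      funext ω
      apply propext
      constructor
      · rintro ⟨y, hy⟩
        refine ⟨y, fun e he => ?_⟩
        obtain ⟨p, -, rfl⟩ := mem_image.mp he
        exact hy _ _ p.2
      · rintro ⟨y, hy⟩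
        refine ⟨y, fun a b h => hy (mem_image.mpr ⟨⟨(a, b), h⟩, mem_univ _, rfl⟩)⟩
    rw [h3]
    exact_mod_cast h2
  refine h1.trans ?_
  have h4 : ∀ y : Fin s → U, (cnt (fun ω => tr y ⊆ ng ω) : ℝ) ≤
      (1 - 1 / (k : ℝ)) ^ (s * (s - 1) / 2) * Fintype.card Ω := by
    intro y
    have h5 := D.spread (tr y)
    rw [card_tr] at h5
    have h6 : (1 - 1 / (k : ℝ)) = ((k : ℝ) - 1) / k := by field_simp
    rw [h6, div_pow, div_mul_eq_mul_div, le_div_iff₀ (pow_pos hkpos _), mul_comm]
    exact h5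
  refine (sum_le_sum (fun y _ => h4 y)).trans ?_
  rw [sum_const, card_univ, Fintype.card_fun, Fintype.card_fin, nsmul_eq_mul]
  push_cast
  rw [mul_assoc]

/-- From hard distributions to the clique function. -/
theorem end_clique {s k t S : ℕ} {r : ℕ → ℕ} {err : ℝ} {U Ω : Type} [Fintype U] [DecidableEq U]
    [Fintype Ω] [Nonempty Ω] {ng ps : Ω → Finset (Pr s U)} (hk : 1 ≤ k) (hs2 : 2 ≤ s)
    (D : HardDist s k t S r err U Ω ng ps)
    (n K : ℕ) (hs : s ≤ K) (hn : s * Fintype.card U + (K - s) ≤ n) (δ : ℝ)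
    (Ω' : Type) [Fintype Ω'] (w : Ω' → ℝ) (f : Ω' → ℕ → SimpleGraph (Fin n) → Prop)
    (lev : Ω' → ℕ → ℕ) (A : Ω' → Finset ℕ) (inp : Ω' → ℕ → Finset ℕ) (out : Ω' → ℕ)
    (hw : ∀ ω, 0 ≤ w ω) (hw1 : ∑ ω, w ω = 1)
    (hC : ∀ ω, Circ (fun (e : Fin n × Fin n) (G : SimpleGraph (Fin n)) => G.Adj e.1 e.2) S
      (f ω) (lev ω) (A ω) (inp ω))
    (hlev : ∀ ω, ∀ i < S, lev ω i ≤ t)
    (hr : ∀ ω m, 1 ≤ m → (reads (lev ω) (A ω) (inp ω) m).card ≤ r m)
    (hout : ∀ ω, out ω < S)
    (hsucc : ∀ G : SimpleGraph (Fin n), 1 / 2 + δ ≤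
      ∑ ω, w ω * @ite ℝ (f ω (out ω) G ↔ ¬ G.CliqueFree K) (Classical.dec _) 1 0) :
    2 * δ ≤ err + (Fintype.card U : ℝ) ^ s * (1 - 1 / (k : ℝ)) ^ (s * (s - 1) / 2) := by
  classical
  -- an element of U
  obtain ⟨ω₀⟩ := (inferInstance : Nonempty Ω)
  obtain ⟨y₀, -⟩ := D.clique ω₀
  have hspos : 0 < s := by omega
  have hcard : Fintype.card ((Fin s × U) ⊕ Fin (K - s)) ≤ Fintype.card (Fin n) := by
    rw [Fintype.card_sum, Fintype.card_prod, Fintype.card_fin, Fintype.card_fin, Fintype.card_fin]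
    exact hn
  obtain ⟨φ⟩ := Function.Embedding.nonempty_of_card_le hcard
  have : Nonempty ((Fin s × U) ⊕ Fin (K - s)) := ⟨.inl (⟨0, hspos⟩, y₀ ⟨0, hspos⟩)⟩
  let H : Finset (Pr s U) → SimpleGraph (Fin n) := fun G => (gr (K - s) G).map φ
  have hH : ∀ G : Finset (Pr s U), ¬ (H G).CliqueFree K ↔
      ∃ y : Fin s → U, ∀ (a b : Fin s) (h : a < b),
        (⟨((a, y a), (b, y b)), h⟩ : Pr s U) ∈ G := by
    intro G
    rw [← clique_iff (c := K - s), show s + (K - s) = K by omega]
    rw [SimpleGraph.cliqueFree_map_iff]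
  -- success on `ps` and on `ng`
  have hN : (0 : ℝ) < Fintype.card Ω := by exact_mod_cast Fintype.card_pos
  set N : ℝ := (Fintype.card Ω : ℝ) with hNdef
  set c0 : ℝ := (cnt (fun ω => ∃ y : Fin s → U, ∀ (a b : Fin s) (h : a < b),
      (⟨((a, y a), (b, y b)), h⟩ : Pr s U) ∈ ng ω) : ℝ) with hc0
  -- for each circuit
  have hcirc : ∀ ω' : Ω', (∑ ω : Ω, (@ite ℝ (f ω' (out ω') (H (ng ω)) ↔ ¬ (H (ng ω)).CliqueFree K)
        (Classical.dec _) 1 0 +
      @ite ℝ (f ω' (out ω') (H (ps ω)) ↔ ¬ (H (ps ω)).CliqueFree K) (Classical.dec _) 1 0)) ≤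
      (1 + err) * N + c0 := by
    intro ω'
    have hh := D.hard (fun i G => f ω' i (H G)) (lev ω') (A ω') (inp ω') (out ω')
      (comp_circ φ (hC ω'))
      (hlev ω') (hr ω') (hout ω')
    have e1 : (cnt (fun ω => f ω' (out ω') (H (ng ω))) : ℝ) +
        (cnt (fun ω => ¬ f ω' (out ω') (H (ng ω))) : ℝ) = N := by
      rw [hNdef]
      exact_mod_cast cnt_add_not (fun ω => f ω' (out ω') (H (ng ω)))
    have e2 : (cnt (fun ω => f ω' (out ω') (H (ps ω))) : ℝ) +
        (cnt (fun ω => ¬ f ω' (out ω') (H (ps ω))) : ℝ) = N := by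
      rw [hNdef]
      exact_mod_cast cnt_add_not (fun ω => f ω' (out ω') (H (ps ω)))
    have e3 : (∑ ω : Ω, (@ite ℝ (f ω' (out ω') (H (ng ω)) ↔ ¬ (H (ng ω)).CliqueFree K)
        (Classical.dec _) 1 0)) ≤ (cnt (fun ω => ¬ f ω' (out ω') (H (ng ω))) : ℝ) + c0 := by
      rw [hc0]
      unfold cnt
      rw [Finset.card_filter, Finset.card_filter]
      push_cast
      rw [← sum_add_distrib]
      apply sum_le_sum
      intro ω _
      have := hH (ng ω)
      by_cases h1 : f ω' (out ω') (H (ng ω)) <;>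
      by_cases h2 : (∃ y : Fin s → U, ∀ (a b : Fin s) (h : a < b),
        (⟨((a, y a), (b, y b)), h⟩ : Pr s U) ∈ ng ω)
      · rw [if_pos h2]; split_ifs <;> norm_num
      · rw [if_neg h2, if_neg (by rw [this]; tauto), if_neg (by tauto)]; norm_num
      · rw [if_pos h2]; split_ifs <;> norm_num
      · rw [if_neg h2, if_pos h1]; split_ifs <;> norm_num
    have e4 : (∑ ω : Ω, (@ite ℝ (f ω' (out ω') (H (ps ω)) ↔ ¬ (H (ps ω)).CliqueFree K)
        (Classical.dec _) 1 0)) ≤ (cnt (fun ω => f ω' (out ω') (H (ps ω))) : ℝ) := by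
      unfold cnt
      rw [Finset.card_filter]
      push_cast
      apply sum_le_sum
      intro ω _
      have h3 := (hH (ps ω)).mpr (D.clique ω)
      by_cases h1 : f ω' (out ω') (H (ps ω))
      · rw [if_pos h1]; split_ifs <;> norm_num
      · rw [if_neg (by tauto), if_neg h1]
    rw [sum_add_distrib]
    linarith
  -- sum over the circuits
  have hG : ∀ ω : Ω, 1 + 2 * δ ≤ ∑ ω' : Ω', w ω' *
      (@ite ℝ (f ω' (out ω') (H (ng ω)) ↔ ¬ (H (ng ω)).CliqueFree K) (Classical.dec _) 1 0 +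
      @ite ℝ (f ω' (out ω') (H (ps ω)) ↔ ¬ (H (ps ω)).CliqueFree K) (Classical.dec _) 1 0) := by
    intro ω
    have a1 := hsucc (H (ng ω))
    have a2 := hsucc (H (ps ω))
    simp only [mul_add]
    rw [sum_add_distrib]
    linarith
  have htot : (1 + 2 * δ) * N ≤ (1 + err) * N + c0 := by
    have b1 : (1 + 2 * δ) * N = ∑ ω : Ω, (1 + 2 * δ) := by
      rw [sum_const, card_univ, nsmul_eq_mul, mul_comm]
    rw [b1]
    refine (sum_le_sum (fun ω _ => hG ω)).trans ?_
    rw [sum_comm]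
    have b2 : ∀ ω' : Ω', ∑ ω : Ω, w ω' *
        (@ite ℝ (f ω' (out ω') (H (ng ω)) ↔ ¬ (H (ng ω)).CliqueFree K) (Classical.dec _) 1 0 +
        @ite ℝ (f ω' (out ω') (H (ps ω)) ↔ ¬ (H (ps ω)).CliqueFree K) (Classical.dec _) 1 0) ≤
        w ω' * ((1 + err) * N + c0) := by
      intro ω'
      rw [← mul_sum]
      exact mul_le_mul_of_nonneg_left (hcirc ω') (hw ω')
    refine (sum_le_sum (fun ω' _ => b2 ω')).trans (le_of_eq ?_)
    rw [← sum_mul, hw1, one_mul]
  have hc := ng_clique hk D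
  rw [← hNdef] at hc
  have hfin : (2 * δ) * N ≤
      (err + (Fintype.card U : ℝ) ^ s * (1 - 1 / (k : ℝ)) ^ (s * (s - 1) / 2)) * N := by
    have : c0 ≤ (Fintype.card U : ℝ) ^ s * (1 - 1 / (k : ℝ)) ^ (s * (s - 1) / 2) * N := hc
    nlinarith
  exact le_of_mul_le_mul_right hfin hN

end Pool.Agent.Helper14.NegEnd
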