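import Mathlib

/-! Numerical lemma for the lower bound for circuits with few negations. -/

namespace Pool.Agent.Helper14.NegNum

theorem numeric (δ : ℝ) (hδ : 0 < δ) : ∃ K : ℕ, ∀ n s t w : ℕ, K * (t + 1) ≤ w →
    w ^ (7 * t + K) ≤ s → s * w ^ (9 * t + K) ≤ n → 100 ≤ w ∧ ∃ T b : ℕ, (w ^ 3) ^ T < s ∧
      2 * s * b ≤ n ∧ 2 * (1 - 1 / ((100 * (w : ℝ) ^ 4) ^ T)) ^ b ≤ δ ∧ (T : ℝ) / w ≤ δ ∧
      (16 / 15 : ℝ) ^ (t + 1) * (31 / 32 : ℝ) ^ T ≤ δ := by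
  obtain ⟨m, hm⟩ := exists_pow_lt_of_lt_one hδ (show (31 / 32 : ℝ) < 1 by norm_num)
  obtain ⟨L, hL⟩ : ∃ L : ℕ, 2 * Real.exp (-(L : ℝ)) ≤ δ := by
    obtain ⟨L, hL⟩ := exists_pow_lt_of_lt_one (half_pos hδ)
      (show Real.exp (-1) < 1 by rw [Real.exp_lt_one_iff]; norm_num)
    refine ⟨L, ?_⟩
    rw [← Real.exp_nat_mul] at hL
    have : (L : ℝ) * -1 = -(L : ℝ) := by ring
    rw [this] at hL
    linarith
  obtain ⟨K₀, hK₀⟩ := exists_nat_ge (((34 : ℝ) + m) / δ)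
  refine ⟨10 ^ 10 + 32 * L ^ 5 + 59 + 400 + 21 * m + K₀, fun n s t w h1 h2 h3 => ?_⟩
  set K := 10 ^ 10 + 32 * L ^ 5 + 59 + 400 + 21 * m + K₀ with hK
  have hKw : K ≤ w := le_trans (Nat.le_mul_of_pos_right K (Nat.succ_pos t)) h1
  have hw10 : 10 ^ 10 ≤ w := by
    refine le_trans ?_ hKw
    rw [hK]; omega
  have hw100 : 100 ≤ w := by
    refine le_trans ?_ hw10
    norm_num
  refine ⟨hw100, ?_⟩
  have hw1 : 1 < w := by omega
  have hw0 : 0 < w := by omega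
  let q := (t + 1) / 8 + 1
  let T := 17 * q + m
  have hq1 : t + 1 ≤ 8 * q := by
    simp only [q]; omega
  have hq2 : 8 * q ≤ t + 1 + 8 := by
    simp only [q]; omega
  have hTdef : T = 17 * q + m := rfl
  refine ⟨T, L * (100 * w ^ 4) ^ T, ?_, ?_, ?_, ?_, ?_⟩
  · refine lt_of_lt_of_le ?_ h2
    rw [← pow_mul]
    apply Nat.pow_lt_pow_right hw1
    omega
  · have hstep : 2 * L * (100 * w ^ 4) ^ T ≤ w ^ (9 * t + K) := by
      have h5 : (2 * L * (100 * w ^ 4) ^ T) ^ 5 ≤ (w ^ (9 * t + K)) ^ 5 := by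
        have e1 : (100 * w ^ 4) ^ 5 ≤ w ^ 21 := by
          calc (100 * w ^ 4) ^ 5 = 10 ^ 10 * w ^ 20 := by ring
            _ ≤ w * w ^ 20 := Nat.mul_le_mul_right _ hw10
            _ = w ^ 21 := by ring
        have e2 : 32 * L ^ 5 ≤ w := by
          refine le_trans ?_ hKw
          rw [hK]; omega
        calc (2 * L * (100 * w ^ 4) ^ T) ^ 5 = 32 * L ^ 5 * ((100 * w ^ 4) ^ 5) ^ T := by
              rw [mul_pow, mul_pow, ← pow_mul, ← pow_mul, mul_comm T 5]; norm_num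
          _ ≤ w * (w ^ 21) ^ T := Nat.mul_le_mul e2 (Nat.pow_le_pow_left e1 T)
          _ = w ^ (1 + 21 * T) := by rw [← pow_mul, pow_add, pow_one]
          _ ≤ w ^ ((9 * t + K) * 5) := Nat.pow_le_pow_right hw0 (by omega)
          _ = (w ^ (9 * t + K)) ^ 5 := by rw [pow_mul]
      exact le_of_pow_le_pow_left₀ (by norm_num) (Nat.zero_le _) h5
    calc 2 * s * (L * (100 * w ^ 4) ^ T) = s * (2 * L * (100 * w ^ 4) ^ T) := by ring
      _ ≤ s * w ^ (9 * t + K) := Nat.mul_le_mul_left _ hstep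
      _ ≤ n := h3
  · have hN1 : (1 : ℝ) ≤ (100 * (w : ℝ) ^ 4) ^ T := by
      apply one_le_pow₀
      have : (1 : ℝ) ≤ (w : ℝ) ^ 4 := one_le_pow₀ (by exact_mod_cast hw0)
      linarith
    have hNpos : (0 : ℝ) < (100 * (w : ℝ) ^ 4) ^ T := by linarith
    have h6 : (0 : ℝ) ≤ 1 - 1 / ((100 * (w : ℝ) ^ 4) ^ T) := by
      rw [sub_nonneg, div_le_one hNpos]; exact hN1
    have h7 : (1 - 1 / ((100 * (w : ℝ) ^ 4) ^ T)) ^ (L * (100 * w ^ 4) ^ T) ≤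
        Real.exp (-(L : ℝ)) := by
      calc (1 - 1 / ((100 * (w : ℝ) ^ 4) ^ T)) ^ (L * (100 * w ^ 4) ^ T)
          ≤ (Real.exp (-(1 / ((100 * (w : ℝ) ^ 4) ^ T)))) ^ (L * (100 * w ^ 4) ^ T) :=
            pow_le_pow_left₀ h6 (Real.one_sub_le_exp_neg _) _
        _ = Real.exp (-(L : ℝ)) := by
            rw [← Real.exp_nat_mul]
            congr 1
            push_cast
            field_simp
    linarith
  · have hwpos : (0 : ℝ) < w := by exact_mod_cast hw0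
    rw [div_le_iff₀ hwpos]
    have h8 : (T : ℝ) ≤ (34 + m) * (t + 1) := by
      have : T ≤ (34 + m) * (t + 1) := by
        have : 34 * (t + 1) + m ≤ (34 + m) * (t + 1) := by nlinarith
        omega
      exact_mod_cast this
    have h9 : ((34 : ℝ) + m) ≤ K₀ * δ := by rwa [div_le_iff₀ hδ] at hK₀
    have h10 : (K₀ : ℝ) * (t + 1) ≤ w := by
      have : K₀ * (t + 1) ≤ w := le_trans (Nat.mul_le_mul_right _ (by rw [hK]; omega)) h1
      exact_mod_cast this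
    have ht : (0 : ℝ) ≤ (t : ℝ) + 1 := by positivity
    calc (T : ℝ) ≤ (34 + m) * (t + 1) := h8
      _ ≤ K₀ * δ * (t + 1) := mul_le_mul_of_nonneg_right h9 ht
      _ = δ * (K₀ * (t + 1)) := by ring
      _ ≤ δ * w := mul_le_mul_of_nonneg_left h10 hδ.le
  · have h11 : (16 / 15 : ℝ) ^ (t + 1) ≤ (16 / 15 : ℝ) ^ (8 * q) :=
      pow_le_pow_right₀ (by norm_num) hq1
    have h12 : ((16 / 15 : ℝ) ^ 8 * (31 / 32 : ℝ) ^ 17) ^ q ≤ 1 := by
      apply pow_le_one₀ (by positivity)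
      norm_num
    calc (16 / 15 : ℝ) ^ (t + 1) * (31 / 32 : ℝ) ^ T
        ≤ (16 / 15 : ℝ) ^ (8 * q) * (31 / 32 : ℝ) ^ T :=
          mul_le_mul_of_nonneg_right h11 (by positivity)
      _ = ((16 / 15 : ℝ) ^ 8 * (31 / 32 : ℝ) ^ 17) ^ q * (31 / 32 : ℝ) ^ m := by
          rw [hTdef, pow_add, pow_mul, pow_mul, mul_pow]; ring
      _ ≤ 1 * (31 / 32 : ℝ) ^ m := mul_le_mul_of_nonneg_right h12 (by positivity)
      _ ≤ δ := by rw [one_mul]; exact hm.le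

/-- The version for the gap problem: `T` does not depend on `s`. -/
theorem numeric_gap (δ : ℝ) (hδ : 0 < δ) : ∃ K : ℕ, ∀ n s t w : ℕ, K * (t + 1) ≤ w →
    s * w ^ (9 * t + K) ≤ n → 100 ≤ w ∧ ∃ T b : ℕ, (w ^ 3) ^ T ≤ w ^ (7 * t + K) ∧
      2 * s * b ≤ n ∧ 2 * (1 - 1 / ((100 * (w : ℝ) ^ 4) ^ T)) ^ b ≤ δ ∧ (T : ℝ) / w ≤ δ ∧
      (16 / 15 : ℝ) ^ (t + 1) * (31 / 32 : ℝ) ^ T ≤ δ := by
  obtain ⟨m, hm⟩ := exists_pow_lt_of_lt_one hδ (show (31 / 32 : ℝ) < 1 by norm_num)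
  obtain ⟨L, hL⟩ : ∃ L : ℕ, 2 * Real.exp (-(L : ℝ)) ≤ δ := by
    obtain ⟨L, hL⟩ := exists_pow_lt_of_lt_one (half_pos hδ)
      (show Real.exp (-1) < 1 by rw [Real.exp_lt_one_iff]; norm_num)
    refine ⟨L, ?_⟩
    rw [← Real.exp_nat_mul] at hL
    have : (L : ℝ) * -1 = -(L : ℝ) := by ring
    rw [this] at hL
    linarith
  obtain ⟨K₀, hK₀⟩ := exists_nat_ge (((34 : ℝ) + m) / δ)
  refine ⟨10 ^ 10 + 32 * L ^ 5 + 59 + 400 + 21 * m + K₀, fun n s t w h1 h3 => ?_⟩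
  set K := 10 ^ 10 + 32 * L ^ 5 + 59 + 400 + 21 * m + K₀ with hK
  have hKw : K ≤ w := le_trans (Nat.le_mul_of_pos_right K (Nat.succ_pos t)) h1
  have hw10 : 10 ^ 10 ≤ w := by
    refine le_trans ?_ hKw
    rw [hK]; omega
  have hw100 : 100 ≤ w := by
    refine le_trans ?_ hw10
    norm_num
  refine ⟨hw100, ?_⟩
  have hw1 : 1 < w := by omega
  have hw0 : 0 < w := by omega
  let q := (t + 1) / 8 + 1
  let T := 17 * q + m
  have hq1 : t + 1 ≤ 8 * q := by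
    simp only [q]; omega
  have hq2 : 8 * q ≤ t + 1 + 8 := by
    simp only [q]; omega
  have hTdef : T = 17 * q + m := rfl
  refine ⟨T, L * (100 * w ^ 4) ^ T, ?_, ?_, ?_, ?_, ?_⟩
  · rw [← pow_mul]
    apply Nat.pow_le_pow_right hw0
    omega
  · have hstep : 2 * L * (100 * w ^ 4) ^ T ≤ w ^ (9 * t + K) := by
      have h5 : (2 * L * (100 * w ^ 4) ^ T) ^ 5 ≤ (w ^ (9 * t + K)) ^ 5 := by
        have e1 : (100 * w ^ 4) ^ 5 ≤ w ^ 21 := by
          calc (100 * w ^ 4) ^ 5 = 10 ^ 10 * w ^ 20 := by ring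
            _ ≤ w * w ^ 20 := Nat.mul_le_mul_right _ hw10
            _ = w ^ 21 := by ring
        have e2 : 32 * L ^ 5 ≤ w := by
          refine le_trans ?_ hKw
          rw [hK]; omega
        calc (2 * L * (100 * w ^ 4) ^ T) ^ 5 = 32 * L ^ 5 * ((100 * w ^ 4) ^ 5) ^ T := by
              rw [mul_pow, mul_pow, ← pow_mul, ← pow_mul, mul_comm T 5]; norm_num
          _ ≤ w * (w ^ 21) ^ T := Nat.mul_le_mul e2 (Nat.pow_le_pow_left e1 T)
          _ = w ^ (1 + 21 * T) := by rw [← pow_mul, pow_add, pow_one]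
          _ ≤ w ^ ((9 * t + K) * 5) := Nat.pow_le_pow_right hw0 (by omega)
          _ = (w ^ (9 * t + K)) ^ 5 := by rw [pow_mul]
      exact le_of_pow_le_pow_left₀ (by norm_num) (Nat.zero_le _) h5
    calc 2 * s * (L * (100 * w ^ 4) ^ T) = s * (2 * L * (100 * w ^ 4) ^ T) := by ring
      _ ≤ s * w ^ (9 * t + K) := Nat.mul_le_mul_left _ hstep
      _ ≤ n := h3
  · have hN1 : (1 : ℝ) ≤ (100 * (w : ℝ) ^ 4) ^ T := by
      apply one_le_pow₀
      have : (1 : ℝ) ≤ (w : ℝ) ^ 4 := one_le_pow₀ (by exact_mod_cast hw0)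
      linarith
    have hNpos : (0 : ℝ) < (100 * (w : ℝ) ^ 4) ^ T := by linarith
    have h6 : (0 : ℝ) ≤ 1 - 1 / ((100 * (w : ℝ) ^ 4) ^ T) := by
      rw [sub_nonneg, div_le_one hNpos]; exact hN1
    have h7 : (1 - 1 / ((100 * (w : ℝ) ^ 4) ^ T)) ^ (L * (100 * w ^ 4) ^ T) ≤
        Real.exp (-(L : ℝ)) := by
      calc (1 - 1 / ((100 * (w : ℝ) ^ 4) ^ T)) ^ (L * (100 * w ^ 4) ^ T)
          ≤ (Real.exp (-(1 / ((100 * (w : ℝ) ^ 4) ^ T)))) ^ (L * (100 * w ^ 4) ^ T) :=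
            pow_le_pow_left₀ h6 (Real.one_sub_le_exp_neg _) _
        _ = Real.exp (-(L : ℝ)) := by
            rw [← Real.exp_nat_mul]
            congr 1
            push_cast
            field_simp
    linarith
  · have hwpos : (0 : ℝ) < w := by exact_mod_cast hw0
    rw [div_le_iff₀ hwpos]
    have h8 : (T : ℝ) ≤ (34 + m) * (t + 1) := by
      have : T ≤ (34 + m) * (t + 1) := by
        have : 34 * (t + 1) + m ≤ (34 + m) * (t + 1) := by nlinarith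
        omega
      exact_mod_cast this
    have h9 : ((34 : ℝ) + m) ≤ K₀ * δ := by rwa [div_le_iff₀ hδ] at hK₀
    have h10 : (K₀ : ℝ) * (t + 1) ≤ w := by
      have : K₀ * (t + 1) ≤ w := le_trans (Nat.mul_le_mul_right _ (by rw [hK]; omega)) h1
      exact_mod_cast this
    have ht : (0 : ℝ) ≤ (t : ℝ) + 1 := by positivity
    calc (T : ℝ) ≤ (34 + m) * (t + 1) := h8
      _ ≤ K₀ * δ * (t + 1) := mul_le_mul_of_nonneg_right h9 ht
      _ = δ * (K₀ * (t + 1)) := by ring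
      _ ≤ δ * w := mul_le_mul_of_nonneg_left h10 hδ.le
  · have h11 : (16 / 15 : ℝ) ^ (t + 1) ≤ (16 / 15 : ℝ) ^ (8 * q) :=
      pow_le_pow_right₀ (by norm_num) hq1
    have h12 : ((16 / 15 : ℝ) ^ 8 * (31 / 32 : ℝ) ^ 17) ^ q ≤ 1 := by
      apply pow_le_one₀ (by positivity)
      norm_num
    calc (16 / 15 : ℝ) ^ (t + 1) * (31 / 32 : ℝ) ^ T
        ≤ (16 / 15 : ℝ) ^ (8 * q) * (31 / 32 : ℝ) ^ T :=
          mul_le_mul_of_nonneg_right h11 (by positivity)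
      _ = ((16 / 15 : ℝ) ^ 8 * (31 / 32 : ℝ) ^ 17) ^ q * (31 / 32 : ℝ) ^ m := by
          rw [hTdef, pow_add, pow_mul, pow_mul, mul_pow]; ring
      _ ≤ 1 * (31 / 32 : ℝ) ^ m := mul_le_mul_of_nonneg_right h12 (by positivity)
      _ ≤ δ := by rw [one_mul]; exact hm.le

end Pool.Agent.Helper14.NegNum
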