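import Pool.Agent.Helper14.SquareDefs

/-!
# Squares of `k`-degenerate graphs: basic facts and the reduction to designs
-/

set_option autoImplicit false

namespace Pool.Agent.Helper14.Square

open Classical

/-! ### Adjacency in the square -/

lemma square_adj {V : Type} (G : SimpleGraph V) {u v : V} :
    (square G).Adj u v ↔ u ≠ v ∧ (G.Adj u v ∨ ∃ w, G.Adj u w ∧ G.Adj v w) := by
  change (u ≠ v ∧ G.edist u v ≤ 2) ↔ _
  rw [← not_lt, SimpleGraph.two_lt_edist_iff]
  constructor
  · rintro ⟨huv, h⟩
    refine ⟨huv, ?_⟩
    by_contra hcon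
    rw [not_or] at hcon
    refine h ⟨huv, hcon.1, ?_⟩
    rw [Set.eq_empty_iff_forall_notMem]
    intro w hw
    exact hcon.2 ⟨w, (SimpleGraph.mem_commonNeighbors G).mp hw⟩
  · rintro ⟨huv, h⟩
    refine ⟨huv, ?_⟩
    rintro ⟨-, h1, h2⟩
    rcases h with h | ⟨w, hw⟩
    · exact h1 h
    · rw [Set.eq_empty_iff_forall_notMem] at h2
      exact h2 w ((SimpleGraph.mem_commonNeighbors G).mpr hw)

/-! ### Greedy colouring -/

lemma colorable_of_degree_le {V : Type} [Fintype V] (G : SimpleGraph V) (d : ℕ)
    (h : ∀ v, G.degree v ≤ d) : G.Colorable (d + 1) := by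
  have key : ∀ s : Finset V, ∃ c : V → Fin (d + 1), ∀ u ∈ s, ∀ v ∈ s, G.Adj u v → c u ≠ c v := by
    intro s
    induction s using Finset.induction_on with
    | empty => exact ⟨fun _ => 0, by simp⟩
    | insert a s ha ih =>
      obtain ⟨c, hc⟩ := ih
      have hlt : ((G.neighborFinset a).image c).card < (Finset.univ : Finset (Fin (d + 1))).card := by
        rw [Finset.card_univ, Fintype.card_fin]
        exact Nat.lt_succ_of_le (Finset.card_image_le.trans (h a))
      obtain ⟨x, -, hx⟩ := Finset.exists_mem_notMem_of_card_lt_card hlt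
      have hx' : ∀ u, G.Adj a u → c u ≠ x := by
        intro u hu hcu
        exact hx (Finset.mem_image.mpr ⟨u, (SimpleGraph.mem_neighborFinset _ _ _).mpr hu, hcu⟩)
      refine ⟨Function.update c a x, ?_⟩
      intro u hu v hv huv
      rw [Finset.mem_insert] at hu hv
      by_cases hua : u = a
      · subst hua
        have hvu : v ≠ u := huv.ne.symm
        rw [Function.update_self, Function.update_of_ne hvu]
        exact (hx' v huv).symm
      · by_cases hva : v = a
        · subst hva
          rw [Function.update_self, Function.update_of_ne hua]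
          exact hx' u huv.symm
        · rw [Function.update_of_ne hua, Function.update_of_ne hva]
          exact hc u (hu.resolve_left hua) v (hv.resolve_left hva) huv
  obtain ⟨c, hc⟩ := key Finset.univ
  exact ⟨SimpleGraph.Coloring.mk c (fun {u v} huv => hc u (Finset.mem_univ _) v (Finset.mem_univ _) huv)⟩

lemma square_colorable {V : Type} [Fintype V] (G : SimpleGraph V) (D : ℕ)
    (h : ∀ v, G.degree v ≤ D) : (square G).Colorable (D + D * D + 1) := by
  refine colorable_of_degree_le _ _ (fun v => ?_)
  rw [← SimpleGraph.card_neighborFinset_eq_degree]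
  have hsub : (square G).neighborFinset v ⊆
      G.neighborFinset v ∪ (G.neighborFinset v).biUnion (fun w => G.neighborFinset w) := by
    intro u hu
    rw [SimpleGraph.mem_neighborFinset, square_adj] at hu
    rw [Finset.mem_union, Finset.mem_biUnion, SimpleGraph.mem_neighborFinset]
    rcases hu.2 with h1 | ⟨w, hw1, hw2⟩
    · exact Or.inl h1
    · exact Or.inr ⟨w, (SimpleGraph.mem_neighborFinset _ _ _).mpr hw1,
        (SimpleGraph.mem_neighborFinset _ _ _).mpr hw2.symm⟩
  refine (Finset.card_le_card hsub).trans ((Finset.card_union_le _ _).trans ?_)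
  refine Nat.add_le_add (h v) (Finset.card_biUnion_le.trans ?_)
  refine (Finset.sum_le_card_nsmul _ _ D (fun w _ => h w)).trans ?_
  rw [smul_eq_mul]
  exact Nat.mul_le_mul_right D (h v)

lemma bddAbove_chromaticSet (k D : ℕ) : BddAbove (chromaticSet k D) := by
  refine ⟨D + D * D + 1, ?_⟩
  rintro χ ⟨V, hV, G, hD, -, hχ⟩
  have h1 := (square_colorable G D (fun v => by rw [← hD]; exact G.degree_le_maxDegree v)).chromaticNumber_le
  rw [hχ] at h1
  exact_mod_cast h1

/-- A graph gives a lower bound on `M_k(D)`. -/
lemma le_M_of_clique {k D : ℕ} {V : Type} [Fintype V] (G : SimpleGraph V) (hD : G.maxDegree = D)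
    (hk : Degenerate k G) (s : Finset V) (hs : (square G).IsClique s) : s.card ≤ M k D := by
  have hcol := square_colorable G D (fun v => by rw [← hD]; exact G.degree_le_maxDegree v)
  have hne : (square G).chromaticNumber ≠ ⊤ := by
    intro htop
    have := hcol.chromaticNumber_le
    rw [htop] at this
    exact absurd (top_le_iff.mp this) (ENat.natCast_ne_top _)
  obtain ⟨χ, hχ⟩ := ENat.ne_top_iff_exists.mp hne
  have hmem : χ ∈ chromaticSet k D := ⟨V, inferInstance, G, hD, hk, hχ.symm⟩
  refine le_trans ?_ (le_csSup (bddAbove_chromaticSet k D) hmem)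
  have h1 := hs.card_le_chromaticNumber
  rw [← hχ] at h1
  exact_mod_cast h1

end Pool.Agent.Helper14.Square
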