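import Pool.Agent.Helper14.SquareDesign

/-!
# The design of the internal points of a parabola
-/

set_option autoImplicit false

namespace Pool.Agent.Helper14.Square

open Classical

section conic

variable {F : Type} [Field F] [Fintype F]

/-- Number of non-squares among the values of a function, in terms of a character sum. -/
lemma two_mul_card_nonsquare {ι : Type} [Fintype ι] (g : ι → F) :
    2 * ((Finset.univ.filter (fun x => ¬ IsSquare (g x))).card : ℤ) ≤
      Fintype.card ι - ∑ x, quadraticChar F (g x) := by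
  have h : ∀ x, (if ¬ IsSquare (g x) then (2 : ℤ) else 0) ≤ 1 - quadraticChar F (g x) := by
    intro x
    by_cases hx : IsSquare (g x)
    · rw [if_neg (by simpa using hx)]
      by_cases h0 : g x = 0
      · rw [h0, quadraticChar_zero]; norm_num
      · rw [(quadraticChar_one_iff_isSquare h0).mpr hx]; norm_num
    · rw [if_pos hx, quadraticChar_neg_one_iff_not_isSquare.mpr hx]; norm_num
  have h2 : 2 * ((Finset.univ.filter (fun x => ¬ IsSquare (g x))).card : ℤ) =
      ∑ x, (if ¬ IsSquare (g x) then (2 : ℤ) else 0) := by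
    rw [← Finset.sum_filter, Finset.sum_const, nsmul_eq_mul]
    ring
  rw [h2]
  refine (Finset.sum_le_sum (fun x _ => h x)).trans (le_of_eq ?_)
  rw [Finset.sum_sub_distrib, Finset.sum_const, Finset.card_univ, nsmul_eq_mul, mul_one]

lemma two_ne_zero_of_odd (hF : Odd (Fintype.card F)) : (2 : F) ≠ 0 := by
  intro h2
  have h1 : ringChar F ∣ 2 := ringChar.dvd (by exact_mod_cast h2)
  have hp : ringChar F = 2 := by
    rcases (Nat.dvd_prime Nat.prime_two).mp h1 with h | h
    · exact absurd h (CharP.ringChar_ne_one)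
    · exact h
  obtain ⟨n, -, hn⟩ := FiniteField.card F (ringChar F)
  rw [hn, hp] at hF
  exact (Nat.not_odd_iff_even.mpr ((Nat.even_pow.mpr ⟨even_two, n.ne_zero⟩))) hF

lemma ringChar_ne_two (hF : Odd (Fintype.card F)) : ringChar F ≠ 2 := by
  intro h
  apply two_ne_zero_of_odd hF
  have : ((ringChar F : ℕ) : F) = 0 := ringChar.Nat.cast_ringChar
  rw [h] at this
  exact_mod_cast this

/-- Number of non-squares. -/
lemma card_nonsquare (hF : Odd (Fintype.card F)) :
    2 * (Finset.univ.filter (fun x : F => ¬ IsSquare x)).card = Fintype.card F - 1 := by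
  have hF' := ringChar_ne_two hF
  have h : ∀ x : F, (if ¬ IsSquare x then (2 : ℤ) else 0) =
      1 - quadraticChar F x - (if x = 0 then 1 else 0) := by
    intro x
    by_cases hx : IsSquare x
    · rw [if_neg (by simpa using hx)]
      by_cases h0 : x = 0
      · rw [h0, quadraticChar_zero]; simp
      · rw [(quadraticChar_one_iff_isSquare h0).mpr hx, if_neg h0]; norm_num
    · have h0 : x ≠ 0 := by
        rintro rfl
        exact hx (IsSquare.zero)
      rw [if_pos hx, quadraticChar_neg_one_iff_not_isSquare.mpr hx, if_neg h0]; norm_num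
  have h2 : 2 * ((Finset.univ.filter (fun x : F => ¬ IsSquare x)).card : ℤ) =
      ∑ x : F, (if ¬ IsSquare x then (2 : ℤ) else 0) := by
    rw [← Finset.sum_filter, Finset.sum_const, nsmul_eq_mul]
    ring
  rw [Finset.sum_congr rfl (fun x _ => h x), Finset.sum_sub_distrib, Finset.sum_sub_distrib,
    quadraticChar_sum_zero hF', Finset.sum_const, Finset.card_univ, nsmul_eq_mul, mul_one,
    Finset.sum_ite_eq' Finset.univ (0 : F), if_pos (Finset.mem_univ _)] at h2
  have h3 : 1 ≤ Fintype.card F := Fintype.card_pos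
  omega

/-- The character sum over a quadratic polynomial. -/
lemma sum_quadratic (hF : Odd (Fintype.card F)) (m b : F) :
    -1 ≤ ∑ x : F, quadraticChar F (x ^ 2 - (m * x + b)) := by
  have hF' := ringChar_ne_two hF
  have h20 := two_ne_zero_of_odd hF
  have h1 : ∑ x : F, (quadraticChar F (x ^ 2 - (m * x + b)) + 1) =
      ((Finset.univ.filter (fun p : F × F => p.2 ^ 2 = p.1 ^ 2 - (m * p.1 + b))).card : ℤ) := by
    have h2 : ∀ x : F, quadraticChar F (x ^ 2 - (m * x + b)) + 1 =
        ((Finset.univ.filter (fun z : F => z ^ 2 = x ^ 2 - (m * x + b))).card : ℤ) := by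
      intro x
      rw [← quadraticChar_card_sqrts hF']
      congr 2
      ext z
      simp
    rw [Finset.sum_congr rfl (fun x _ => h2 x), ← Nat.cast_sum]
    congr 1
    rw [← Finset.card_sigma]
    refine Finset.card_bij (fun a _ => (a.1, a.2)) ?_ ?_ ?_
    · rintro ⟨x, z⟩ h
      simpa using h
    · rintro ⟨x, z⟩ _ ⟨x', z'⟩ _ h
      simp only [Prod.mk.injEq] at h
      obtain ⟨rfl, rfl⟩ := h
      rfl
    · rintro ⟨x, z⟩ h
      exact ⟨⟨x, z⟩, by simpa using h, rfl⟩
  have h3 : (Fintype.card F : ℤ) - 1 ≤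
      ((Finset.univ.filter (fun p : F × F => p.2 ^ 2 = p.1 ^ 2 - (m * p.1 + b))).card : ℤ) := by
    have h4 : (Finset.univ.filter (fun u : F => u ≠ 0)).card ≤
        (Finset.univ.filter (fun p : F × F => p.2 ^ 2 = p.1 ^ 2 - (m * p.1 + b))).card := by
      refine Finset.card_le_card_of_injOn
        (fun u => (m / 2 + (u + (b + m ^ 2 / 4) / u) / 2, (u - (b + m ^ 2 / 4) / u) / 2)) ?_ ?_
      · intro u hu
        simp only [Finset.coe_filter, Finset.mem_univ, true_and, Set.mem_ofPred_eq] at hu ⊢
        have h40 : (4 : F) ≠ 0 := by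
          have : (4 : F) = 2 * 2 := by norm_num
          rw [this]; exact mul_ne_zero h20 h20
        field_simp
        ring
      · intro u hu v hv huv
        simp only [Prod.mk.injEq] at huv
        obtain ⟨ha, hb⟩ := huv
        have hc : (u + (b + m ^ 2 / 4) / u) / 2 + (u - (b + m ^ 2 / 4) / u) / 2 =
            (v + (b + m ^ 2 / 4) / v) / 2 + (v - (b + m ^ 2 / 4) / v) / 2 := by
          rw [hb, add_left_cancel ha]
        have hd : ∀ s t : F, (s + t) / 2 + (s - t) / 2 = s := by
          intro s t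
          field_simp
          ring
        rwa [hd, hd] at hc
    rw [Finset.filter_ne', Finset.card_erase_of_mem (Finset.mem_univ _), Finset.card_univ] at h4
    have h5 : 1 ≤ Fintype.card F := Fintype.card_pos
    omega
  rw [Finset.sum_add_distrib, Finset.sum_const, Finset.card_univ, nsmul_eq_mul, mul_one] at h1
  linarith

/-- The internal points of the parabola `y = x²`. -/
abbrev Pts (F : Type) [Field F] : Type := {P : F × F // ¬ IsSquare (P.1 ^ 2 - P.2)}

/-- The index of the line of direction `d` through a point. -/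
def lineIdx : Option F → F × F → F
  | none, P => P.1
  | some m, P => P.2 - m * P.1

lemma exists_line (P P' : F × F) : ∃ d : Option F, lineIdx d P = lineIdx d P' := by
  by_cases h : P.1 = P'.1
  · exact ⟨none, h⟩
  · refine ⟨some ((P.2 - P'.2) / (P.1 - P'.1)), ?_⟩
    have h' : P.1 - P'.1 ≠ 0 := sub_ne_zero.mpr h
    simp only [lineIdx]
    field_simp
    ring

lemma card_line (hF : Odd (Fintype.card F)) (d : Option F) (b : F) :
    (Finset.univ.filter (fun P : Pts F => lineIdx d P.1 = b)).card ≤ (Fintype.card F + 1) / 2 := by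
  rcases d with _ | m
  · have h1 : (Finset.univ.filter (fun P : Pts F => lineIdx none P.1 = b)).card ≤
        (Finset.univ.filter (fun x : F => ¬ IsSquare x)).card := by
      refine Finset.card_le_card_of_injOn (fun P => P.1.1 ^ 2 - P.1.2) ?_ ?_
      · intro P _
        simp only [Finset.coe_filter, Finset.mem_univ, true_and, Set.mem_ofPred_eq]
        exact P.2
      · rintro ⟨⟨x, y⟩, hP⟩ hP' ⟨⟨x', y'⟩, hQ⟩ hQ' h
        have h1 : x = b := (Finset.mem_filter.mp (Finset.mem_coe.mp hP')).2
        have h2 : x' = b := (Finset.mem_filter.mp (Finset.mem_coe.mp hQ')).2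
        have h3 : x ^ 2 - y = x' ^ 2 - y' := h
        subst h1
        subst h2
        have h4 : y = y' := by simpa using h3
        subst h4
        rfl
    have h2 := card_nonsquare hF
    omega
  · have h1 : (Finset.univ.filter (fun P : Pts F => lineIdx (some m) P.1 = b)).card ≤
        (Finset.univ.filter (fun x : F => ¬ IsSquare (x ^ 2 - (m * x + b)))).card := by
      refine Finset.card_le_card_of_injOn (fun P => P.1.1) ?_ ?_
      · rintro ⟨⟨x, y⟩, hP⟩ hP'
        have h1 : y - m * x = b := (Finset.mem_filter.mp (Finset.mem_coe.mp hP')).2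
        simp only [Finset.coe_filter, Finset.mem_univ, true_and, Set.mem_ofPred_eq]
        have : y = m * x + b := by rw [← h1]; ring
        rw [← this]
        exact hP
      · rintro ⟨⟨x, y⟩, hP⟩ hP' ⟨⟨x', y'⟩, hQ⟩ hQ' h
        have h1 : y - m * x = b := (Finset.mem_filter.mp (Finset.mem_coe.mp hP')).2
        have h2 : y' - m * x' = b := (Finset.mem_filter.mp (Finset.mem_coe.mp hQ')).2
        have h5 : x = x' := h
        subst h5
        have h3 : y = m * x + b := by rw [← h1]; ring
        have h4 : y' = m * x + b := by rw [← h2]; ring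
        have h6 : y = y' := by rw [h3, h4]
        subst h6
        rfl
    have h2 := two_mul_card_nonsquare (fun x : F => x ^ 2 - (m * x + b))
    have h3 := sum_quadratic hF m b
    have h4 : 2 * ((Finset.univ.filter (fun x : F => ¬ IsSquare (x ^ 2 - (m * x + b)))).card : ℤ) ≤
        Fintype.card F + 1 := by linarith
    omega

lemma card_pts (hF : Odd (Fintype.card F)) :
    2 * Fintype.card (Pts F) = Fintype.card F * (Fintype.card F - 1) := by
  have h1 : Fintype.card (Pts F) =
      Fintype.card F * (Finset.univ.filter (fun x : F => ¬ IsSquare x)).card := by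
    rw [← Fintype.card_subtype, ← Fintype.card_prod]
    refine Fintype.card_congr
      { toFun := fun P => (P.1.1, ⟨P.1.1 ^ 2 - P.1.2, P.2⟩)
        invFun := fun p => ⟨(p.1, p.1 ^ 2 - p.2.1), by simpa using p.2.2⟩
        left_inv := ?_
        right_inv := ?_ }
    · rintro ⟨⟨x, y⟩, hP⟩
      simp
    · rintro ⟨x, ⟨y, hy⟩⟩
      simp
  have h2 := card_nonsquare hF
  rw [h1, ← h2]
  ring

/-- The design: `(q+1)/2` directions give the hubs, the other ones the blocks. -/
theorem exists_design (hF : Odd (Fintype.card F)) :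
    ∃ (Hb Fb : Type) (_ : Fintype Hb) (_ : Fintype Fb),
      Nonempty (Design ((Fintype.card F + 1) / 2) ((Fintype.card F + 1) / 2) (Pts F) Hb Fb) := by
  set k := (Fintype.card F + 1) / 2 with hk
  have hcard : Fintype.card (Option F) = 2 * k := by
    rw [Fintype.card_option]
    obtain ⟨n, hn⟩ := hF
    omega
  obtain ⟨S, -, hS⟩ := Finset.exists_subset_card_eq
    (s := (Finset.univ : Finset (Option F))) (n := k) (by rw [Finset.card_univ, hcard]; omega)
  have hk1 : 1 ≤ k := by
    have : 1 ≤ Fintype.card F := Fintype.card_pos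
    omega
  -- labels of the points on a line
  have hlab : ∀ f : {d : Option F // d ∉ S} × F, ∃ g : Pts F → ℕ,
      (∀ P, lineIdx f.1.1 P.1 = f.2 → g P < k) ∧
      ∀ P P', lineIdx f.1.1 P.1 = f.2 → lineIdx f.1.1 P'.1 = f.2 → g P = g P' → P = P' := by
    intro f
    set s := Finset.univ.filter (fun P : Pts F => lineIdx f.1.1 P.1 = f.2) with hs
    have hsc : s.card ≤ k := card_line hF f.1.1 f.2
    refine ⟨fun P => if h : P ∈ s then (s.equivFin ⟨P, h⟩ : ℕ) else 0, ?_, ?_⟩
    · intro P hP
      have hPs : P ∈ s := by simp [hs, hP]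
      simp only [hPs, dif_pos]
      exact lt_of_lt_of_le (Fin.is_lt _) hsc
    · intro P P' hP hP' h
      have hPs : P ∈ s := by simp [hs, hP]
      have hPs' : P' ∈ s := by simp [hs, hP']
      simp only [hPs, hPs', dif_pos] at h
      have h2 := s.equivFin.injective (Fin.ext h)
      simpa using h2
  choose g hg1 hg2 using hlab
  refine ⟨{d : Option F // d ∈ S} × F, {d : Option F // d ∉ S} × F, inferInstance, inferInstance,
    ⟨{ hub := fun h P => lineIdx h.1.1 P.1 = h.2
       blk := fun f P => lineIdx f.1.1 P.1 = f.2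
       lab := g
       hub_card := ?_
       hub_exists := ?_
       card_hub := fun h => card_line hF h.1.1 h.2
       blk_card := ?_
       card_blk := fun f => card_line hF f.1.1 f.2
       lab_lt := hg1
       lab_inj := hg2
       cover := ?_ }⟩⟩
  · intro P
    have h1 : (Finset.univ.filter (fun h : {d : Option F // d ∈ S} × F =>
        lineIdx h.1.1 P.1 = h.2)).card ≤ (Finset.univ : Finset {d : Option F // d ∈ S}).card := by
      refine Finset.card_le_card_of_injOn (fun h => h.1) (fun _ _ => Finset.mem_coe.mpr (Finset.mem_univ _)) ?_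
      rintro ⟨d, b⟩ hd ⟨d', b'⟩ hd' h
      have h1 : lineIdx d.1 P.1 = b := (Finset.mem_filter.mp (Finset.mem_coe.mp hd)).2
      have h2 : lineIdx d'.1 P.1 = b' := (Finset.mem_filter.mp (Finset.mem_coe.mp hd')).2
      have h3 : d = d' := h
      subst h3
      rw [← h1, ← h2]
    refine h1.trans (le_of_eq ?_)
    rw [Finset.card_univ, Fintype.card_coe, hS]
  · intro P
    have hne : S.Nonempty := by
      rw [← Finset.card_pos, hS]; omega
    obtain ⟨d, hd⟩ := hne
    exact ⟨(⟨d, hd⟩, lineIdx d P.1), rfl⟩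
  · intro P
    have h1 : (Finset.univ.filter (fun h : {d : Option F // d ∉ S} × F =>
        lineIdx h.1.1 P.1 = h.2)).card ≤ (Finset.univ : Finset {d : Option F // d ∉ S}).card := by
      refine Finset.card_le_card_of_injOn (fun h => h.1) (fun _ _ => Finset.mem_coe.mpr (Finset.mem_univ _)) ?_
      rintro ⟨d, b⟩ hd ⟨d', b'⟩ hd' h
      have h1 : lineIdx d.1 P.1 = b := (Finset.mem_filter.mp (Finset.mem_coe.mp hd)).2
      have h2 : lineIdx d'.1 P.1 = b' := (Finset.mem_filter.mp (Finset.mem_coe.mp hd')).2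
      have h3 : d = d' := h
      subst h3
      rw [← h1, ← h2]
    refine h1.trans (le_of_eq ?_)
    rw [Finset.card_univ, Fintype.card_subtype_compl, Fintype.card_coe, hS, hcard]
    omega
  · intro P P' _
    obtain ⟨d, hd⟩ := exists_line P.1 P'.1
    by_cases hdS : d ∈ S
    · exact Or.inl ⟨(⟨d, hdS⟩, lineIdx d P.1), rfl, hd.symm⟩
    · exact Or.inr ⟨(⟨d, hdS⟩, lineIdx d P.1), rfl, hd.symm⟩

end conic

lemma Degenerate.mono {V : Type} {k k' : ℕ} (h : k ≤ k') {G : SimpleGraph V}
    (hG : Degenerate k G) : Degenerate k' G := by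
  intro H hH
  obtain ⟨v, hv, hle⟩ := hG H hH
  exact ⟨v, hv, hle.trans h⟩

lemma chromaticSet_mono {k k' : ℕ} (h : k ≤ k') (D : ℕ) :
    chromaticSet k D ⊆ chromaticSet k' D := by
  rintro χ ⟨V, hV, G, hD, hG, hχ⟩
  exact ⟨V, hV, G, hD, hG.mono h, hχ⟩

lemma M_mono {k k' : ℕ} (h : k ≤ k') (D : ℕ) : M k D ≤ M k' D := by
  unfold M
  by_cases hne : (chromaticSet k D).Nonempty
  · exact csSup_le_csSup (bddAbove_chromaticSet k' D) hne (chromaticSet_mono h D)
  · rw [Set.not_nonempty_iff_eq_empty.mp hne]
    simp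

/-- For every odd prime power `q ≤ 2k - 1`: `M_k(D) ≥ (q(q-1)/(q+1)) D - C`. -/
theorem conic_bound (k q : ℕ) (hq : IsPrimePow q) (hodd : Odd q) (hqk : q ≤ 2 * k - 1) :
    ∃ C : ℝ, ∀ D : ℕ, ((q : ℝ) * (q - 1) / (q + 1)) * D - C ≤ M k D := by
  obtain ⟨p, n, hp, hn, rfl⟩ := hq
  haveI : Fact p.Prime := ⟨hp.nat_prime⟩
  set q := p ^ n with hqdef
  set F := GaloisField p n with hFdef
  haveI : Fintype F := Fintype.ofFinite F
  have hcard : Fintype.card F = q := by
    rw [← Nat.card_eq_fintype_card, GaloisField.card p n hn.ne']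
  have hF : Odd (Fintype.card F) := by rw [hcard]; exact hodd
  obtain ⟨Hb, Fb, _, _, ⟨X⟩⟩ := exists_design (F := F) hF
  have hq1 : 1 ≤ q := hodd.pos
  have hk1 : 1 ≤ (Fintype.card F + 1) / 2 := by rw [hcard]; omega
  obtain ⟨C, hC⟩ := X.lower_bound hk1 hk1
  refine ⟨C, fun D => ?_⟩
  have h1 : (Fintype.card F + 1) / 2 ≤ k := by rw [hcard]; omega
  have h2 : ((M ((Fintype.card F + 1) / 2) D : ℕ) : ℝ) ≤ M k D := by exact_mod_cast M_mono h1 D
  refine le_trans (le_of_eq ?_) ((hC D).trans h2)
  congr 1
  congr 1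
  have h3 := card_pts hF
  rw [hcard] at h3 ⊢
  have h4 : 2 * ((q + 1) / 2) = q + 1 := by
    obtain ⟨m, hm⟩ := hodd
    omega
  have h3' : 2 * (Fintype.card (Pts F) : ℝ) = q * (q - 1) := by
    have : ((2 * Fintype.card (Pts F) : ℕ) : ℝ) = ((q * (q - 1) : ℕ) : ℝ) := by rw [h3]
    push_cast [Nat.cast_sub hq1] at this
    exact this
  have h4' : 2 * (((q + 1) / 2 : ℕ) : ℝ) = q + 1 := by
    have : ((2 * ((q + 1) / 2) : ℕ) : ℝ) = ((q + 1 : ℕ) : ℝ) := by rw [h4]
    push_cast at this
    exact_mod_cast this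
  have h5 : (0 : ℝ) < (((q + 1) / 2 : ℕ) : ℝ) := by
    have : (0 : ℝ) < (q : ℝ) + 1 := by positivity
    linarith
  rw [← h3', ← h4']
  field_simp

end Pool.Agent.Helper14.Square
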