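import Mathlib

/-!
# Squares of `k`-degenerate graphs: the definitions
-/

set_option autoImplicit false

namespace Pool.Agent.Helper14.Square

/-- The square `G²` of a graph: two distinct vertices are adjacent when their distance in `G` is
at most two. -/
def square {V : Type} (G : SimpleGraph V) : SimpleGraph V where
  Adj u v := u ≠ v ∧ G.edist u v ≤ 2
  symm := ⟨fun u v h => ⟨h.1.symm, by rw [SimpleGraph.edist_comm]; exact h.2⟩⟩
  loopless := ⟨fun u h => h.1 rfl⟩

/-- `G` is `k`-degenerate: every nonempty subgraph has a vertex of degree at most `k`. -/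
def Degenerate {V : Type} (k : ℕ) (G : SimpleGraph V) : Prop :=
  ∀ H : G.Subgraph, H.verts.Nonempty → ∃ v ∈ H.verts, (H.neighborSet v).ncard ≤ k

open Classical in
/-- The chromatic numbers of the squares of the finite `k`-degenerate graphs of maximum
degree `D`. -/
def chromaticSet (k D : ℕ) : Set ℕ :=
  {χ : ℕ | ∃ (V : Type) (_ : Fintype V) (G : SimpleGraph V),
    G.maxDegree = D ∧ Degenerate k G ∧ (square G).chromaticNumber = χ}

/-- `M_k(D) = max {χ(G²) : Δ(G) = D, G is k-degenerate}`. -/
noncomputable def M (k D : ℕ) : ℕ := sSup (chromaticSet k D)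

end Pool.Agent.Helper14.Square
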