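import Pool.Agent.Helper14.SquareBasic

/-!
# The graph of a design

From a finite set `T` of types, a family of hubs and a family of blocks, we build `k`-degenerate
graphs whose squares contain large cliques.
-/

set_option autoImplicit false

namespace Pool.Agent.Helper14.Square

open Classical

/-- A design: every type is in at least one and at most `k` hubs, hubs have at most `R` types,
every type is in at most `R` blocks, blocks have at most `k` types, which have distinct labels
in `{0, …, k-1}`, and two distinct types are in a common hub or in a common block. -/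
structure Design (k R : ℕ) (T Hb Fb : Type) [Fintype T] [Fintype Hb] [Fintype Fb] where
  hub : Hb → T → Prop
  blk : Fb → T → Prop
  lab : Fb → T → ℕ
  hub_card : ∀ t, (Finset.univ.filter (fun h => hub h t)).card ≤ k
  hub_exists : ∀ t, ∃ h, hub h t
  card_hub : ∀ h, (Finset.univ.filter (fun t => hub h t)).card ≤ R
  blk_card : ∀ t, (Finset.univ.filter (fun f => blk f t)).card ≤ R
  card_blk : ∀ f, (Finset.univ.filter (fun t => blk f t)).card ≤ k
  lab_lt : ∀ f t, blk f t → lab f t < k
  lab_inj : ∀ f t t', blk f t → blk f t' → lab f t = lab f t' → t = t'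
  cover : ∀ t t', t ≠ t' → (∃ h, hub h t ∧ hub h t') ∨ (∃ f, blk f t ∧ blk f t')

variable {k R : ℕ} {T Hb Fb : Type} [Fintype T] [Fintype Hb] [Fintype Fb]

/-- The vertices: hubs, clients `(t, i)`, children `(f, a, b)`, and a star with `D` leaves. -/
abbrev Vtx (T Hb Fb : Type) (w D : ℕ) : Type :=
  Hb ⊕ (T × ZMod w) ⊕ (Fb × ZMod w × ZMod w) ⊕ Option (Fin D)

namespace Design

variable (X : Design k R T Hb Fb) (w D : ℕ)

/-- `par u p`: the vertex `p` is a parent of the vertex `u`. -/
def par : Vtx T Hb Fb w D → Vtx T Hb Fb w D → Prop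
  | Sum.inr (Sum.inl (t, _)), Sum.inl h => X.hub h t
  | Sum.inr (Sum.inr (Sum.inl (f, a, b))), Sum.inr (Sum.inl (t, i)) =>
      X.blk f t ∧ i = a + (X.lab f t : ZMod w) * b
  | Sum.inr (Sum.inr (Sum.inr (some _))), Sum.inr (Sum.inr (Sum.inr none)) => True
  | _, _ => False

/-- The rank of a vertex. -/
def rk : Vtx T Hb Fb w D → ℕ
  | Sum.inl _ => 0
  | Sum.inr (Sum.inl _) => 1
  | Sum.inr (Sum.inr (Sum.inl _)) => 2
  | Sum.inr (Sum.inr (Sum.inr none)) => 0
  | Sum.inr (Sum.inr (Sum.inr (some _))) => 1

lemma rk_lt_of_par {u p : Vtx T Hb Fb w D} (h : X.par w D u p) : rk w D p < rk w D u := by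
  rcases u with h' | ⟨t, i⟩ | ⟨f, a, b⟩ | (_ | j) <;> rcases p with h'' | ⟨t', i'⟩ | ⟨f', a', b'⟩ | (_ | j')
  all_goals first
    | exact (h : False).elim
    | simp [rk]

/-- The graph of the design. -/
def graph : SimpleGraph (Vtx T Hb Fb w D) where
  Adj u v := X.par w D u v ∨ X.par w D v u
  symm := ⟨fun _ _ h => h.symm⟩
  loopless := ⟨fun u h => by
    rcases h with h | h <;> exact absurd (X.rk_lt_of_par w D h) (lt_irrefl _)⟩

variable [NeZero w]

/-- Every vertex has at most `k` parents. -/
lemma parents_card (hk : 1 ≤ k) (u : Vtx T Hb Fb w D) :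
    (Finset.univ.filter (fun p => X.par w D u p)).card ≤ k := by
  rcases u with h | ⟨t, i⟩ | ⟨f, a, b⟩ | (_ | j)
  · rw [Finset.card_eq_zero.mpr]
    · exact Nat.zero_le _
    · rw [Finset.filter_eq_empty_iff]
      intro p _ hp
      exact (by simpa [rk] using X.rk_lt_of_par w D hp)
  · refine le_trans ?_ (X.hub_card t)
    refine Finset.card_le_card_of_injOn
      (fun p => match p with | Sum.inl h => h | _ => (X.hub_exists t).choose) ?_ ?_
    · rintro (h | ⟨t', i'⟩ | ⟨f', a', b'⟩ | (_ | j')) hp
      all_goals simp only [Finset.coe_filter, Finset.mem_univ, true_and, Set.mem_ofPred_eq] at hp ⊢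
      all_goals first
        | exact hp
        | exact (hp : False).elim
    · rintro (h | ⟨t', i'⟩ | ⟨f', a', b'⟩ | (_ | j')) hp (h₂ | ⟨t₂, i₂⟩ | ⟨f₂, a₂, b₂⟩ | (_ | j₂)) hp₂ heq
      all_goals simp only [Finset.coe_filter, Finset.mem_univ, true_and, Set.mem_ofPred_eq] at hp hp₂
      all_goals first
        | exact (hp : False).elim
        | exact (hp₂ : False).elim
        | skip
      simp only at heq
      rw [heq]
  · refine le_trans ?_ (X.card_blk f)
    refine le_trans (Finset.card_le_card (t := (Finset.univ.filter (fun t => X.blk f t)).image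
      (fun t => (Sum.inr (Sum.inl (t, a + (X.lab f t : ZMod w) * b)) : Vtx T Hb Fb w D))) ?_)
      Finset.card_image_le
    rintro (h | ⟨t', i'⟩ | ⟨f', a', b'⟩ | (_ | j')) hp
    all_goals simp only [Finset.mem_filter, Finset.mem_univ, true_and] at hp
    all_goals first
      | exact (hp : False).elim
      | skip
    obtain ⟨hp1, hp2⟩ := hp
    simp only [Finset.mem_image, Finset.mem_filter, Finset.mem_univ, true_and]
    exact ⟨t', hp1, by rw [hp2]⟩
  · rw [Finset.card_eq_zero.mpr]
    · exact Nat.zero_le _
    · rw [Finset.filter_eq_empty_iff]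
      intro p _ hp
      exact (by simpa [rk] using X.rk_lt_of_par w D hp)
  · refine le_trans (Finset.card_le_card (t := {Sum.inr (Sum.inr (Sum.inr none))}) ?_)
      (by simpa using hk)
    rintro (h | ⟨t', i'⟩ | ⟨f', a', b'⟩ | (_ | j')) hp
    all_goals simp only [Finset.mem_filter, Finset.mem_univ, true_and] at hp
    all_goals first
      | exact (hp : False).elim
      | skip
    simp

lemma degenerate (hk : 1 ≤ k) : Degenerate k (X.graph w D) := by
  intro H hH
  obtain ⟨v, hv, hmax⟩ := Set.exists_max_image H.verts (rk w D) (Set.toFinite _) hH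
  refine ⟨v, hv, ?_⟩
  have hsub : H.neighborSet v ⊆ (Finset.univ.filter (fun p => X.par w D v p) : Finset _) := by
    intro u hu
    have hadj : (X.graph w D).Adj v u := H.adj_sub hu
    simp only [Finset.coe_filter, Finset.mem_univ, true_and, Set.mem_ofPred_eq]
    rcases hadj with h | h
    · exact h
    · have h1 := X.rk_lt_of_par w D h
      have h2 := hmax u (H.edge_vert (H.adj_symm hu))
      omega
  refine (Set.ncard_le_ncard hsub (Finset.finite_toSet _)).trans ?_
  rw [Set.ncard_coe_finset]
  exact X.parents_card w D hk v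

/-- The children of a vertex. -/
lemma card_neighborFinset_le (v : Vtx T Hb Fb w D) :
    (X.graph w D).degree v ≤ (Finset.univ.filter (fun p => X.par w D v p)).card +
      (Finset.univ.filter (fun u => X.par w D u v)).card := by
  rw [← SimpleGraph.card_neighborFinset_eq_degree]
  refine (Finset.card_le_card ?_).trans (Finset.card_union_le _ _)
  intro u hu
  rw [SimpleGraph.mem_neighborFinset] at hu
  simp only [Finset.mem_union, Finset.mem_filter, Finset.mem_univ, true_and]
  exact hu

lemma children_card_hub (h : Hb) :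
    (Finset.univ.filter (fun u => X.par w D u (Sum.inl h))).card ≤ R * w := by
  refine le_trans (Finset.card_le_card
    (t := ((Finset.univ.filter (fun t => X.hub h t)) ×ˢ (Finset.univ : Finset (ZMod w))).image
      (fun p => (Sum.inr (Sum.inl p) : Vtx T Hb Fb w D))) ?_) ?_
  · rintro (h' | ⟨t', i'⟩ | ⟨f', a', b'⟩ | (_ | j')) hp
    all_goals simp only [Finset.mem_filter, Finset.mem_univ, true_and] at hp
    all_goals first
      | exact (hp : False).elim
      | skip
    simp only [Finset.mem_image, Finset.mem_product, Finset.mem_filter, Finset.mem_univ, true_and,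
      and_true]
    exact ⟨(t', i'), hp, rfl⟩
  · refine Finset.card_image_le.trans ?_
    rw [Finset.card_product, Finset.card_univ, ZMod.card]
    exact Nat.mul_le_mul_right w (X.card_hub h)

lemma children_card_client (t : T) (i : ZMod w) :
    (Finset.univ.filter (fun u => X.par w D u (Sum.inr (Sum.inl (t, i))))).card ≤ R * w := by
  refine le_trans (Finset.card_le_card
    (t := ((Finset.univ.filter (fun f => X.blk f t)) ×ˢ (Finset.univ : Finset (ZMod w))).image
      (fun p => (Sum.inr (Sum.inr (Sum.inl (p.1, i - (X.lab p.1 t : ZMod w) * p.2, p.2))) :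
        Vtx T Hb Fb w D))) ?_) ?_
  · rintro (h' | ⟨t', i'⟩ | ⟨f', a', b'⟩ | (_ | j')) hp
    all_goals simp only [Finset.mem_filter, Finset.mem_univ, true_and] at hp
    all_goals first
      | exact (hp : False).elim
      | skip
    obtain ⟨hp1, hp2⟩ := hp
    simp only [Finset.mem_image, Finset.mem_product, Finset.mem_filter, Finset.mem_univ, true_and,
      and_true]
    refine ⟨(f', b'), hp1, ?_⟩
    rw [hp2, add_sub_cancel_right]
  · refine Finset.card_image_le.trans ?_
    rw [Finset.card_product, Finset.card_univ, ZMod.card]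
    exact Nat.mul_le_mul_right w (X.blk_card t)

lemma children_card_center :
    (Finset.univ.filter (fun u => X.par w D u (Sum.inr (Sum.inr (Sum.inr none))))).card ≤ D := by
  refine le_trans (Finset.card_le_card
    (t := (Finset.univ : Finset (Fin D)).image
      (fun j => (Sum.inr (Sum.inr (Sum.inr (some j))) : Vtx T Hb Fb w D))) ?_) ?_
  · rintro (h' | ⟨t', i'⟩ | ⟨f', a', b'⟩ | (_ | j')) hp
    all_goals simp only [Finset.mem_filter, Finset.mem_univ, true_and] at hp
    all_goals first
      | exact (hp : False).elim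
      | skip
    simp
  · refine Finset.card_image_le.trans ?_
    simp

lemma children_eq_zero (v : Vtx T Hb Fb w D) (hv : ∀ u, ¬ X.par w D u v) :
    (Finset.univ.filter (fun u => X.par w D u v)).card = 0 := by
  rw [Finset.card_eq_zero, Finset.filter_eq_empty_iff]
  exact fun u _ => hv u

lemma parents_eq_zero (v : Vtx T Hb Fb w D) (hv : rk w D v = 0) :
    (Finset.univ.filter (fun u => X.par w D v u)).card = 0 := by
  rw [Finset.card_eq_zero, Finset.filter_eq_empty_iff]
  intro u _ hu
  have := X.rk_lt_of_par w D hu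
  omega

lemma degree_le (hk : 1 ≤ k) (hD : R * w + k ≤ D) (v : Vtx T Hb Fb w D) :
    (X.graph w D).degree v ≤ D := by
  refine (X.card_neighborFinset_le w D v).trans ?_
  rcases v with h | ⟨t, i⟩ | ⟨f, a, b⟩ | (_ | j)
  · have h1 := X.parents_eq_zero w D (Sum.inl h) rfl
    have h2 := X.children_card_hub w D h
    omega
  · have h1 := X.parents_card w D hk (Sum.inr (Sum.inl (t, i)))
    have h2 := X.children_card_client w D t i
    omega
  · have h1 := X.parents_card w D hk (Sum.inr (Sum.inr (Sum.inl (f, a, b))))
    have h2 := X.children_eq_zero w D (Sum.inr (Sum.inr (Sum.inl (f, a, b)))) (by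
      rintro (h' | ⟨t', i'⟩ | ⟨f', a', b'⟩ | (_ | j')) hp <;> exact (hp : False).elim)
    omega
  · have h1 := X.parents_eq_zero w D (Sum.inr (Sum.inr (Sum.inr none))) rfl
    have h2 := X.children_card_center w D
    omega
  · have h1 := X.parents_card w D hk (Sum.inr (Sum.inr (Sum.inr (some j))))
    have h2 := X.children_eq_zero w D (Sum.inr (Sum.inr (Sum.inr (some j)))) (by
      rintro (h' | ⟨t', i'⟩ | ⟨f', a', b'⟩ | (_ | j')) hp <;> exact (hp : False).elim)
    omega

lemma degree_center : D ≤ (X.graph w D).degree (Sum.inr (Sum.inr (Sum.inr none))) := by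
  rw [← SimpleGraph.card_neighborFinset_eq_degree]
  have h1 : ((Finset.univ : Finset (Fin D)).image
      (fun j => (Sum.inr (Sum.inr (Sum.inr (some j))) : Vtx T Hb Fb w D))).card = D := by
    rw [Finset.card_image_of_injective]
    · simp
    · intro a b hab
      simpa using hab
  conv_lhs => rw [← h1]
  refine Finset.card_le_card ?_
  intro u hu
  obtain ⟨j, -, rfl⟩ := Finset.mem_image.mp hu
  rw [SimpleGraph.mem_neighborFinset]
  exact Or.inr trivial

lemma maxDegree_eq (hk : 1 ≤ k) (hD : R * w + k ≤ D) : (X.graph w D).maxDegree = D :=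
  le_antisymm (SimpleGraph.maxDegree_le_of_forall_degree_le _ _ (X.degree_le w D hk hD))
    ((X.degree_center w D).trans (SimpleGraph.degree_le_maxDegree _ _))

/-- The clients form a clique in the square. -/
lemma isClique (hw : Nat.Coprime w (k - 1).factorial) :
    (square (X.graph w D)).IsClique
      ((Finset.univ : Finset (T × ZMod w)).image
        (fun p => (Sum.inr (Sum.inl p) : Vtx T Hb Fb w D)) : Finset _) := by
  intro u hu v hv huv
  simp only [Finset.coe_image, Finset.coe_univ, Set.image_univ, Set.mem_range] at hu hv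
  obtain ⟨⟨t, i⟩, rfl⟩ := hu
  obtain ⟨⟨t', j⟩, rfl⟩ := hv
  rw [square_adj]
  refine ⟨huv, Or.inr ?_⟩
  have hhub : ∀ h, X.hub h t → X.hub h t' → ∃ x, (X.graph w D).Adj (Sum.inr (Sum.inl (t, i))) x ∧
      (X.graph w D).Adj (Sum.inr (Sum.inl (t', j))) x :=
    fun h h1 h2 => ⟨Sum.inl h, Or.inl h1, Or.inl h2⟩
  by_cases htt : t = t'
  · subst htt
    obtain ⟨h, hh⟩ := X.hub_exists t
    exact hhub h hh hh
  · rcases X.cover t t' htt with ⟨h, h1, h2⟩ | ⟨f, h1, h2⟩
    · exact hhub h h1 h2
    · -- the difference of the labels is invertible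
      have hne : X.lab f t ≠ X.lab f t' := fun h => htt (X.lab_inj f t t' h1 h2 h)
      have hlt := X.lab_lt f t h1
      have hlt' := X.lab_lt f t' h2
      have hunit : IsUnit ((X.lab f t : ZMod w) - (X.lab f t' : ZMod w)) := by
        have hun : ∀ n : ℕ, 0 < n → n ≤ k - 1 → IsUnit ((n : ℕ) : ZMod w) := by
          intro n hn hnk
          rw [ZMod.isUnit_iff_coprime]
          exact (Nat.Coprime.coprime_dvd_right (Nat.dvd_factorial hn hnk) hw).symm
        rcases lt_or_gt_of_ne hne with hlt2 | hlt2
        · have h3 := hun (X.lab f t' - X.lab f t) (by omega) (by omega)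
          rw [Nat.cast_sub hlt2.le] at h3
          have h4 := h3.neg
          rwa [neg_sub] at h4
        · have h3 := hun (X.lab f t - X.lab f t') (by omega) (by omega)
          rwa [Nat.cast_sub hlt2.le] at h3
      obtain ⟨b, hb⟩ : ∃ b : ZMod w, ((X.lab f t : ZMod w) - (X.lab f t' : ZMod w)) * b = i - j := by
        obtain ⟨c, hc⟩ := hunit.exists_right_inv
        exact ⟨c * (i - j), by rw [← mul_assoc, hc, one_mul]⟩
      refine ⟨Sum.inr (Sum.inr (Sum.inl (f, i - (X.lab f t : ZMod w) * b, b))), Or.inr ⟨h1, ?_⟩,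
        Or.inr ⟨h2, ?_⟩⟩
      · ring
      · have h5 : (X.lab f t : ZMod w) * b - (X.lab f t' : ZMod w) * b = i - j := by
          rw [← sub_mul]; exact hb
        have h6 : j = i - ((X.lab f t : ZMod w) * b - (X.lab f t' : ZMod w) * b) := by
          rw [h5]; ring
        rw [h6]; ring

include X in
lemma card_mul_le_M (hk : 1 ≤ k) (hw : Nat.Coprime w (k - 1).factorial) (hD : R * w + k ≤ D) :
    Fintype.card T * w ≤ M k D := by
  have h1 := le_M_of_clique (X.graph w D) (X.maxDegree_eq w D hk hD) (X.degenerate w D hk) _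
    (X.isClique w D hw)
  refine le_trans (le_of_eq ?_) h1
  rw [Finset.card_image_of_injective]
  · rw [Finset.card_univ, Fintype.card_prod, ZMod.card]
  · intro a b hab
    simpa using hab

omit [NeZero w] in
include X in
/-- The lower bound given by a design. -/
theorem lower_bound (hk : 1 ≤ k) (hR : 1 ≤ R) :
    ∃ C : ℝ, ∀ D : ℕ, (Fintype.card T : ℝ) / R * D - C ≤ M k D := by
  set f := (k - 1).factorial with hf
  have hf0 : 0 < f := Nat.factorial_pos _
  refine ⟨(Fintype.card T : ℝ) / R * (k + R + R * f), fun D => ?_⟩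
  have hRr : (0 : ℝ) < R := by exact_mod_cast hR
  have hT : (0 : ℝ) ≤ (Fintype.card T : ℝ) / R := by positivity
  by_cases hD : R + k ≤ D
  · -- the largest admissible `w ≡ 1 mod f`
    set m := (D - k - R) / (R * f) with hm
    set w := 1 + f * m with hw
    have hRf : 0 < R * f := Nat.mul_pos hR hf0
    haveI : NeZero w := ⟨by omega⟩
    have hcop : Nat.Coprime w f := by
      rw [hw, Nat.coprime_add_mul_left_left]
      exact Nat.coprime_one_left f
    have hle : R * w + k ≤ D := by
      have h1 : R * f * m ≤ D - k - R := Nat.mul_div_le _ _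
      have h2 : R * w = R + R * f * m := by rw [hw]; ring
      omega
    have h3 := X.card_mul_le_M w D hk hcop hle
    have h4 : D - k - R < R * f * (m + 1) := by
      rw [hm]
      exact Nat.lt_mul_div_succ _ hRf
    have h5 : (D : ℝ) < k + R + R * f * (m + 1) := by
      have : D < k + R + R * f * (m + 1) := by omega
      exact_mod_cast this
    have h6 : (D : ℝ) - (k + R + R * f) ≤ R * w := by
      rw [hw]
      push_cast
      have : (0 : ℝ) < R := hRr
      nlinarith
    have h7 : (Fintype.card T : ℝ) / R * (R * w) = Fintype.card T * w := by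
      field_simp
    calc (Fintype.card T : ℝ) / R * D - (Fintype.card T : ℝ) / R * (k + R + R * f)
        = (Fintype.card T : ℝ) / R * (D - (k + R + R * f)) := by ring
      _ ≤ (Fintype.card T : ℝ) / R * (R * w) := mul_le_mul_of_nonneg_left h6 hT
      _ = ((Fintype.card T * w : ℕ) : ℝ) := by rw [h7]; push_cast; ring
      _ ≤ M k D := by exact_mod_cast h3
  · have h8 : (D : ℝ) ≤ k + R + R * f := by
      have : D ≤ R + k := by omega
      have h9 : (D : ℝ) ≤ R + k := by exact_mod_cast this
      have h10 : (0 : ℝ) ≤ R * f := by positivity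
      linarith
    have h11 : (Fintype.card T : ℝ) / R * D ≤ (Fintype.card T : ℝ) / R * (k + R + R * f) :=
      mul_le_mul_of_nonneg_left h8 hT
    have h12 : (0 : ℝ) ≤ M k D := Nat.cast_nonneg _
    linarith

end Design

end Pool.Agent.Helper14.Square
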