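import Pool.Agent.Helper14.SquareDesign

/-!
# Explicit finite designs
-/

set_option autoImplicit false

namespace Pool.Agent.Helper14.Square

/-- A design given by explicit lists: `ty t` is the list of the hubs of the type `t` and `bl f`
is the list of the types of the block `f`. -/
theorem lower_bound_of_lists (k R nT nH nF : ℕ) (hk : 1 ≤ k) (hR : 1 ≤ R)
    (ty : Fin nT → List (Fin nH)) (bl : Fin nF → List (Fin nT))
    (hty : ∀ t, (ty t).length ≤ k) (hty1 : ∀ t, 0 < (ty t).length)
    (hbl : ∀ f, (bl f).length ≤ k)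
    (hRt : ∀ h, (Finset.univ.filter (fun t => h ∈ ty t)).card ≤ R)
    (hRb : ∀ t, (Finset.univ.filter (fun f => t ∈ bl f)).card ≤ R)
    (hcov : ∀ t t', t ≠ t' → (∃ h, h ∈ ty t ∧ h ∈ ty t') ∨ (∃ f, t ∈ bl f ∧ t' ∈ bl f)) :
    ∃ C : ℝ, ∀ D : ℕ, (nT : ℝ) / R * D - C ≤ M k D := by
  classical
  have X : Design k R (Fin nT) (Fin nH) (Fin nF) :=
    { hub := fun h t => h ∈ ty t
      blk := fun f t => t ∈ bl f
      lab := fun f t => (bl f).idxOf t
      hub_card := fun t => by
        refine le_trans ?_ (hty t)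
        refine le_trans (Finset.card_le_card (t := (ty t).toFinset) ?_) (List.toFinset_card_le _)
        intro h hh
        simpa using hh
      hub_exists := fun t => by
        obtain ⟨h, hh⟩ := List.exists_mem_of_length_pos (hty1 t)
        exact ⟨h, hh⟩
      card_hub := fun h => by
        refine le_trans (le_of_eq ?_) (hRt h)
        congr
      blk_card := fun t => by
        refine le_trans (le_of_eq ?_) (hRb t)
        congr
      card_blk := fun f => by
        refine le_trans ?_ (hbl f)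
        refine le_trans (Finset.card_le_card (t := (bl f).toFinset) ?_) (List.toFinset_card_le _)
        intro h hh
        simpa using hh
      lab_lt := fun f t h => lt_of_lt_of_le (List.idxOf_lt_length_of_mem h) (hbl f)
      lab_inj := fun f t t' h h' heq => (List.idxOf_inj h).mp heq
      cover := hcov }
  have := X.lower_bound hk hR
  simpa using this

/-- Fourteen hubs, twenty-eight types: the Fano plane doubled with even parity. -/
def cubicTypes : List (List (Fin 14)) :=
  [[0, 2, 6], [0, 3, 7], [1, 2, 7], [1, 3, 6], [2, 4, 8], [2, 5, 9], [3, 4, 9], [3, 5, 8],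
   [4, 6, 10], [4, 7, 11], [5, 6, 11], [5, 7, 10], [6, 8, 12], [6, 9, 13], [7, 8, 13],
   [7, 9, 12], [0, 8, 10], [0, 9, 11], [1, 8, 11], [1, 9, 10], [2, 10, 12], [2, 11, 13],
   [3, 10, 13], [3, 11, 12], [0, 4, 12], [0, 5, 13], [1, 4, 13], [1, 5, 12]]

/-- Fifty-six triples of pairwise disjoint types covering all disjoint pairs. -/
def cubicBlocks : List (List (Fin 28)) :=
  [[0, 6, 18], [0, 7, 26], [0, 9, 27], [0, 11, 23], [0, 14, 19], [0, 15, 22], [1, 4, 27],
   [1, 5, 8], [1, 10, 19], [1, 12, 21], [1, 13, 18], [1, 20, 26], [2, 6, 25], [2, 7, 8],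
   [2, 10, 16], [2, 12, 17], [2, 13, 23], [2, 22, 24], [3, 4, 17], [3, 5, 24], [3, 9, 25],
   [3, 11, 21], [3, 14, 20], [3, 15, 16], [4, 10, 22], [4, 11, 13], [4, 15, 25], [4, 19, 23],
   [5, 9, 16], [5, 12, 26], [5, 14, 23], [5, 18, 22], [6, 10, 20], [6, 11, 12], [6, 14, 27],
   [6, 16, 21], [7, 9, 19], [7, 13, 24], [7, 15, 21], [7, 17, 20], [8, 14, 17], [8, 15, 18],
   [8, 21, 27], [8, 23, 25], [9, 12, 22], [9, 13, 20], [10, 14, 24], [10, 15, 26],
   [11, 17, 26], [11, 18, 24], [12, 19, 25], [13, 16, 27], [16, 23, 26], [17, 22, 27],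
   [18, 20, 25], [19, 21, 24]]

theorem cubic_bound : ∃ C : ℝ, ∀ D : ℕ, (14 / 3 : ℝ) * D - C ≤ M 3 D := by
  have h := lower_bound_of_lists 3 6 28 14 56 (by norm_num) (by norm_num)
    (fun t => cubicTypes.getD t []) (fun f => cubicBlocks.getD f [])
    (by decide +kernel) (by decide +kernel) (by decide +kernel) (by decide +kernel)
    (by decide +kernel) (by decide +kernel)
  obtain ⟨C, hC⟩ := h
  refine ⟨C, fun D => ?_⟩
  have h1 := hC D
  have h2 : (((28 : ℕ) : ℝ) / ((6 : ℕ) : ℝ)) = 14 / 3 := by norm_num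
  rwa [h2] at h1

end Pool.Agent.Helper14.Square
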