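import Pool.Agent.Helper14.Unav.UpperComb

/-!
The upper bound `un_r(n,e) ≤ C min(...)` for `n^(r-1) ≤ e ≤ n^(r-ε)`.
-/

namespace Helper14.Unav

open Finset

theorem eventually_large (K a : ℝ) (ha : 0 < a) :
    ∃ N : ℕ, ∀ n : ℕ, N ≤ n → K ≤ (n : ℝ) ^ a := by
  have h := (tendsto_rpow_atTop ha).comp tendsto_natCast_atTop_atTop
  exact Filter.eventually_atTop.1 (h.eventually_ge_atTop K)

/-- `C(k,r) r! ≥ (k/2)^r` for `k ≥ 2r`. -/
theorem half_pow_le_choose (k r : ℕ) (hk : 2 * r ≤ k) :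
    ((k : ℝ) / 2) ^ r ≤ (r.factorial : ℝ) * (k.choose r : ℝ) := by
  have h1 : (((k + 1 - r : ℕ) : ℝ)) ^ r ≤ (r.factorial : ℝ) * (k.choose r : ℝ) := by
    have := Nat.pow_le_choose (α := ℝ) r k
    rw [div_le_iff₀ (by exact_mod_cast Nat.factorial_pos r)] at this
    rw [mul_comm]
    exact_mod_cast this
  refine le_trans ?_ h1
  apply pow_le_pow_left₀ (by positivity)
  have : (k : ℝ) + 1 ≥ r := by
    have : (r : ℝ) ≤ k := by exact_mod_cast (by omega : r ≤ k)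
    linarith
  rw [Nat.cast_sub (by omega)]
  push_cast
  have h2 : (2 : ℝ) * r ≤ k := by exact_mod_cast hk
  linarith

theorem upper_aux (q : ℕ) (hq : 1 ≤ q) (ε : ℝ) (hε : 0 < ε) :
    ∃ C : ℝ, 0 < C ∧ ∃ N : ℕ, ∀ n e : ℕ, N ≤ n → (n : ℝ) ^ q ≤ e →
      (e : ℝ) ≤ (n : ℝ) ^ ((q : ℝ) + 1 - ε) →
      ∀ H : Finset (Finset (Fin n)), (∀ h ∈ H, h.card = q + 1) →
        Unavoidable n (q + 1) e H →
        (H.card : ℝ) ≤ C * min ((e : ℝ) ^ (1 + 1 / (q : ℝ)) / (n : ℝ) ^ ((q : ℝ) + 1 / (q : ℝ)))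
          ((e : ℝ) ^ (1 / ((q : ℝ) + 1))) := by
  have hq0 : (0 : ℝ) < q := by exact_mod_cast hq
  set F : ℝ := ((q + 1).factorial : ℝ) with hF
  have hF1 : (1 : ℝ) ≤ F := by rw [hF]; exact_mod_cast Nat.factorial_pos _
  set F' : ℝ := (q.factorial : ℝ) with hF'
  have hF'1 : (1 : ℝ) ≤ F' := by rw [hF']; exact_mod_cast Nat.factorial_pos _
  set A : ℝ := 4 ^ q * F' with hA
  have hA1 : 1 ≤ A := by
    rw [hA]; exact one_le_mul_of_one_le_of_one_le (one_le_pow₀ (by norm_num)) hF'1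
  set B : ℝ := 2 ^ (q + 2) * F with hB
  have hB1 : 1 ≤ B := by
    rw [hB]; exact one_le_mul_of_one_le_of_one_le (one_le_pow₀ (by norm_num)) hF1
  set C1 : ℝ := q + 2 + F with hC1
  set Bt : ℝ := B + 2 * q + 3 with hBt
  set C2 : ℝ := (A + 1) * Bt with hC2
  have hC1pos : 0 < C1 := by rw [hC1]; linarith
  have hBtpos : 0 < Bt := by rw [hBt]; linarith
  have hC2pos : 0 < C2 := by rw [hC2]; exact mul_pos (by linarith) hBtpos
  obtain ⟨N1, hN1⟩ := eventually_large (2 ^ (q + 1) * F) (ε / 2) (by linarith)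
  obtain ⟨N2, hN2⟩ := eventually_large (2 * (A + 1)) ε hε
  obtain ⟨N3, hN3⟩ := eventually_large Bt (ε / q) (by positivity)
  refine ⟨2 / ε * (C1 + C2), by positivity, N1 + N2 + N3 + 4 * (q + 2), ?_⟩
  intro n e hn hlow hup H hHr hH
  have hn4 : 4 * (q + 2) ≤ n := by omega
  have hnpos : 0 < n := by omega
  have hn0 : (0 : ℝ) < n := by exact_mod_cast hnpos
  have hn1 : (1 : ℝ) ≤ n := by exact_mod_cast hnpos
  have hn1' : (1 : ℝ) < n := by
    have : (1 : ℕ) < n := by omega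
    exact_mod_cast this
  have he1 : (1 : ℝ) ≤ e := le_trans (one_le_pow₀ hn1) hlow
  have he0 : (0 : ℝ) < e := by linarith
  have K1 := hN1 n (by omega)
  have K2 := hN2 n (by omega)
  have K3 := hN3 n (by omega)
  have hn4r : 4 * ((q : ℝ) + 2) ≤ n := by exact_mod_cast hn4
  -- F1
  have hM : (n : ℝ) ^ (ε / 2) * e ≤ ((n.choose (q + 1) : ℕ) : ℝ) := by
    have h1 := half_pow_le_choose n (q + 1) (by omega)
    rw [div_pow] at h1
    have h2 : (n : ℝ) ^ (q + 1) ≤ 2 ^ (q + 1) * F * (n.choose (q + 1) : ℝ) := by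
      rw [div_le_iff₀ (by positivity)] at h1
      calc (n : ℝ) ^ (q + 1) ≤ F * (n.choose (q + 1) : ℝ) * 2 ^ (q + 1) := h1
        _ = _ := by ring
    have h3 : (n : ℝ) ^ (ε / 2) * ((n : ℝ) ^ (ε / 2) * e) ≤ (n : ℝ) ^ (q + 1) := by
      calc (n : ℝ) ^ (ε / 2) * ((n : ℝ) ^ (ε / 2) * e)
          ≤ (n : ℝ) ^ (ε / 2) * ((n : ℝ) ^ (ε / 2) * (n : ℝ) ^ ((q : ℝ) + 1 - ε)) := by gcongr
        _ = (n : ℝ) ^ (((q + 1 : ℕ) : ℝ)) := by
            rw [← Real.rpow_add hn0, ← Real.rpow_add hn0]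
            congr 1
            push_cast
            ring
        _ = (n : ℝ) ^ (q + 1) := Real.rpow_natCast _ _
    have h4 : (n : ℝ) ^ (ε / 2) * ((n : ℝ) ^ (ε / 2) * e) ≤
        (n : ℝ) ^ (ε / 2) * (n.choose (q + 1) : ℝ) := by
      refine h3.trans (h2.trans ?_)
      gcongr
    exact le_of_mul_le_mul_left h4 (by positivity)
  have hnε1 : (1 : ℝ) ≤ (n : ℝ) ^ (ε / 2) := Real.one_le_rpow hn1 (by linarith)
  have heM : e ≤ n.choose (q + 1) := by
    have : (e : ℝ) ≤ ((n.choose (q + 1) : ℕ) : ℝ) := by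
      refine le_trans ?_ hM
      exact le_mul_of_one_le_left he0.le hnε1
    exact_mod_cast this
  -- F2
  have hmv : (H.card : ℝ) ≤ 2 / ε * ((supp H).card : ℝ) := by
    have h1 := hH.counting hHr heM
    have h2 : ((n.choose (q + 1) : ℕ) : ℝ) ^ H.card ≤ (n : ℝ) ^ (supp H).card * (e : ℝ) ^ H.card := by
      exact_mod_cast h1
    have h3 : ((n : ℝ) ^ (ε / 2)) ^ H.card * (e : ℝ) ^ H.card
        ≤ (n : ℝ) ^ (supp H).card * (e : ℝ) ^ H.card := by
      rw [← mul_pow]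
      refine le_trans ?_ h2
      exact pow_le_pow_left₀ (by positivity) hM _
    have h4 : ((n : ℝ) ^ (ε / 2)) ^ H.card ≤ (n : ℝ) ^ (supp H).card :=
      le_of_mul_le_mul_right h3 (by positivity)
    rw [← Real.rpow_natCast, ← Real.rpow_natCast (n : ℝ), ← Real.rpow_mul hn0.le,
      Real.rpow_le_rpow_left_iff hn1'] at h4
    rw [div_mul_eq_mul_div, le_div_iff₀ hε]
    linarith
  -- F3
  have hv1 : ((supp H).card : ℝ) ≤ C1 * (e : ℝ) ^ (1 / ((q : ℝ) + 1)) := by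
    set x : ℝ := (F * e) ^ (1 / ((q : ℝ) + 1)) with hx
    have hx0 : 0 ≤ x := by positivity
    have hxpow : x ^ (q + 1) = F * e := by
      rw [hx, ← Real.rpow_natCast, ← Real.rpow_mul (by positivity)]
      push_cast
      rw [one_div, inv_mul_cancel₀ (by positivity), Real.rpow_one]
    set s : ℕ := q + 1 + ⌈x⌉₊ with hs
    have h1 : e ≤ s.choose (q + 1) := by
      have h2 : (((s + 1 - (q + 1) : ℕ) : ℝ)) ^ (q + 1) ≤ F * (s.choose (q + 1) : ℝ) := by
        have := Nat.pow_le_choose (α := ℝ) (q + 1) s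
        rw [div_le_iff₀ (by exact_mod_cast Nat.factorial_pos (q + 1))] at this
        rw [mul_comm, hF]
        exact_mod_cast this
      have h3 : x ≤ ((s + 1 - (q + 1) : ℕ) : ℝ) := by
        refine (Nat.le_ceil x).trans ?_
        exact_mod_cast (by omega : ⌈x⌉₊ ≤ s + 1 - (q + 1))
      have h4 : F * e ≤ F * (s.choose (q + 1) : ℝ) := by
        rw [← hxpow]
        exact (pow_le_pow_left₀ hx0 h3 _).trans h2
      have h5 : (e : ℝ) ≤ (s.choose (q + 1) : ℝ) := le_of_mul_le_mul_left h4 (by linarith)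
      exact_mod_cast h5
    have h2 := hH.card_supp_le_clique h1
    have h3 : ((supp H).card : ℝ) ≤ (s : ℝ) := by exact_mod_cast h2
    have h4 : (⌈x⌉₊ : ℝ) ≤ x + 1 := (Nat.ceil_lt_add_one hx0).le
    have h5 : x ≤ F * (e : ℝ) ^ (1 / ((q : ℝ) + 1)) := by
      rw [hx, Real.mul_rpow (by linarith) he0.le]
      gcongr
      calc F ^ (1 / ((q : ℝ) + 1)) ≤ F ^ (1 : ℝ) := by
            apply Real.rpow_le_rpow_of_exponent_le hF1
            rw [div_le_one (by positivity)]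
            linarith
        _ = F := Real.rpow_one F
    have h6 : (1 : ℝ) ≤ (e : ℝ) ^ (1 / ((q : ℝ) + 1)) := Real.one_le_rpow he1 (by positivity)
    calc ((supp H).card : ℝ) ≤ (s : ℝ) := h3
      _ = q + 1 + (⌈x⌉₊ : ℝ) := by rw [hs]; push_cast; ring
      _ ≤ q + 1 + (x + 1) := by linarith
      _ ≤ (q + 2) * (e : ℝ) ^ (1 / ((q : ℝ) + 1)) + F * (e : ℝ) ^ (1 / ((q : ℝ) + 1)) := by
          have : (q + 2 : ℝ) ≤ (q + 2) * (e : ℝ) ^ (1 / ((q : ℝ) + 1)) :=
            le_mul_of_one_le_right (by positivity) h6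
          linarith
      _ = C1 * (e : ℝ) ^ (1 / ((q : ℝ) + 1)) := by rw [hC1]; ring
  -- F4
  obtain ⟨T, hTcard, hTcov⟩ : ∃ T : Finset (Fin n), (T.card : ℝ) ≤ (A + 1) * (e / (n : ℝ) ^ q) ∧
      ∀ h ∈ H, ∃ t ∈ T, t ∈ h := by
    set y : ℝ := A * (e / (n : ℝ) ^ q) with hy
    have hy0 : 0 ≤ y := by positivity
    have hratio : (1 : ℝ) ≤ e / (n : ℝ) ^ q := by
      rw [le_div_iff₀ (by positivity)]; simpa using hlow
    set s : ℕ := ⌈y⌉₊ with hs
    have hs1 : (s : ℝ) ≤ (A + 1) * (e / (n : ℝ) ^ q) := by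
      have : (s : ℝ) ≤ y + 1 := (Nat.ceil_lt_add_one hy0).le
      rw [add_mul, one_mul]
      linarith
    have hs2 : (s : ℝ) ≤ n / 2 := by
      have h1 : (e : ℝ) / (n : ℝ) ^ q ≤ (n : ℝ) ^ (1 - ε) := by
        rw [div_le_iff₀ (by positivity), ← Real.rpow_natCast, ← Real.rpow_add hn0]
        have : (1 - ε + (q : ℝ)) = (q : ℝ) + 1 - ε := by ring
        rw [this]
        exact hup
      have h2 : (n : ℝ) ^ ε * (n : ℝ) ^ (1 - ε) = n := by
        rw [← Real.rpow_add hn0]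
        simp
      have h3 : 2 * (A + 1) * (n : ℝ) ^ (1 - ε) ≤ n := by
        calc 2 * (A + 1) * (n : ℝ) ^ (1 - ε) ≤ (n : ℝ) ^ ε * (n : ℝ) ^ (1 - ε) := by gcongr
          _ = n := h2
      have h4 : (A + 1) * (e / (n : ℝ) ^ q) ≤ (A + 1) * (n : ℝ) ^ (1 - ε) := by gcongr
      linarith
    have hs2' : 2 * s ≤ n := by
      have : (2 : ℝ) * s ≤ n := by linarith
      exact_mod_cast this
    have hchoose : ((n : ℝ) / 4) ^ q ≤ F' * ((n - s).choose q : ℝ) := by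
      have h1 := half_pow_le_choose (n - s) q (by omega)
      refine le_trans ?_ h1
      apply pow_le_pow_left₀ (by positivity)
      rw [Nat.cast_sub (by omega)]
      have : (s : ℝ) ≤ n / 2 := hs2
      linarith
    have hkey : e ≤ s * (n - s).choose (q + 1 - 1) := by
      rw [Nat.add_sub_cancel]
      have h1 : (e : ℝ) ≤ (s : ℝ) * ((n - s).choose q : ℝ) := by
        have h2 : y ≤ s := Nat.le_ceil y
        have h3 : (e : ℝ) * A = y * (n : ℝ) ^ q := by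
          rw [hy]; field_simp
        have h4 : (e : ℝ) * A ≤ (s * ((n - s).choose q : ℝ)) * A := by
          rw [h3]
          calc y * (n : ℝ) ^ q ≤ s * (n : ℝ) ^ q := by gcongr
            _ = s * (4 ^ q * ((n : ℝ) / 4) ^ q) := by
                rw [div_pow]; field_simp
            _ ≤ s * (4 ^ q * (F' * ((n - s).choose q : ℝ))) := by gcongr
            _ = _ := by rw [hA]; ring
        exact le_of_mul_le_mul_right h4 (by linarith)
      exact_mod_cast h1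
    obtain ⟨T, hT1, hT2⟩ := hH.exists_cover (by omega) (by omega) hkey
    refine ⟨T, le_trans ?_ hs1, hT2⟩
    exact_mod_cast hT1
  -- F5
  have hv2 : ((supp H).card : ℝ) ≤ C2 * ((e : ℝ) ^ (1 + 1 / (q : ℝ)) /
      (n : ℝ) ^ ((q : ℝ) + 1 / (q : ℝ))) := by
    have hen : (1 : ℝ) ≤ e / n := by
      rw [le_div_iff₀ hn0, one_mul]
      refine le_trans ?_ hlow
      calc (n : ℝ) = (n : ℝ) ^ 1 := (pow_one _).symm
        _ ≤ (n : ℝ) ^ q := pow_le_pow_right₀ hn1 hq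
    set y : ℝ := (B * (e / n)) ^ (1 / (q : ℝ)) with hy
    have hy0 : 0 ≤ y := by positivity
    have hypow : y ^ q = B * (e / n) := by
      rw [hy, ← Real.rpow_natCast, ← Real.rpow_mul (by positivity)]
      rw [one_div, inv_mul_cancel₀ (by positivity), Real.rpow_one]
    set t : ℕ := ⌈y⌉₊ + 2 * (q + 1) with ht
    have hw1 : (1 : ℝ) ≤ (e / n : ℝ) ^ (1 / (q : ℝ)) := Real.one_le_rpow hen (by positivity)
    have hyle : y ≤ B * (e / n : ℝ) ^ (1 / (q : ℝ)) := by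
      rw [hy, Real.mul_rpow (by linarith) (by positivity)]
      gcongr
      calc B ^ (1 / (q : ℝ)) ≤ B ^ (1 : ℝ) := by
            apply Real.rpow_le_rpow_of_exponent_le hB1
            rw [div_le_one (by positivity)]
            exact_mod_cast hq
        _ = B := Real.rpow_one B
    have htle : (t : ℝ) ≤ Bt * (e / n : ℝ) ^ (1 / (q : ℝ)) := by
      have h1 : (⌈y⌉₊ : ℝ) ≤ y + 1 := (Nat.ceil_lt_add_one hy0).le
      have h2 : (2 * q + 3 : ℝ) ≤ (2 * q + 3) * (e / n : ℝ) ^ (1 / (q : ℝ)) :=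
        le_mul_of_one_le_right (by positivity) hw1
      calc (t : ℝ) = (⌈y⌉₊ : ℝ) + 2 * (q + 1) := by rw [ht]; push_cast; ring
        _ ≤ B * (e / n : ℝ) ^ (1 / (q : ℝ)) + (2 * q + 3) * (e / n : ℝ) ^ (1 / (q : ℝ)) := by
            linarith
        _ = _ := by rw [hBt]; ring
    have ht0 : 0 < t := by omega
    have ht0' : (0 : ℝ) < t := by exact_mod_cast ht0
    have htn : (t : ℝ) ≤ n := by
      have h1 : (e / n : ℝ) ≤ (n : ℝ) ^ ((q : ℝ) - ε) := by
        rw [div_le_iff₀ hn0]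
        calc (e : ℝ) ≤ (n : ℝ) ^ ((q : ℝ) + 1 - ε) := hup
          _ = (n : ℝ) ^ ((q : ℝ) - ε) * n := by
              nth_rw 3 [← Real.rpow_one (n : ℝ)]
              rw [← Real.rpow_add hn0]
              congr 1; ring
      have h2 : (e / n : ℝ) ^ (1 / (q : ℝ)) ≤ (n : ℝ) ^ (1 - ε / q) := by
        calc (e / n : ℝ) ^ (1 / (q : ℝ)) ≤ ((n : ℝ) ^ ((q : ℝ) - ε)) ^ (1 / (q : ℝ)) :=
              Real.rpow_le_rpow (by positivity) h1 (by positivity)
          _ = (n : ℝ) ^ (1 - ε / q) := by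
              rw [← Real.rpow_mul hn0.le]
              congr 1
              field_simp
      calc (t : ℝ) ≤ Bt * (e / n : ℝ) ^ (1 / (q : ℝ)) := htle
        _ ≤ (n : ℝ) ^ (ε / q) * (n : ℝ) ^ (1 - ε / q) := by gcongr
        _ = n := by rw [← Real.rpow_add hn0]; simp
    have htn' : t ≤ n := by exact_mod_cast htn
    have hkey : e ≤ (n / t) * t.choose (q + 1) := by
      have h1 : (n : ℝ) / (2 * t) ≤ ((n / t : ℕ) : ℝ) := by
        rw [div_le_iff₀ (by positivity)]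
        have h2 : n ≤ (n / t) * (2 * t) := by
          have h3 := Nat.div_add_mod n t
          have h4 := Nat.mod_lt n ht0
          have h5 : 1 ≤ n / t := (Nat.one_le_div_iff ht0).2 htn'
          have h6 : t * 1 ≤ t * (n / t) := Nat.mul_le_mul_left t h5
          calc n = t * (n / t) + n % t := h3.symm
            _ ≤ t * (n / t) + t * (n / t) := by omega
            _ = (n / t) * (2 * t) := by ring
        exact_mod_cast h2
      have h2 := half_pow_le_choose t (q + 1) (by omega)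
      rw [div_pow] at h2
      have h3 : (t : ℝ) ^ (q + 1) ≤ 2 ^ (q + 1) * F * (t.choose (q + 1) : ℝ) := by
        rw [div_le_iff₀ (by positivity)] at h2
        calc (t : ℝ) ^ (q + 1) ≤ F * (t.choose (q + 1) : ℝ) * 2 ^ (q + 1) := h2
          _ = _ := by ring
      have h4 : B * e ≤ B * (((n / t : ℕ) : ℝ) * (t.choose (q + 1) : ℝ)) := by
        calc B * e = y ^ q * n := by rw [hypow]; field_simp
          _ ≤ (t : ℝ) ^ q * n := by
              gcongr
              refine (Nat.le_ceil y).trans ?_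
              exact_mod_cast (by omega : ⌈y⌉₊ ≤ t)
          _ = 2 * (n / (2 * t)) * (t : ℝ) ^ (q + 1) := by
              rw [pow_succ]; field_simp
          _ ≤ 2 * ((n / t : ℕ) : ℝ) * (2 ^ (q + 1) * F * (t.choose (q + 1) : ℝ)) := by gcongr
          _ = _ := by rw [hB]; ring
      have h5 : (e : ℝ) ≤ ((n / t : ℕ) : ℝ) * (t.choose (q + 1) : ℝ) :=
        le_of_mul_le_mul_left h4 (by linarith)
      exact_mod_cast h5
    have h1 := hH.card_supp_le_blocks (by omega) ht0 hkey hTcov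
    have h2 : ((supp H).card : ℝ) ≤ (T.card : ℝ) * t := by exact_mod_cast h1
    calc ((supp H).card : ℝ) ≤ (T.card : ℝ) * t := h2
      _ ≤ ((A + 1) * (e / (n : ℝ) ^ q)) * (Bt * (e / n : ℝ) ^ (1 / (q : ℝ))) := by
          gcongr
      _ = C2 * ((e : ℝ) ^ (1 + 1 / (q : ℝ)) / (n : ℝ) ^ ((q : ℝ) + 1 / (q : ℝ))) := by
          rw [Real.rpow_add he0, Real.rpow_add hn0, Real.rpow_one, Real.rpow_natCast,
            Real.div_rpow he0.le hn0.le, hC2]
          have : (n : ℝ) ^ (1 / (q : ℝ)) ≠ 0 := by positivity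
          field_simp
  have hmin : ((supp H).card : ℝ) ≤ (C1 + C2) *
      min ((e : ℝ) ^ (1 + 1 / (q : ℝ)) / (n : ℝ) ^ ((q : ℝ) + 1 / (q : ℝ)))
          ((e : ℝ) ^ (1 / ((q : ℝ) + 1))) := by
    rcases min_choice ((e : ℝ) ^ (1 + 1 / (q : ℝ)) / (n : ℝ) ^ ((q : ℝ) + 1 / (q : ℝ)))
          ((e : ℝ) ^ (1 / ((q : ℝ) + 1))) with h | h
    · rw [h]
      refine hv2.trans ?_
      gcongr
      linarith
    · rw [h]
      refine hv1.trans ?_
      gcongr
      linarith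
  calc (H.card : ℝ) ≤ 2 / ε * ((supp H).card : ℝ) := hmv
    _ ≤ 2 / ε * ((C1 + C2) *
      min ((e : ℝ) ^ (1 + 1 / (q : ℝ)) / (n : ℝ) ^ ((q : ℝ) + 1 / (q : ℝ)))
          ((e : ℝ) ^ (1 / ((q : ℝ) + 1)))) := by gcongr
    _ = _ := by ring

/-- The upper bound half of the frozen statement. -/
theorem upper (r : ℕ) (hr : 2 ≤ r) (ε : ℝ) (hε : 0 < ε) :
    ∃ C : ℝ, 0 < C ∧ ∃ N : ℕ, ∀ n e : ℕ, N ≤ n → (n : ℝ) ^ (r - 1) ≤ (e : ℝ) →
      (e : ℝ) ≤ (n : ℝ) ^ ((r : ℝ) - ε) →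
      ∀ H : Finset (Finset (Fin n)), (∀ h ∈ H, h.card = r) →
        (∀ G : Finset (Finset (Fin n)), (∀ g ∈ G, g.card = r) → G.card = e →
          ∃ φ : Fin n ↪ Fin n, ∀ h ∈ H, h.map φ ∈ G) →
        (H.card : ℝ) ≤ C * min ((e : ℝ) ^ ((r : ℝ) / ((r : ℝ) - 1)) /
              (n : ℝ) ^ ((r : ℝ) - 1 + 1 / ((r : ℝ) - 1)))
            ((e : ℝ) ^ (1 / (r : ℝ))) := by
  obtain ⟨q, rfl⟩ : ∃ q, r = q + 1 := ⟨r - 1, by omega⟩
  have hq : 1 ≤ q := by omega
  have hq0 : (0 : ℝ) < q := by exact_mod_cast hq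
  obtain ⟨C, hC, N, h⟩ := upper_aux q hq ε hε
  refine ⟨C, hC, N, ?_⟩
  intro n e hn hlow hup H hHr hH
  have e1 : (((q + 1 : ℕ) : ℝ)) - 1 = q := by push_cast; ring
  have e2 : (((q + 1 : ℕ) : ℝ)) / q = 1 + 1 / (q : ℝ) := by
    push_cast; field_simp
  have e3 : (((q + 1 : ℕ) : ℝ)) = (q : ℝ) + 1 := by push_cast; ring
  rw [e1, e2, e3]
  exact h n e hn (by simpa using hlow) (by rw [e3] at hup; exact hup) H hHr hH

end Helper14.Unav
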