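import Mathlib

/-!
# The Vámos matroid and second symmetric powers: definitions
-/

set_option autoImplicit false

namespace Pool.Agent.Helper14.Vamos

open Set

/-- The eight elements of the Vámos matroid are `0, …, 7`, standing for
`a, a', b, b', c, c', d, d'`. These are its five nonbases of size four. -/
def nonbases : Finset (Finset (Fin 8)) :=
  {{0, 1, 2, 3}, {0, 1, 4, 5}, {0, 1, 6, 7}, {2, 3, 4, 5}, {2, 3, 6, 7}}

/-- `B` is a basis of the Vámos matroid: a set of four elements that is not one of the five
nonbases. -/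
def IsVamosBase (B : Set (Fin 8)) : Prop :=
  ∃ F : Finset (Fin 8), (F : Set (Fin 8)) = B ∧ F.card = 4 ∧ F ∉ nonbases

lemma exchange_finset : ∀ F ∈ Finset.powersetCard 4 (Finset.univ : Finset (Fin 8)), F ∉ nonbases →
    ∀ G ∈ Finset.powersetCard 4 (Finset.univ : Finset (Fin 8)), G ∉ nonbases →
      ∀ x ∈ F \ G, ∃ y ∈ G \ F, insert y (F.erase x) ∉ nonbases := by
  decide +kernel

lemma exchange : Matroid.ExchangeProperty IsVamosBase := by
  rintro _ _ ⟨F, rfl, hF, hF'⟩ ⟨G, rfl, hG, hG'⟩ x hx
  have hx' : x ∈ F \ G := by simpa using hx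
  obtain ⟨y, hy, h⟩ := exchange_finset F (by simp [Finset.mem_powersetCard, hF]) hF' G
    (by simp [Finset.mem_powersetCard, hG]) hG' x hx'
  refine ⟨y, by simpa using hy, insert y (F.erase x), ?_, ?_, h⟩
  · simp
  · have hxF : x ∈ F := (Finset.mem_sdiff.mp hx').1
    have hyF : y ∉ F := (Finset.mem_sdiff.mp hy).2
    rw [Finset.card_insert_of_notMem (fun h' => hyF (Finset.mem_of_mem_erase h')),
      Finset.card_erase_of_mem hxF, hF]

/-- The Vámos matroid `V_8`. -/
def vamos : Matroid (Fin 8) :=
  Matroid.ofIsBaseOfFinite (E := Set.univ) Set.finite_univ IsVamosBase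
    ⟨_, {0, 1, 2, 4}, rfl, by decide, by decide⟩ exchange (fun _ _ => Set.subset_univ _)

/-- `α S = {αx : x ∈ S}`, a set of unordered pairs (with repetition allowed). -/
def mulSet {E : Type} (α : E) (S : Set E) : Set (Sym2 E) := (fun x => s(α, x)) '' S

/-- `N` is a second symmetric quasi power of the matroid `M` whose ground set is the whole
type `E`: a matroid on `Sym2 E` such that for every nonloop `α` the map `x ↦ αx` is an
isomorphism from `M` onto the restriction of `N` to `αE` (a set `S` is independent in `M` exactly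
when `αS` is independent in `N`), and for every loop `α` the set `αE` has rank zero in `N`. -/
structure IsQuasiPower {E : Type} (M : Matroid E) (N : Matroid (Sym2 E)) : Prop where
  ground : N.E = Set.univ
  nonloop : ∀ α, ¬ M.IsLoop α → ∀ S : Set E, M.Indep S ↔ N.Indep (mulSet α S)
  loop : ∀ α, M.IsLoop α → N.eRk (mulSet α Set.univ) = 0

/-- `N` is a second symmetric power of the matroid `M`: a second symmetric quasi power of rank
`(r+1 choose 2)`, where `r` is the rank of `M`. -/
def IsSymmetricPower {E : Type} (M : Matroid E) (N : Matroid (Sym2 E)) : Prop :=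
  IsQuasiPower M N ∧ ∃ r : ℕ, M.eRank = r ∧ N.eRank = ((r + 1).choose 2 : ℕ)

end Pool.Agent.Helper14.Vamos
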