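import Pool.Agent.Helper14.VamosDefs

/-!
# The Vámos matroid has no second symmetric power
-/

set_option autoImplicit false

namespace Pool.Agent.Helper14.Vamos

open Set

/-- Independence in the Vámos matroid, for finsets. -/
def VIndep (I : Finset (Fin 8)) : Prop :=
  ∃ F ∈ Finset.powersetCard 4 (Finset.univ : Finset (Fin 8)), F ∉ nonbases ∧ I ⊆ F

instance (I : Finset (Fin 8)) : Decidable (VIndep I) := by unfold VIndep; infer_instance

lemma vamos_indep_iff (I : Finset (Fin 8)) : vamos.Indep (I : Set (Fin 8)) ↔ VIndep I := by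
  rw [Matroid.indep_iff]
  constructor
  · rintro ⟨B, ⟨F, rfl, hF, hF'⟩, hI⟩
    exact ⟨F, by simp [Finset.mem_powersetCard, hF], hF', by exact_mod_cast hI⟩
  · rintro ⟨F, hF, hF', hI⟩
    refine ⟨F, ⟨F, rfl, (Finset.mem_powersetCard.mp hF).2, hF'⟩, by exact_mod_cast hI⟩

lemma vamos_eRank : vamos.eRank = ((4 : ℕ) : ℕ∞) := by
  have hB : vamos.IsBase (({0, 1, 2, 4} : Finset (Fin 8)) : Set (Fin 8)) :=
    ⟨_, rfl, by decide, by decide⟩
  rw [← hB.encard_eq_eRank, Set.encard_coe_eq_coe_finsetCard]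
  rfl

lemma vamos_isNonloop (α : Fin 8) : vamos.IsNonloop α := by
  rw [← Matroid.indep_singleton]
  have h : ∀ α : Fin 8, VIndep {α} := by decide +kernel
  have := (vamos_indep_iff {α}).mpr (h α)
  simpa using this

/-- The product `αI` as a finset. -/
def fmul (α : Fin 8) (I : Finset (Fin 8)) : Finset (Sym2 (Fin 8)) := I.image (fun x => s(α, x))

lemma coe_fmul (α : Fin 8) (I : Finset (Fin 8)) :
    (fmul α I : Set (Sym2 (Fin 8))) = mulSet α (I : Set (Fin 8)) := by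
  simp [fmul, mulSet]

lemma sw {x y : Fin 8} {C : Set (Sym2 (Fin 8))} (h : s(x, y) ∈ C) : s(y, x) ∈ C := by
  rw [Sym2.eq_swap]; exact h

section

variable {N : Matroid (Sym2 (Fin 8))}

lemma mem_cl (hN : IsQuasiPower vamos N) (α x : Fin 8) (I : Finset (Fin 8))
    (hI : VIndep I) (hx : ¬ VIndep (insert x I)) :
    s(α, x) ∈ N.closure (fmul α I : Set (Sym2 (Fin 8))) := by
  have h1 : N.Indep (fmul α I : Set (Sym2 (Fin 8))) := by
    rw [coe_fmul, ← hN.nonloop α (vamos_isNonloop α).not_isLoop, vamos_indep_iff]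
    exact hI
  have h2 : ¬ N.Indep (insert s(α, x) (fmul α I : Set (Sym2 (Fin 8)))) := by
    have h3 : (insert s(α, x) (fmul α I : Set (Sym2 (Fin 8)))) =
        mulSet α ((insert x I : Finset (Fin 8)) : Set (Fin 8)) := by
      rw [coe_fmul, Finset.coe_insert, mulSet, mulSet, Set.image_insert_eq]
    rw [h3, ← hN.nonloop α (vamos_isNonloop α).not_isLoop, vamos_indep_iff]
    exact hx
  rw [h1.mem_closure_iff]
  left
  exact ⟨h2, by rw [hN.ground]; exact Set.subset_univ _⟩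

/-- A version for arbitrary sets. -/
lemma mem_cl' (hN : IsQuasiPower vamos N) (α x : Fin 8) (I : Finset (Fin 8))
    (hI : VIndep I) (hx : ¬ VIndep (insert x I)) {Z : Set (Sym2 (Fin 8))}
    (hZ : (fmul α I : Set (Sym2 (Fin 8))) ⊆ N.closure Z) : s(α, x) ∈ N.closure Z :=
  (Matroid.closure_subset_closure_of_subset_closure hZ) (mem_cl hN α x I hI hx)

lemma cl3 (hN : IsQuasiPower vamos N) (α x p q s : Fin 8) (hI : VIndep {p, q, s})
    (hx : ¬ VIndep {x, p, q, s}) {Z : Set (Sym2 (Fin 8))}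
    (hp : s(α, p) ∈ N.closure Z) (hq : s(α, q) ∈ N.closure Z) (hs : s(α, s) ∈ N.closure Z) :
    s(α, x) ∈ N.closure Z := by
  refine mem_cl' hN α x {p, q, s} hI hx ?_
  intro e he
  simp only [fmul, Finset.image_insert, Finset.image_singleton, Finset.coe_insert,
    Finset.coe_singleton, Set.mem_insert_iff, Set.mem_singleton_iff] at he
  rcases he with rfl | rfl | rfl
  · exact hp
  · exact hq
  · exact hs

lemma cl4 (hN : IsQuasiPower vamos N) (α x p q s t : Fin 8) (hI : VIndep {p, q, s, t})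
    (hx : ¬ VIndep {x, p, q, s, t}) {Z : Set (Sym2 (Fin 8))}
    (hp : s(α, p) ∈ N.closure Z) (hq : s(α, q) ∈ N.closure Z) (hs : s(α, s) ∈ N.closure Z)
    (ht : s(α, t) ∈ N.closure Z) :
    s(α, x) ∈ N.closure Z := by
  refine mem_cl' hN α x {p, q, s, t} hI hx ?_
  intro e he
  simp only [fmul, Finset.image_insert, Finset.image_singleton, Finset.coe_insert,
    Finset.coe_singleton, Set.mem_insert_iff, Set.mem_singleton_iff] at he
  rcases he with rfl | rfl | rfl | rfl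
  · exact hp
  · exact hq
  · exact hs
  · exact ht

/-- All elements are in the closure of a set whose closure contains `αβ` for `α, β` in the basis
`{a, a', b, c}`. -/
lemma all_mem (hN : IsQuasiPower vamos N) {Z : Set (Sym2 (Fin 8))}
    (h : ∀ α ∈ ({0, 1, 2, 4} : Finset (Fin 8)), ∀ β ∈ ({0, 1, 2, 4} : Finset (Fin 8)),
      s(α, β) ∈ N.closure Z) (x y : Fin 8) : s(x, y) ∈ N.closure Z := by
  have hB : VIndep {0, 1, 2, 4} := by decide +kernel
  have hex : ∀ x : Fin 8, ¬ VIndep {x, 0, 1, 2, 4} ∨ x ∈ ({0, 1, 2, 4} : Finset (Fin 8)) := by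
    decide +kernel
  have h1 : ∀ x : Fin 8, ∀ α ∈ ({0, 1, 2, 4} : Finset (Fin 8)), s(α, x) ∈ N.closure Z := by
    intro x α hα
    rcases hex x with hx | hx
    · exact cl4 hN α x 0 1 2 4 hB hx (h α hα 0 (by decide)) (h α hα 1 (by decide))
        (h α hα 2 (by decide)) (h α hα 4 (by decide))
    · exact h α hα x hx
  rcases hex y with hy | hy
  · refine cl4 hN x y 0 1 2 4 hB hy ?_ ?_ ?_ ?_
    · rw [Sym2.eq_swap]; exact h1 x 0 (by decide)
    · rw [Sym2.eq_swap]; exact h1 x 1 (by decide)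
    · rw [Sym2.eq_swap]; exact h1 x 2 (by decide)
    · rw [Sym2.eq_swap]; exact h1 x 4 (by decide)
  · rw [Sym2.eq_swap]; exact h1 x y hy

/-- The ten products of elements of the basis `{a, a', b, c}`. -/
def S10 : Finset (Sym2 (Fin 8)) :=
  {s(0, 0), s(0, 1), s(0, 2), s(0, 4), s(1, 1), s(1, 2), s(1, 4), s(2, 2), s(2, 4), s(4, 4)}

/-- All of them except `bb`. -/
def S9 : Finset (Sym2 (Fin 8)) :=
  {s(0, 0), s(0, 1), s(0, 2), s(0, 4), s(1, 1), s(1, 2), s(1, 4), s(2, 4), s(4, 4)}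

lemma indep_S10 (hN : IsQuasiPower vamos N) (hr : N.eRank = ((10 : ℕ) : ℕ∞)) :
    N.Indep (S10 : Set (Sym2 (Fin 8))) := by
  have hcl : ∀ e : Sym2 (Fin 8), e ∈ N.closure (S10 : Set (Sym2 (Fin 8))) := by
    intro e
    induction e with
    | _ x y =>
      refine all_mem hN ?_ x y
      have hd : ∀ α ∈ ({0, 1, 2, 4} : Finset (Fin 8)), ∀ β ∈ ({0, 1, 2, 4} : Finset (Fin 8)),
        s(α, β) ∈ S10 := by decide +kernel
      intro α hα β hβ
      exact N.mem_closure_of_mem (Finset.mem_coe.mpr (hd α hα β hβ))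
        (by rw [hN.ground]; exact Set.subset_univ _)
  have h1 : N.eRk (S10 : Set (Sym2 (Fin 8))) = N.eRank := by
    rw [← N.eRk_closure_eq, Set.eq_univ_of_forall hcl, ← hN.ground, N.eRk_ground]
  rw [N.indep_iff_eRk_eq_encard_of_finite (Finset.finite_toSet _), h1, hr,
    Set.encard_coe_eq_coe_finsetCard]
  congr 1

lemma indep_S9 (hN : IsQuasiPower vamos N) (hr : N.eRank = ((10 : ℕ) : ℕ∞)) :
    N.Indep (S9 : Set (Sym2 (Fin 8))) :=
  (indep_S10 hN hr).subset (Finset.coe_subset.mpr (by decide +kernel))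

lemma eRk_le_of_subset_closure {Y Z : Set (Sym2 (Fin 8))} (h : Y ⊆ N.closure Z) :
    N.eRk Y ≤ N.eRk Z := by
  rw [← N.eRk_closure_eq Z]
  exact N.eRk_mono h

/-- The set `X = a'A ∪ cB ∪ a(A ∪ B)`. -/
def X0 : Set (Sym2 (Fin 8)) :=
  {s(0, 0), s(0, 1), s(1, 1), s(0, 2), s(0, 3), s(4, 2), s(4, 3)}

/-- A set whose closure contains `X` and `c'{a, a', b, c}` has rank at least nine. -/
lemma nine_le (hN : IsQuasiPower vamos N) (hr : N.eRank = ((10 : ℕ) : ℕ∞))
    {Z : Set (Sym2 (Fin 8))} (hX : X0 ⊆ N.closure Z) (h0 : s(5, 0) ∈ N.closure Z)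
    (h1 : s(5, 1) ∈ N.closure Z) (h2 : s(5, 2) ∈ N.closure Z) (h4 : s(5, 4) ∈ N.closure Z) :
    ((9 : ℕ) : ℕ∞) ≤ N.eRk Z := by
  have x00 : s(0, 0) ∈ N.closure Z := hX (by simp [X0])
  have x01 : s(0, 1) ∈ N.closure Z := hX (by simp [X0])
  have x10 : s(1, 0) ∈ N.closure Z := sw (x01)
  have x11 : s(1, 1) ∈ N.closure Z := hX (by simp [X0])
  have x02 : s(0, 2) ∈ N.closure Z := hX (by simp [X0])
  have x20 : s(2, 0) ∈ N.closure Z := sw (x02)
  have x42 : s(4, 2) ∈ N.closure Z := hX (by simp [X0])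
  have x24 : s(2, 4) ∈ N.closure Z := sw (x42)
  have x05 : s(0, 5) ∈ N.closure Z := sw (h0)
  have x15 : s(1, 5) ∈ N.closure Z := sw (h1)
  have x25 : s(2, 5) ∈ N.closure Z := sw (h2)
  have x45 : s(4, 5) ∈ N.closure Z := sw (h4)
  -- ac
  have x04 : s(0, 4) ∈ N.closure Z :=
    cl3 hN 0 4 0 1 5 (by decide +kernel) (by decide +kernel) x00 x01 x05
  have x40 : s(4, 0) ∈ N.closure Z := sw (x04)
  -- a'c
  have x14 : s(1, 4) ∈ N.closure Z :=
    cl3 hN 1 4 0 1 5 (by decide +kernel) (by decide +kernel) x10 x11 x15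
  have x41 : s(4, 1) ∈ N.closure Z := sw (x14)
  -- a'b
  have x21 : s(2, 1) ∈ N.closure Z :=
    cl3 hN 2 1 0 4 5 (by decide +kernel) (by decide +kernel) x20 x24 x25
  have x12 : s(1, 2) ∈ N.closure Z := sw (x21)
  -- cc
  have x44 : s(4, 4) ∈ N.closure Z :=
    cl3 hN 4 4 0 1 5 (by decide +kernel) (by decide +kernel) x40 x41 x45
  have hsub : (S9 : Set (Sym2 (Fin 8))) ⊆ N.closure Z := by
    intro e he
    have he' : e ∈ S9 := he
    simp only [S9, Finset.mem_insert, Finset.mem_singleton] at he'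
    rcases he' with rfl | rfl | rfl | rfl | rfl | rfl | rfl | rfl | rfl
    · exact x00
    · exact x01
    · exact x02
    · exact x04
    · exact x11
    · exact x12
    · exact x14
    · exact x24
    · exact x44
  have h := eRk_le_of_subset_closure hsub
  rw [(indep_S9 hN hr).eRk_eq_encard, Set.encard_coe_eq_coe_finsetCard] at h
  refine le_trans (le_of_eq ?_) h
  congr 1

/-- `Y S = X ∪ c'S`. -/
def Y (S : Set (Fin 8)) : Set (Sym2 (Fin 8)) := X0 ∪ mulSet 5 S

lemma X0_subset_Y (S : Set (Fin 8)) : X0 ⊆ Y S := Set.subset_union_left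

lemma Y_mono {S T : Set (Fin 8)} (h : S ⊆ T) : Y S ⊆ Y T :=
  Set.union_subset_union_right _ (Set.image_mono h)

lemma mem_Y {S : Set (Fin 8)} {x : Fin 8} (hx : x ∈ S) : s(5, x) ∈ Y S :=
  Or.inr ⟨x, hx, rfl⟩

lemma mem_cl_of_mem (hN : IsQuasiPower vamos N) {Z : Set (Sym2 (Fin 8))} {e : Sym2 (Fin 8)}
    (he : e ∈ Z) : e ∈ N.closure Z :=
  N.mem_closure_of_mem he (by rw [hN.ground]; exact Set.subset_univ _)

lemma Y_subset_closure (hN : IsQuasiPower vamos N) {S : Set (Fin 8)} {Z : Set (Sym2 (Fin 8))}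
    (hX : X0 ⊆ Z) (hS : ∀ x ∈ S, s(5, x) ∈ N.closure Z) : Y S ⊆ N.closure Z := by
  rintro e (he | ⟨x, hx, rfl⟩)
  · exact mem_cl_of_mem hN (hX he)
  · exact hS x hx

lemma eRk_X0_le (hN : IsQuasiPower vamos N) : N.eRk X0 ≤ ((6 : ℕ) : ℕ∞) := by
  set Z : Finset (Sym2 (Fin 8)) := {s(0, 0), s(0, 1), s(1, 1), s(0, 2), s(4, 2), s(4, 3)} with hZ
  have hmem : ∀ e ∈ Z, e ∈ N.closure (Z : Set (Sym2 (Fin 8))) := fun e he =>
    mem_cl_of_mem hN (Finset.mem_coe.mpr he)
  have hsub : X0 ⊆ N.closure (Z : Set (Sym2 (Fin 8))) := by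
    intro e he
    simp only [X0, Set.mem_insert_iff, Set.mem_singleton_iff] at he
    rcases he with rfl | rfl | rfl | rfl | rfl | rfl | rfl
    · exact hmem _ (by decide)
    · exact hmem _ (by decide)
    · exact hmem _ (by decide)
    · exact hmem _ (by decide)
    · exact cl3 hN 0 3 0 1 2 (by decide +kernel) (by decide +kernel) (hmem _ (by decide))
        (hmem _ (by decide)) (hmem _ (by decide))
    · exact hmem _ (by decide)
    · exact hmem _ (by decide)
  refine (eRk_le_of_subset_closure hsub).trans ((N.eRk_le_encard _).trans ?_)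
  rw [Set.encard_coe_eq_coe_finsetCard]
  exact_mod_cast (by decide : Z.card ≤ 6)

lemma eRk_YA_le (hN : IsQuasiPower vamos N) : N.eRk (Y {0, 1}) ≤ N.eRk X0 + 1 := by
  refine le_trans (eRk_le_of_subset_closure (Z := insert s(0, 4) X0) ?_)
    (N.eRk_insert_le_add_one _ _)
  have hX : ∀ e ∈ X0, e ∈ N.closure (insert s(0, 4) X0) := fun e he =>
    mem_cl_of_mem hN (Or.inr he)
  have x04 : s(0, 4) ∈ N.closure (insert s(0, 4) X0) := mem_cl_of_mem hN (Or.inl rfl)
  have x40 : s(4, 0) ∈ N.closure (insert s(0, 4) X0) := sw (x04)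
  have x41 : s(4, 1) ∈ N.closure (insert s(0, 4) X0) :=
    cl3 hN 4 1 0 2 3 (by decide +kernel) (by decide +kernel) x40 (hX _ (by simp [X0]))
      (hX _ (by simp [X0]))
  have x14 : s(1, 4) ∈ N.closure (insert s(0, 4) X0) := sw (x41)
  refine Y_subset_closure hN (Set.subset_insert _ _) ?_
  rintro x (rfl | rfl)
  · exact sw <| cl3 hN 0 5 0 1 4 (by decide +kernel) (by decide +kernel) (hX _ (by simp [X0]))
      (hX _ (by simp [X0])) x04
  · exact sw <| cl3 hN 1 5 0 1 4 (by decide +kernel) (by decide +kernel)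
      (sw (hX s(0, 1) (by simp [X0]))) (hX _ (by simp [X0])) x14

lemma eRk_YB_le (hN : IsQuasiPower vamos N) : N.eRk (Y {2, 3}) ≤ N.eRk X0 + 1 := by
  refine le_trans (eRk_le_of_subset_closure (Z := insert s(1, 2) X0) ?_)
    (N.eRk_insert_le_add_one _ _)
  have hX : ∀ e ∈ X0, e ∈ N.closure (insert s(1, 2) X0) := fun e he =>
    mem_cl_of_mem hN (Or.inr he)
  have x12 : s(1, 2) ∈ N.closure (insert s(1, 2) X0) := mem_cl_of_mem hN (Or.inl rfl)
  have x10 : s(1, 0) ∈ N.closure (insert s(1, 2) X0) :=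
    sw (hX _ (by simp [X0]))
  have x21 : s(2, 1) ∈ N.closure (insert s(1, 2) X0) := sw (x12)
  have x13 : s(1, 3) ∈ N.closure (insert s(1, 2) X0) :=
    cl3 hN 1 3 0 1 2 (by decide +kernel) (by decide +kernel) x10 (hX _ (by simp [X0])) x12
  have x31 : s(3, 1) ∈ N.closure (insert s(1, 2) X0) := sw (x13)
  have x20 : s(2, 0) ∈ N.closure (insert s(1, 2) X0) :=
    sw (hX _ (by simp [X0]))
  have x30 : s(3, 0) ∈ N.closure (insert s(1, 2) X0) :=
    sw (hX _ (by simp [X0]))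
  have x24 : s(2, 4) ∈ N.closure (insert s(1, 2) X0) :=
    sw (hX _ (by simp [X0]))
  have x34 : s(3, 4) ∈ N.closure (insert s(1, 2) X0) :=
    sw (hX _ (by simp [X0]))
  refine Y_subset_closure hN (Set.subset_insert _ _) ?_
  rintro x (rfl | rfl)
  · exact sw <| cl3 hN 2 5 0 1 4 (by decide +kernel) (by decide +kernel) x20 x21 x24
  · exact sw <| cl3 hN 3 5 0 1 4 (by decide +kernel) (by decide +kernel) x30 x31 x34

/-- Adding a line that meets the line `{p, q}` raises the rank by at most one. -/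
lemma eRk_Y_step (hN : IsQuasiPower vamos N) (p q s t : Fin 8) (hI : VIndep {p, q, s})
    (ht : ¬ VIndep {t, p, q, s}) : N.eRk (Y {p, q, s, t}) ≤ N.eRk (Y {p, q}) + 1 := by
  refine le_trans (eRk_le_of_subset_closure (Z := insert s(5, s) (Y {p, q})) ?_)
    (N.eRk_insert_le_add_one _ _)
  have hY : ∀ e ∈ Y {p, q}, e ∈ N.closure (insert s(5, s) (Y {p, q})) := fun e he =>
    mem_cl_of_mem hN (Or.inr he)
  have hp : s(5, p) ∈ N.closure (insert s(5, s) (Y {p, q})) := hY _ (mem_Y (by simp))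
  have hq : s(5, q) ∈ N.closure (insert s(5, s) (Y {p, q})) := hY _ (mem_Y (by simp))
  have hs : s(5, s) ∈ N.closure (insert s(5, s) (Y {p, q})) := mem_cl_of_mem hN (Or.inl rfl)
  refine Y_subset_closure hN ((X0_subset_Y _).trans (Set.subset_insert _ _)) ?_
  rintro x (rfl | rfl | rfl | rfl)
  · exact hp
  · exact hq
  · exact hs
  · exact cl3 hN 5 x p q s hI ht hp hq hs

/-- If `c'` times a basis of the Vámos matroid is in `Z`, the rank is at least nine. -/
lemma nine_le_of_basis (hN : IsQuasiPower vamos N) (hr : N.eRank = ((10 : ℕ) : ℕ∞))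
    (p q s t : Fin 8) (hI : VIndep {p, q, s, t})
    (h0 : ¬ VIndep {0, p, q, s, t} ∨ 0 = p ∨ 0 = q ∨ 0 = s ∨ 0 = t)
    (h1 : ¬ VIndep {1, p, q, s, t} ∨ 1 = p ∨ 1 = q ∨ 1 = s ∨ 1 = t)
    (h2 : ¬ VIndep {2, p, q, s, t} ∨ 2 = p ∨ 2 = q ∨ 2 = s ∨ 2 = t)
    (h4 : ¬ VIndep {4, p, q, s, t} ∨ 4 = p ∨ 4 = q ∨ 4 = s ∨ 4 = t)
    {Z : Set (Sym2 (Fin 8))} (hX : X0 ⊆ Z) (hp : s(5, p) ∈ Z) (hq : s(5, q) ∈ Z)
    (hs : s(5, s) ∈ Z) (ht : s(5, t) ∈ Z) : ((9 : ℕ) : ℕ∞) ≤ N.eRk Z := by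
  have hp' := mem_cl_of_mem hN hp
  have hq' := mem_cl_of_mem hN hq
  have hs' := mem_cl_of_mem hN hs
  have ht' := mem_cl_of_mem hN ht
  have key : ∀ x : Fin 8, (¬ VIndep {x, p, q, s, t} ∨ x = p ∨ x = q ∨ x = s ∨ x = t) →
      s(5, x) ∈ N.closure Z := by
    rintro x (h | rfl | rfl | rfl | rfl)
    · exact cl4 hN 5 x p q s t hI h hp' hq' hs' ht'
    · exact hp'
    · exact hq'
    · exact hs'
    · exact ht'
  exact nine_le hN hr (fun e he => mem_cl_of_mem hN (hX he)) (key 0 h0) (key 1 h1) (key 2 h2)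
    (key 4 h4)

/-- The Vámos matroid has no second symmetric power. -/
theorem no_power (N : Matroid (Sym2 (Fin 8))) : ¬ IsSymmetricPower vamos N := by
  rintro ⟨hN, r, hr4, hr⟩
  have hr4' : r = 4 := by
    rw [vamos_eRank] at hr4
    exact_mod_cast hr4.symm
  subst hr4'
  replace hr : N.eRank = ((10 : ℕ) : ℕ∞) := hr
  have hfin : ∀ Z : Set (Sym2 (Fin 8)), ∃ n : ℕ, N.eRk Z = n := by
    intro Z
    have h1 : N.eRk Z ≤ ((10 : ℕ) : ℕ∞) := by
      rw [← hr]; exact N.eRk_le_eRank Z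
    obtain ⟨n, hn⟩ := ENat.ne_top_iff_exists.mp (ne_top_of_le_ne_top (ENat.natCast_ne_top 10) h1)
    exact ⟨n, hn.symm⟩
  choose f hf using hfin
  have hX : f X0 ≤ 6 := by
    have := eRk_X0_le hN
    rw [hf] at this
    exact_mod_cast this
  have hA : f (Y {0, 1}) ≤ f X0 + 1 := by
    have := eRk_YA_le hN
    rw [hf, hf] at this
    exact_mod_cast this
  have hB : f (Y {2, 3}) ≤ f X0 + 1 := by
    have := eRk_YB_le hN
    rw [hf, hf] at this
    exact_mod_cast this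
  have hAC : f (Y {0, 1, 4, 5}) ≤ f (Y {0, 1}) + 1 := by
    have := eRk_Y_step hN 0 1 4 5 (by decide +kernel) (by decide +kernel)
    rw [hf, hf] at this
    exact_mod_cast this
  have hAD : f (Y {0, 1, 6, 7}) ≤ f (Y {0, 1}) + 1 := by
    have := eRk_Y_step hN 0 1 6 7 (by decide +kernel) (by decide +kernel)
    rw [hf, hf] at this
    exact_mod_cast this
  have hBC : f (Y {2, 3, 4, 5}) ≤ f (Y {2, 3}) + 1 := by
    have := eRk_Y_step hN 2 3 4 5 (by decide +kernel) (by decide +kernel)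
    rw [hf, hf] at this
    exact_mod_cast this
  have hBD : f (Y {2, 3, 6, 7}) ≤ f (Y {2, 3}) + 1 := by
    have := eRk_Y_step hN 2 3 6 7 (by decide +kernel) (by decide +kernel)
    rw [hf, hf] at this
    exact_mod_cast this
  have hsub : ∀ P Q : Set (Sym2 (Fin 8)), f (P ∩ Q) + f (P ∪ Q) ≤ f P + f Q := by
    intro P Q
    have := N.eRk_inter_add_eRk_union_le P Q
    rw [hf, hf, hf, hf] at this
    exact_mod_cast this
  have hmono : ∀ P Q : Set (Sym2 (Fin 8)), P ⊆ Q → f P ≤ f Q := by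
    intro P Q h
    have := N.eRk_mono h
    rw [hf, hf] at this
    exact_mod_cast this
  have h9 : ∀ Z : Set (Sym2 (Fin 8)), ((9 : ℕ) : ℕ∞) ≤ N.eRk Z → 9 ≤ f Z := by
    intro Z h
    rw [hf] at h
    exact_mod_cast h
  -- C
  have hC : f (Y {4, 5}) + 9 ≤ f (Y {0, 1, 4, 5}) + f (Y {2, 3, 4, 5}) := by
    refine le_trans (Nat.add_le_add (hmono _ (Y {0, 1, 4, 5} ∩ Y {2, 3, 4, 5}) ?_)
      (h9 (Y {0, 1, 4, 5} ∪ Y {2, 3, 4, 5}) ?_)) (hsub _ _)
    · refine Set.subset_inter (Y_mono ?_) (Y_mono ?_) <;>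
      · intro x hx
        simp only [Set.mem_insert_iff, Set.mem_singleton_iff] at hx ⊢
        tauto
    · refine nine_le_of_basis hN hr 0 1 2 4 (by decide +kernel) (by decide) (by decide) (by decide)
        (by decide) ((X0_subset_Y _).trans Set.subset_union_left) ?_ ?_ ?_ ?_
      · exact Or.inl (mem_Y (by simp))
      · exact Or.inl (mem_Y (by simp))
      · exact Or.inr (mem_Y (by simp))
      · exact Or.inl (mem_Y (by simp))
  -- D
  have hD : f (Y {6, 7}) + 9 ≤ f (Y {0, 1, 6, 7}) + f (Y {2, 3, 6, 7}) := by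
    refine le_trans (Nat.add_le_add (hmono _ (Y {0, 1, 6, 7} ∩ Y {2, 3, 6, 7}) ?_)
      (h9 (Y {0, 1, 6, 7} ∪ Y {2, 3, 6, 7}) ?_)) (hsub _ _)
    · refine Set.subset_inter (Y_mono ?_) (Y_mono ?_) <;>
      · intro x hx
        simp only [Set.mem_insert_iff, Set.mem_singleton_iff] at hx ⊢
        tauto
    · refine nine_le_of_basis hN hr 0 1 2 6 (by decide +kernel) (by decide) (by decide) (by decide)
        (Or.inl (by decide +kernel)) ((X0_subset_Y _).trans Set.subset_union_left) ?_ ?_ ?_ ?_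
      · exact Or.inl (mem_Y (by simp))
      · exact Or.inl (mem_Y (by simp))
      · exact Or.inr (mem_Y (by simp))
      · exact Or.inl (mem_Y (by simp))
  -- CD
  have hCD : f X0 + 9 ≤ f (Y {4, 5}) + f (Y {6, 7}) := by
    refine le_trans (Nat.add_le_add (hmono _ (Y {4, 5} ∩ Y {6, 7}) ?_)
      (h9 (Y {4, 5} ∪ Y {6, 7}) ?_)) (hsub _ _)
    · exact Set.subset_inter (X0_subset_Y _) (X0_subset_Y _)
    · refine nine_le_of_basis hN hr 4 5 6 7 (by decide +kernel) (Or.inl (by decide +kernel))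
        (Or.inl (by decide +kernel)) (Or.inl (by decide +kernel)) (by decide)
        ((X0_subset_Y _).trans Set.subset_union_left) ?_ ?_ ?_ ?_
      · exact Or.inl (mem_Y (by simp))
      · exact Or.inl (mem_Y (by simp))
      · exact Or.inr (mem_Y (by simp))
      · exact Or.inr (mem_Y (by simp))
  omega

end

end Pool.Agent.Helper14.Vamos
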